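import Pool.Agent.Work.MP_24478e_mp.Jet

/-!
# Adjoints, the Euler operator, nondegeneracy
-/

namespace Pool.Agent.Work.MP_24478e_mp.KN

open Finset

variable {K : Type*} [CommRing K] [Algebra ℂ K] (J : JetAlg K)

namespace JetAlg

/-- `f` is a total derivative. -/
def Ex (f : K) : Prop := ∃ h, f = J.D h

variable {J}

theorem Ex.add {f g : K} (hf : J.Ex f) (hg : J.Ex g) : J.Ex (f + g) := by
  obtain ⟨a, rfl⟩ := hf
  obtain ⟨b, rfl⟩ := hg
  exact ⟨a + b, (map_add _ _ _).symm⟩

theorem Ex.sub {f g : K} (hf : J.Ex f) (hg : J.Ex g) : J.Ex (f - g) := by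
  obtain ⟨a, rfl⟩ := hf
  obtain ⟨b, rfl⟩ := hg
  exact ⟨a - b, (map_sub _ _ _).symm⟩

theorem Ex.neg {f : K} (hf : J.Ex f) : J.Ex (-f) := by
  obtain ⟨a, rfl⟩ := hf
  exact ⟨-a, (map_neg _ _).symm⟩

theorem ex_zero : J.Ex (0 : K) := ⟨0, (map_zero _).symm⟩

theorem ex_D (f : K) : J.Ex (J.D f) := ⟨f, rfl⟩

theorem Ex.X {f : K} (hf : J.Ex f) (h : K) : J.Ex (J.X h f) := by
  obtain ⟨a, rfl⟩ := hf
  exact ⟨J.X h a, J.X_D h a⟩

theorem Ex.sum {ι : Type*} (s : Finset ι) (f : ι → K) (h : ∀ i ∈ s, J.Ex (f i)) :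
    J.Ex (∑ i ∈ s, f i) := by
  induction s using Finset.cons_induction with
  | empty => simpa using ex_zero
  | cons a s ha ih =>
    rw [Finset.sum_cons]
    exact (h a (Finset.mem_cons_self _ _)).add
      (ih fun i hi => h i (Finset.mem_cons_of_mem hi))

variable (J)

/-- Nondegeneracy of the pairing modulo total derivatives. -/
theorem nondeg {g : K} (hg : ∀ h, J.Ex (g * h)) : g = 0 := by
  have key : ∀ N, J.Ord (N + 1) g → J.Ord N g := by
    intro N hN
    obtain ⟨k, hk⟩ := hg (J.u (N + 2))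
    have o1 : J.Ord (N + 3) (J.D k) := by
      rw [← hk]; exact (hN.mono (by omega)).mul (ord_u _)
    have o2 : J.Ord (N + 2) k := ord_of_D o1
    have e1 : J.pd (N + 1) k = g := by
      rw [← pd_D_of_ord o2, ← hk, pd_mul, hN _ (by omega), J.pd_u, if_pos rfl]
      ring
    have o3 : J.Ord (N + 1) (k - g * J.u (N + 1)) := by
      intro i hi
      rcases Nat.eq_or_lt_of_le hi with rfl | hi'
      · rw [map_sub, e1, pd_mul, hN _ le_rfl, J.pd_u, if_pos rfl]; ring
      · rw [map_sub, o2 i hi', pd_mul, hN _ (by omega), J.pd_u, if_neg (by omega)]; ring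
    have e2 : J.D (k - g * J.u (N + 1)) = - (J.D g * J.u (N + 1)) := by
      rw [map_sub, ← hk, D_mul, D_u]; ring
    have e3 := o3
    -- `∂_{N+1}^2` of `D (k - g u_{N+1})`
    have e4 : J.pd (N + 1) (J.D (k - g * J.u (N + 1))) = J.pd N (k - g * J.u (N + 1)) :=
      pd_D_of_ord o3
    have e5 : J.pd (N + 1) (J.pd (N + 1) (J.D (k - g * J.u (N + 1)))) = 0 := by
      rw [e4, J.comm, o3 _ le_rfl, map_zero]
    have e6 : J.pd (N + 1) (J.D g) = J.pd N g := pd_D_of_ord hN
    have e7 : J.pd (N + 1) (J.pd (N + 1) (J.D (k - g * J.u (N + 1)))) = - (2 * J.pd N g) := by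
      rw [e2, map_neg, pd_mul, e6, J.pd_u, if_pos rfl, map_neg, map_add, pd_mul, pd_mul,
        J.comm (N + 1) N g, hN _ le_rfl, map_zero, J.pd_u, if_pos rfl, e6]
      have h1 : J.pd (N + 1) (1 : K) = 0 := Derivation.map_one_eq_zero _
      rw [h1]
      ring
    rw [e5] at e7
    have e8 : J.pd N g = 0 := by
      have h2 : (2 : K) * J.pd N g = 0 := by
        have := congrArg Neg.neg e7
        rw [neg_neg, neg_zero] at this
        exact this.symm
      have h3 : (2 : ℂ) • J.pd N g = 0 := by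
        rw [Algebra.smul_def, map_ofNat]; exact h2
      have h4 := congrArg (fun x => (2 : ℂ)⁻¹ • x) h3
      simp only [smul_smul, smul_zero] at h4
      rwa [inv_mul_cancel₀ (two_ne_zero), one_smul] at h4
    intro i hi
    rcases Nat.eq_or_lt_of_le hi with rfl | hi'
    · exact e8
    · exact hN i hi'
  have all : ∀ N, J.Ord N g → J.Ord 0 g := by
    intro N
    induction N with
    | zero => exact id
    | succ N ih => exact fun h => ih (key N h)
  obtain ⟨N, hN⟩ := J.exists_ord g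
  obtain ⟨c, rfl⟩ := const_of_ord_zero (all N hN)
  obtain ⟨k, hk⟩ := hg (J.u 0)
  have o1 : J.Ord 1 (J.D k) := by
    rw [← hk]; exact (ord_algebraMap _ _).mul (ord_u _)
  have e1 : J.D k = 0 := D_eq_zero_of_ord_one o1
  rw [e1] at hk
  have := congrArg (J.pd 0) hk
  rw [pd_mul, J.pd_u, if_pos rfl, map_zero, Derivation.map_algebraMap] at this
  simpa using this

theorem ibp (a h : K) (i : ℕ) : J.Ex (a * J.D^[i] h - (-1) ^ i * J.D^[i] a * h) := by
  induction i generalizing a with
  | zero => simpa using ex_zero (J := J)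
  | succ i ih =>
    have h1 := ih (- J.D a)
    have h2 := ex_D (J := J) (a * J.D^[i] h)
    convert h2.add h1 using 1
    rw [D_mul, D_iter_neg, Function.iterate_succ_apply', Function.iterate_succ_apply,
      pow_succ]
    ring

/-- The adjoint of the Fréchet derivative of `G`. -/
noncomputable def adj (G f : K) : K := ∑ᶠ i, (-1) ^ i * J.D^[i] (J.pd i G * f)

/-- The Euler operator. -/
noncomputable def E (f : K) : K := ∑ᶠ i, (-1) ^ i * J.D^[i] (J.pd i f)

theorem adj_sum {n : ℕ} {G : K} (hG : J.Ord n G) (f : K) :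
    J.adj G f = ∑ i ∈ range n, (-1) ^ i * J.D^[i] (J.pd i G * f) := by
  refine finsum_eq_sum_of_support_subset _ ?_
  intro i hi
  rw [Finset.mem_coe, Finset.mem_range]
  by_contra h
  refine hi ?_
  simp only [hG i (not_lt.mp h), zero_mul, D_iter_zero, mul_zero]

theorem E_sum {n : ℕ} {G : K} (hG : J.Ord n G) :
    J.E G = ∑ i ∈ range n, (-1) ^ i * J.D^[i] (J.pd i G) := by
  refine finsum_eq_sum_of_support_subset _ ?_
  intro i hi
  rw [Finset.mem_coe, Finset.mem_range]
  by_contra h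
  refine hi ?_
  simp only [hG i (not_lt.mp h), D_iter_zero, mul_zero]

theorem E_eq_adj (f : K) : J.E f = J.adj f 1 := by
  rw [E, adj]
  exact finsum_congr fun i => by rw [mul_one]

theorem adj_spec (G f h : K) : J.Ex (f * J.X h G - J.adj G f * h) := by
  obtain ⟨n, hn⟩ := J.exists_ord G
  rw [X_sum J h hn, adj_sum J hn, Finset.mul_sum, Finset.sum_mul, ← Finset.sum_sub_distrib]
  refine Ex.sum _ _ fun i _ => ?_
  convert J.ibp (f * J.pd i G) h i using 1
  rw [mul_comm f]; ring

theorem E_spec (G h : K) : J.Ex (J.X h G - J.E G * h) := by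
  have := J.adj_spec G 1 h
  rwa [one_mul, ← E_eq_adj] at this

/-- uniqueness of adjoints -/
theorem adj_unique {G f g : K} (h : ∀ h, J.Ex (f * J.X h G - g * h)) : J.adj G f = g := by
  rw [← sub_eq_zero]
  refine J.nondeg fun k => ?_
  convert (h k).sub (J.adj_spec G f k) using 1
  ring

theorem E_unique {G g : K} (h : ∀ h, J.Ex (J.X h G - g * h)) : J.E G = g := by
  rw [E_eq_adj]
  refine J.adj_unique fun k => ?_
  rw [one_mul]; exact h k

theorem adj_add_right (G f g : K) : J.adj G (f + g) = J.adj G f + J.adj G g := by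
  refine J.adj_unique fun h => ?_
  convert (J.adj_spec G f h).add (J.adj_spec G g h) using 1
  ring

theorem adj_D (G f : K) : J.adj (J.D G) f = - J.adj G (J.D f) := by
  refine J.adj_unique fun h => ?_
  rw [X_D]
  convert (ex_D (J := J) (f * J.X h G)).sub (J.adj_spec G (J.D f) h) using 1
  rw [D_mul]; ring

theorem E_D (G : K) : J.E (J.D G) = 0 := by
  refine J.E_unique fun h => ?_
  rw [X_D, zero_mul, sub_zero]
  exact ex_D _

theorem E_add (f g : K) : J.E (f + g) = J.E f + J.E g := by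
  refine J.E_unique fun h => ?_
  convert (J.E_spec f h).add (J.E_spec g h) using 1
  rw [map_add]; ring

theorem E_sub (f g : K) : J.E (f - g) = J.E f - J.E g := by
  refine J.E_unique fun h => ?_
  convert (J.E_spec f h).sub (J.E_spec g h) using 1
  rw [map_sub]; ring

theorem E_smul (c : ℂ) (f : K) : J.E (c • f) = c • J.E f := by
  refine J.E_unique fun h => ?_
  obtain ⟨a, ha⟩ := J.E_spec f h
  refine ⟨c • a, ?_⟩
  rw [Derivation.map_smul, Derivation.map_smul, ← ha, smul_sub, smul_mul_assoc]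

theorem E_algebraMap (c : ℂ) : J.E (algebraMap ℂ K c) = 0 := by
  refine J.E_unique fun h => ?_
  rw [Derivation.map_algebraMap, zero_mul, sub_zero]
  exact ex_zero

/-- `E (X_F ρ) = X_F (E ρ) + F_*^+ (E ρ)`. -/
theorem E_X (F ρ : K) : J.E (J.X F ρ) = J.X F (J.E ρ) + J.adj F (J.E ρ) := by
  refine J.E_unique fun h => ?_
  have h1 := (J.E_spec ρ h).X F
  have h2 := J.E_spec ρ (J.X h F - J.X F h)
  have h3 := J.adj_spec F (J.E ρ) h
  have h4 := J.X_comm h F ρ
  convert (h1.add h2).add h3 using 1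
  rw [← h4, map_sub, X_mul]; ring

theorem W_E (f : K) : J.W (J.E f) = J.E (J.W f) := by
  obtain ⟨n, hn⟩ := J.exists_ord f
  rw [J.E_sum hn, J.E_sum hn.W, map_sum]
  refine Finset.sum_congr rfl fun i _ => ?_
  have h1 : J.W ((-1 : K) ^ i) = 0 := by
    have : ((-1 : K) ^ i) = algebraMap ℂ K ((-1) ^ i) := by simp
    rw [this, Derivation.map_algebraMap]
  rw [W_mul, h1, zero_mul, zero_add, W_D_iter, pd_W, D_iter_add]
  have h2 : J.D^[i] ((i : K) * J.pd i f) = (i : K) * J.D^[i] (J.pd i f) := by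
    have : ∀ (g : K), (i : K) * g = (i : ℂ) • g := by
      intro g; rw [Algebra.smul_def, map_natCast]
    rw [this, this, D_iter_smul]
  rw [h2]

theorem Ord.E {n : ℕ} {f : K} (hf : J.Ord n f) : J.Ord (n + n) (J.E f) := by
  rw [J.E_sum hf]
  refine Ord.sum _ _ fun i hi => ?_
  rw [Finset.mem_range] at hi
  exact Ord.mul ((ord_one _).neg.pow i) (((hf.pd i).D_iter i).mono (by omega))

end JetAlg

end Pool.Agent.Work.MP_24478e_mp.KN
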