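import Pool.Agent.Work.MP_24478e_mp.Par

/-!
# The Krichever-Novikov equation and its cosymmetry operator
-/

namespace Pool.Agent.Work.MP_24478e_mp.KN

open Finset

variable {K : Type*} [CommRing K] [Algebra ℂ K] (J : JetAlg K)

/-- `1/2` -/
noncomputable def hf (K : Type*) [CommRing K] [Algebra ℂ K] : K := algebraMap ℂ K (1 / 2)

theorem two_hf : 2 * hf K = 1 := by
  rw [hf, ← map_ofNat (algebraMap ℂ K) 2, ← map_mul]
  norm_num

namespace JetAlg

/-- `y n = D^n (u₂ / u₁)` -/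
noncomputable def y (n : ℕ) : K := J.D^[n] (J.u 2 * J.q)

theorem y_zero : J.y 0 = J.u 2 * J.q := rfl

theorem D_y (n : ℕ) : J.D (J.y n) = J.y (n + 1) := by
  rw [y, y, Function.iterate_succ_apply']

theorem D_q' : J.D J.q = - (J.q * J.y 0) := by
  rw [D_q, y_zero]; ring

theorem D_ofNat (n : ℕ) [n.AtLeastTwo] : J.D (no_index (OfNat.ofNat n) : K) = 0 :=
  Derivation.map_natCast J.D n

theorem D_hf : J.D (hf K) = 0 := Derivation.map_algebraMap _ _

theorem D_sq (x : K) : J.D (x ^ 2) = 2 * x * J.D x := by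
  rw [pow_two, D_mul]; ring

theorem D_cube (x : K) : J.D (x ^ 3) = 3 * x ^ 2 * J.D x := by
  rw [pow_succ, D_mul, D_sq]; ring

theorem X_ofNat (h : K) (n : ℕ) [n.AtLeastTwo] : J.X h (no_index (OfNat.ofNat n) : K) = 0 :=
  Derivation.map_natCast (J.X h) n

theorem X_hf (h : K) : J.X h (hf K) = 0 := Derivation.map_algebraMap _ _

theorem X_sq (h x : K) : J.X h (x ^ 2) = 2 * x * J.X h x := by
  rw [pow_two, X_mul]; ring

theorem pd_ofNat (i : ℕ) (n : ℕ) [n.AtLeastTwo] : J.pd i (no_index (OfNat.ofNat n) : K) = 0 :=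
  Derivation.map_natCast (J.pd i) n

theorem pd_hf (i : ℕ) : J.pd i (hf K) = 0 := Derivation.map_algebraMap _ _

theorem pd_sq (i : ℕ) (x : K) : J.pd i (x ^ 2) = 2 * x * J.pd i x := by
  rw [pow_two, pd_mul]; ring

/-- the Schwarzian derivative -/
noncomputable def S : K := J.y 1 - hf K * J.y 0 ^ 2

variable (P : K)

noncomputable def Q : K := P * J.q ^ 2
noncomputable def R : K := J.pd 0 P * J.q

/-- the right-hand side of the Krichever-Novikov equation -/
noncomputable def F : K := J.u 3 - 3 * hf K * J.q * J.u 2 ^ 2 + P * J.q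

noncomputable def tau : K := J.S + J.Q P

noncomputable def aa : K := 3 * J.S - J.Q P

noncomputable def Th : K := J.y 0 * J.tau P + J.D (J.tau P)

/-- the cosymmetry operator in terms of `γ = u₁ g` -/
noncomputable def C (γ : K) : K := J.X (J.F P) γ - J.D (J.D (J.D γ)) - J.D (J.aa P * γ)

noncomputable def Lc (η : K) : K := J.X (J.F P) η - J.D (J.D (J.D η)) - J.aa P * J.D η

theorem y_one : J.y 1 = J.u 3 * J.q - J.q ^ 2 * J.u 2 ^ 2 := by
  rw [← D_y, y_zero, D_mul, D_u, D_q]; ring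

theorem S_eq : J.S = J.u 3 * J.q - 3 * hf K * J.q ^ 2 * J.u 2 ^ 2 := by
  rw [S, y_one, y_zero]
  linear_combination (J.q ^ 2 * J.u 2 ^ 2) * two_hf (K := K)

theorem F_eq : J.F P = J.u 1 * J.tau P := by
  rw [tau, S_eq, F, Q]
  linear_combination (- (J.u 3 - 3 * hf K * J.q * J.u 2 ^ 2 + P * J.q)) * J.uq

theorem D_C (η : K) : J.C P (J.D η) = J.D (J.Lc P η) := by
  rw [C, Lc, X_D, map_sub, map_sub]

variable {P} (hP : J.Ord 1 P)
include hP

theorem D_P : J.D P = J.pd 0 P * J.u 1 := by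
  rw [J.D_sum hP, Finset.sum_range_one]; ring

theorem X_P (h : K) : J.X h P = J.pd 0 P * h := by
  rw [J.X_sum h hP, Finset.sum_range_one]
  exact mul_comm _ _

theorem D_Q : J.D (J.Q P) = J.R P - 2 * J.y 0 * J.Q P := by
  rw [Q, R, D_mul, D_P J hP, D_sq, D_q']
  linear_combination (J.pd 0 P * J.q) * J.uq

theorem D_R : J.D (J.R P) = J.pd 0 (J.pd 0 P) - J.y 0 * J.R P := by
  rw [R, D_mul, D_P J (hP.pd 0), D_q']
  linear_combination (J.pd 0 (J.pd 0 P)) * J.uq

theorem X_Q (h : K) : J.X h (J.Q P) = J.R P * J.q * h - 2 * J.Q P * (J.q * J.D h) := by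
  rw [Q, R, X_mul, X_P J hP, X_sq, X_q]; ring

omit hP in
theorem X_y (h : K) (n : ℕ) : J.X h (J.y n) = J.D^[n + 1] (J.q * J.D h) := by
  rw [y, X_D_iter, X_mul, X_u, X_q, Function.iterate_succ_apply J.D n, D_mul J J.q, D_q]
  congr 1
  rw [Function.iterate_succ_apply', Function.iterate_one]
  ring

omit hP in
theorem X_S (h : K) : J.X h J.S =
    J.D (J.D (J.q * J.D h)) - J.y 0 * J.D (J.q * J.D h) := by
  rw [S, map_sub, X_mul, X_hf, X_sq, X_y, X_y, Function.iterate_succ_apply',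
    Function.iterate_succ_apply', Function.iterate_zero_apply]
  linear_combination (- (J.y 0 * J.D (J.q * J.D h))) * two_hf (K := K)

theorem Th_eq : J.Th P = J.y 2 - hf K * J.y 0 ^ 3 - J.y 0 * J.Q P + J.R P := by
  rw [Th, tau, S, map_add, map_sub, D_Q J hP, D_mul, D_hf, D_sq, D_y, D_y]
  linear_combination (-(J.y 0 * J.y 1)) * two_hf (K := K)

omit hP in
theorem D_F : J.D (J.F P) = J.u 1 * J.Th P := by
  rw [F_eq, D_mul, D_u, Th, y_zero]
  linear_combination (- J.u 2 * J.tau P) * J.uq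

omit hP in
theorem q_D_F : J.q * J.D (J.F P) = J.Th P := by
  rw [D_F]
  linear_combination (J.Th P) * J.uq

omit hP in
theorem XF_q : J.X (J.F P) J.q = - (J.q * J.Th P) := by
  rw [X_q, ← q_D_F]; ring

omit hP in
theorem XF_y0 : J.X (J.F P) (J.y 0) = J.D (J.Th P) := by
  rw [X_y, q_D_F]; rfl

/-! ### partial derivatives of `F` -/

omit hP in
theorem pd3_F (hP : J.Ord 1 P) : J.pd 3 (J.F P) = 1 := by
  simp only [F, map_add, map_sub, pd_mul, pd_ofNat, pd_hf, pd_q, pd_sq, J.pd_u,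
    hP 3 (by omega)]
  simp

theorem pd2_F : J.pd 2 (J.F P) = - (3 * J.y 0) := by
  simp only [F, map_add, map_sub, pd_mul, pd_ofNat, pd_hf, pd_q, pd_sq, J.pd_u,
    hP 2 (by omega), y_zero]
  simp
  linear_combination (3 * J.q * J.u 2) * two_hf (K := K)

theorem pd1_F : J.pd 1 (J.F P) = 3 * hf K * J.y 0 ^ 2 - J.Q P := by
  simp only [F, map_add, map_sub, pd_mul, pd_ofNat, pd_hf, pd_q, pd_sq, J.pd_u,
    hP 1 (by omega), y_zero, Q]
  simp
  ring

omit hP in
theorem pd0_F : J.pd 0 (J.F P) = J.R P := by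
  simp only [F, map_add, map_sub, pd_mul, pd_ofNat, pd_hf, pd_q, pd_sq, J.pd_u, R]
  simp

theorem ord_F : J.Ord 4 (J.F P) := by
  have h1 : J.Ord 4 (hf K) := ord_algebraMap _ _
  exact ((ord_u 3).sub ((((ord_ofNat _ 3).mul h1).mul (ord_q.mono (by omega))).mul
    ((ord_u' (by omega)).pow 2))).add ((hP.mono (by omega)).mul (ord_q.mono (by omega)))

omit hP in
theorem ord_S : J.Ord 4 J.S := by
  have h1 : J.Ord 4 (hf K) := ord_algebraMap _ _
  rw [S_eq]
  exact ((ord_u 3).mul (ord_q.mono (by omega))).sub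
    ((((ord_ofNat _ 3).mul h1).mul ((ord_q.mono (by omega)).pow 2)).mul
    ((ord_u' (by omega)).pow 2))

omit hP in
theorem ord_y0 : J.Ord 3 (J.y 0) := (ord_u 2).mul (ord_q.mono (by omega))

theorem ord_Q : J.Ord 2 (J.Q P) := (hP.mono (by omega)).mul (ord_q.pow 2)

theorem ord_aa : J.Ord 4 (J.aa P) :=
  ((ord_ofNat _ 3).mul (J.ord_S)).sub ((J.ord_Q hP).mono (by omega))

omit hP in
theorem pd3_S : J.pd 3 J.S = J.q := by
  rw [S_eq, map_sub, pd_mul, pd_mul, pd_mul, pd_mul, pd_ofNat, pd_hf, pd_q, pd_sq, pd_sq, J.pd_u,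
    J.pd_u, pd_q]
  simp

theorem pd3_aa : J.pd 3 (J.aa P) = 3 * J.q := by
  rw [aa, map_sub, pd_mul, pd_ofNat, pd3_S, J.ord_Q hP 3 (by omega)]
  ring

/-- The adjoint linearisation in terms of `γ = u₁ g`. -/
theorem adj_F (γ : K) : J.X (J.F P) (J.q * γ) + J.adj (J.F P) (J.q * γ) = J.q * J.C P γ := by
  rw [J.adj_sum (J.ord_F hP), Finset.sum_range_succ, Finset.sum_range_succ,
    Finset.sum_range_succ, Finset.sum_range_one, pd3_F J hP, pd2_F J hP, pd1_F J hP, pd0_F,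
    X_mul, XF_q, C, Th_eq J hP, aa, S]
  simp only [Function.iterate_succ_apply, Function.iterate_zero_apply, map_add, map_sub, map_neg,
    D_mul, D_y, D_q', D_Q J hP, D_R J hP, D_hf, D_sq, D_ofNat, one_mul, zero_mul, mul_zero,
    zero_add, add_zero]
  linear_combination (-6 * J.q * J.y 0 * γ * J.y 1 - 3 * J.q * J.y 0 ^ 2 * J.D γ +
    2 * J.q * J.y 0 ^ 3 * γ) * two_hf (K := K)

/-! ### leading coefficients -/

omit hP in
/-- subleading coefficient of `D^i f` -/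
theorem pd_D_iter_sub {n : ℕ} {f : K} (h : J.Ord (n + 2) f) (i : ℕ) :
    J.pd (n + i) (J.D^[i] f) = J.pd n f + (i : K) * J.D (J.pd (n + 1) f) := by
  induction i with
  | zero => simp
  | succ i ih =>
    rw [Function.iterate_succ_apply', ← add_assoc, pd_D_succ, ih,
      show n + i + 1 = n + 1 + i by ring, pd_D_iter_of_ord h]
    push_cast; ring

omit hP in
theorem pd_X (j : ℕ) (h f : K) {n : ℕ} (hf : J.Ord n f) :
    J.pd j (J.X h f) = J.X h (J.pd j f) + ∑ i ∈ range n, J.pd j (J.D^[i] h) * J.pd i f := by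
  rw [X, pd_VF, J.VF_sum (fun i => J.pd j (J.D^[i] h)) hf]

theorem pd_XF {N : ℕ} (hN : 1 ≤ N) {γ : K} (hγ : J.Ord (N + 1) γ) :
    J.pd (N + 2) (J.X (J.F P) γ) = J.pd (N - 1) γ - 3 * J.y 0 * J.pd N γ := by
  obtain ⟨M, rfl⟩ : ∃ M, N = M + 1 := ⟨N - 1, by omega⟩
  have hF := J.ord_F hP
  rw [J.pd_X _ _ _ hγ, hγ _ (by omega), map_zero, zero_add, Finset.sum_range_succ,
    Finset.sum_range_succ]
  have h1 : ∑ x ∈ range M, J.pd (M + 1 + 2) (J.D^[x] (J.F P)) * J.pd x γ = 0 := by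
    refine Finset.sum_eq_zero fun i hi => ?_
    rw [Finset.mem_range] at hi
    rw [(hF.D_iter i) _ (by omega), zero_mul]
  have h2 : J.pd (M + 1 + 2) (J.D^[M] (J.F P)) = 1 := by
    rw [show M + 1 + 2 = 3 + M by ring, pd_D_iter_of_ord hF, pd3_F J hP]
  have h3 : J.pd (M + 1 + 2) (J.D^[M + 1] (J.F P)) = - (3 * J.y 0) := by
    rw [show M + 1 + 2 = 2 + (M + 1) by ring, pd_D_iter_sub J hF, pd3_F J hP, pd2_F J hP,
      Derivation.map_one_eq_zero]
    ring
  rw [h1, h2, h3, show M + 1 - 1 = M by omega]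
  ring

omit hP in
theorem pd_D3 {N : ℕ} (hN : 1 ≤ N) {γ : K} (hγ : J.Ord (N + 1) γ) :
    J.pd (N + 2) (J.D (J.D (J.D γ))) = J.pd (N - 1) γ + 3 * J.D (J.pd N γ) := by
  obtain ⟨M, rfl⟩ : ∃ M, N = M + 1 := ⟨N - 1, by omega⟩
  have := pd_D_iter_sub J (n := M) hγ 3
  simp only [Function.iterate_succ_apply, Function.iterate_zero_apply] at this
  rw [show M + 1 + 2 = M + 3 by ring, this, show M + 1 - 1 = M by omega]
  push_cast; ring

theorem T1 {N : ℕ} (hN : 3 ≤ N) {γ : K} (hγ : J.Ord (N + 1) γ) :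
    J.pd (N + 2) (J.C P γ) = - 3 * (J.D (J.pd N γ) + J.y 0 * J.pd N γ) := by
  have h1 : J.Ord (N + 1) (J.aa P * γ) := ((J.ord_aa hP).mono (by omega)).mul hγ
  rw [C, map_sub, map_sub, J.pd_XF hP (by omega) hγ, J.pd_D3 (by omega) hγ, h1.D _ le_rfl]
  ring

theorem T1' {γ : K} (hγ : J.Ord 3 γ) :
    J.pd 4 (J.C P γ) = - 3 * (J.D (J.pd 2 γ) + J.y 0 * J.pd 2 γ) - 3 * J.q * γ := by
  have h1 : J.Ord 4 (J.aa P * γ) := (J.ord_aa hP).mul (hγ.mono (by omega))
  have h2 := J.pd_XF hP (N := 2) (by omega) hγ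
  have h3 := J.pd_D3 (N := 2) (by omega) hγ
  simp only [Nat.reduceAdd, Nat.reduceSub] at h2 h3
  rw [C, map_sub, map_sub, h2, h3, pd_D_of_ord h1, pd_mul, pd3_aa J hP, hγ 3 (by omega)]
  ring

omit hP in
theorem D_p_mul (β : K) : J.D (J.u 1 * β) = J.u 1 * (J.D β + J.y 0 * β) := by
  rw [D_mul, D_u, y_zero]
  linear_combination (- J.u 2 * β) * J.uq

omit hP in
theorem of_p_mul_mem {V : Subalgebra ℂ K} (hq : J.q ∈ V) {x : K} (h : J.u 1 * x ∈ V) : x ∈ V := by
  have : x = J.q * (J.u 1 * x) := by linear_combination (- x) * J.uq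
  rw [this]
  exact V.mul_mem hq h

omit hP in
theorem eq_zero_of_p_mul {x : K} (h : J.u 1 * x = 0) : x = 0 := by
  linear_combination J.q * h - x * J.uq

theorem N_F : J.F P ∈ J.N :=
  J.N.add_mem (J.N.sub_mem (N_u _) (J.N.mul_mem (J.N.mul_mem (J.N.mul_mem
    (ofNat_mem _ 3) (J.N.algebraMap_mem _)) N_q) (J.N.pow_mem (N_u _) 2)))
    (J.N.mul_mem (N_ord_one hP) N_q)

theorem N_aa : J.aa P ∈ J.N := by
  refine J.N.sub_mem (J.N.mul_mem (ofNat_mem _ 3) ?_) (J.N.mul_mem (N_ord_one hP)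
    (J.N.pow_mem N_q 2))
  rw [S_eq]
  exact J.N.sub_mem (J.N.mul_mem (N_u _) N_q) (J.N.mul_mem (J.N.mul_mem (J.N.mul_mem
    (ofNat_mem _ 3) (J.N.algebraMap_mem _)) (J.N.pow_mem N_q 2)) (J.N.pow_mem (N_u _) 2))

theorem N_C {γ : K} (hγ : γ ∈ J.N) : J.C P γ ∈ J.N :=
  J.N.sub_mem (J.N.sub_mem (N_X hγ (J.N_F hP)) (N_D (N_D (N_D hγ))))
    (N_D (J.N.mul_mem (J.N_aa hP) hγ))

omit hP in
theorem C_sub (γ δ : K) : J.C P (γ - δ) = J.C P γ - J.C P δ := by
  simp only [C, map_sub, mul_sub]; ring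

omit hP in
theorem mem_N_of_three_mul {x : K} (h : 3 * x ∈ J.N) : x ∈ J.N := by
  have : x = (1 / 3 : ℂ) • (3 * x) := by
    rw [Algebra.smul_def, ← mul_assoc, ← map_ofNat (algebraMap ℂ K) 3, ← map_mul]
    norm_num
  rw [this]
  exact J.N.smul_mem h _

omit hP in
theorem mem_N_of_two_mul {x : K} (h : 2 * x ∈ J.N) : x ∈ J.N := by
  have : x = (1 / 2 : ℂ) • (2 * x) := by
    rw [Algebra.smul_def, ← mul_assoc, ← map_ofNat (algebraMap ℂ K) 2, ← map_mul]
    norm_num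
  rw [this]
  exact J.N.smul_mem h _

/-- Cosymmetries are nice functions. -/
theorem S1 {γ : K} (h : J.C P γ ∈ J.N) : γ ∈ J.N := by
  have key : ∀ N, ∀ γ : K, J.Ord (N + 3) γ → J.C P γ ∈ J.N → γ ∈ J.N := by
    intro N
    induction N with
    | zero =>
      intro γ hγ h
      simp only [zero_add] at hγ
      have h1 := N_pd h 4
      rw [J.T1' hP hγ] at h1
      set β := J.pd 2 γ with hβ
      have e1 : J.u 1 * (-3 * (J.D β + J.y 0 * β) - 3 * J.q * γ) =
          3 * (- (J.D (J.u 1 * β) + γ)) := by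
        rw [D_p_mul]
        linear_combination (- 3 * γ) * J.uq
      have h2 : J.D (J.u 1 * β) + γ ∈ J.N := by
        have := J.mem_N_of_three_mul (by rw [← e1]; exact J.N.mul_mem (N_u 1) h1)
        have := J.N.neg_mem this
        rwa [neg_neg] at this
      have hβ3 : J.Ord 3 β := hγ.pd 2
      have hpβ : J.Ord 3 (J.u 1 * β) := (ord_u' (by omega)).mul hβ3
      -- `∂_3`
      have h3 : J.pd 2 β ∈ J.N := by
        have := N_pd h2 3
        rw [map_add, pd_D_of_ord hpβ, hγ 3 (by omega), add_zero, pd_mul, J.pd_u, if_neg (by omega),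
          zero_mul, zero_add] at this
        exact J.of_p_mul_mem N_q this
      -- `∂_2`
      have h4 : 2 * β + J.u 1 * J.pd 1 β ∈ J.N := by
        have := N_pd h2 2
        have e2 : J.pd 2 (J.D (J.u 1 * β) + γ) =
            J.D (J.u 1 * J.pd 2 β) + (2 * β + J.u 1 * J.pd 1 β) := by
          rw [map_add, pd_D_succ, pd_mul, pd_mul, J.pd_u, if_neg (by omega), J.pd_u, if_pos rfl]
          rw [zero_mul, zero_add]
          ring
        rw [e2] at this
        have h5 := J.N.sub_mem this (N_D (J.N.mul_mem (N_u 1) h3))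
        rwa [add_sub_cancel_left] at h5
      have h5 : J.W β - ((-2 : ℤ) : K) * β ∈ J.N := by
        have : J.W β = J.u 1 * J.pd 1 β + 2 * J.u 2 * J.pd 2 β := by
          rw [J.W_sum hβ3, Finset.sum_range_succ, Finset.sum_range_succ, Finset.sum_range_one]
          simp
        rw [this]
        have := J.N.add_mem h4 (J.N.mul_mem (J.N.mul_mem (ofNat_mem _ 2) (N_u 2)) h3)
        convert this using 1
        push_cast; ring
      have h6 : β ∈ J.N := by
        refine ⟨.step (-2) (Set.mem_univ _) _ h5.1, fun i hi => .step _ ?_⟩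
        rcases Nat.eq_or_lt_of_le hi with rfl | hi'
        · exact h3.2 2 le_rfl
        · rw [hβ3 i hi']; exact .zero
      have h7 := J.N.sub_mem h2 (N_D (J.N.mul_mem (N_u 1) h6))
      rwa [add_sub_cancel_left] at h7
    | succ N ih =>
      intro γ hγ h
      have h1 := N_pd h (N + 3 + 2)
      have hγ' : J.Ord (N + 3 + 1) γ := by
        convert hγ using 1
      rw [J.T1 hP (by omega) hγ'] at h1
      have h2 : J.D (J.u 1 * J.pd (N + 3) γ) ∈ J.N := by
        rw [D_p_mul]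
        refine J.N.mul_mem (N_u 1) (J.mem_N_of_three_mul ?_)
        have := J.N.neg_mem h1
        convert this using 1
        ring
      have h3 : J.pd (N + 3) γ ∈ J.N := J.of_p_mul_mem N_q (N_of_D h2)
      obtain ⟨A, hA, e⟩ := prim_last (n := N + 3) (f := J.pd (N + 3) γ) ⟨h3, hγ'.pd _⟩
      have h4 : J.Ord (N + 3) (γ - A) :=
        ord_of_pd (hγ'.sub hA.2) (by rw [map_sub, e, sub_self])
      have h5 := ih (γ - A) h4 (by rw [C_sub]; exact J.N.sub_mem h (J.N_C hP hA.1))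
      have := J.N.add_mem h5 hA.1
      simpa using this
  obtain ⟨n, hn⟩ := J.exists_ord γ
  exact key n γ (hn.mono (by omega)) h

end JetAlg

end Pool.Agent.Work.MP_24478e_mp.KN
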