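import Mathlib

/-!
# The Krichever-Novikov equation: concrete definitions

A point of the (infinite) jet space is a sequence `x : ℕ → ℂ`; the coordinate `x i` is the jet
variable `u_i`.
-/

namespace Pool.Agent.Work.MP_24478e_mp

open Filter Topology

/-- The partial derivative `∂f/∂u_i`. -/
noncomputable def pd (i : ℕ) (f : (ℕ → ℂ) → ℂ) : (ℕ → ℂ) → ℂ :=
  fun x => deriv (fun z => f (Function.update x i z)) (x i)

/-- The total derivative `D f = ∑ u_{i+1} ∂f/∂u_i`. -/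
noncomputable def D (f : (ℕ → ℂ) → ℂ) : (ℕ → ℂ) → ℂ :=
  fun x => ∑ᶠ i, x (i + 1) * pd i f x

/-- The right-hand side `F = u₃ - (3/2) u₂²/u₁ + P(u)/u₁` of the Krichever-Novikov equation. -/
noncomputable def F (P : Polynomial ℂ) : (ℕ → ℂ) → ℂ :=
  fun x => x 3 - 3 / 2 * (x 2 ^ 2 / x 1) + P.eval (x 0) / x 1

/-- The time derivative `D_t g = ∑ ∂g/∂u_i D^i(F)` along the Krichever-Novikov equation. -/
noncomputable def Dt (P : Polynomial ℂ) (g : (ℕ → ℂ) → ℂ) : (ℕ → ℂ) → ℂ :=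
  fun x => ∑ᶠ i, pd i g x * (D^[i] (F P)) x

/-- The formal adjoint `F_*^+ g = ∑ (-D)^i (∂F/∂u_i g)` of the Fréchet derivative of `F`. -/
noncomputable def FstarAdj (P : Polynomial ℂ) (g : (ℕ → ℂ) → ℂ) : (ℕ → ℂ) → ℂ :=
  fun x => ∑ᶠ i, (-1) ^ i * (D^[i] fun y => pd i (F P) y * g y) x

/-- The variational derivative `δρ/δu = ∑ (-D)^i (∂ρ/∂u_i)`. -/
noncomputable def varDeriv (ρ : (ℕ → ℂ) → ℂ) : (ℕ → ℂ) → ℂ :=
  fun x => ∑ᶠ i, (-1) ^ i * (D^[i] (pd i ρ)) x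

/-- `f` is, near the jet `a`, an analytic function of finitely many jet variables
`u_0, …, u_{n-1}`. -/
def LocAn (a : ℕ → ℂ) (f : (ℕ → ℂ) → ℂ) : Prop :=
  ∃ n : ℕ, ∃ h : (Fin n → ℂ) → ℂ, AnalyticAt ℂ h (fun i => a i) ∧
    f =ᶠ[𝓝 a] fun x => h fun i => x i

end Pool.Agent.Work.MP_24478e_mp
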