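import Pool.Agent.Work.MP_24478e_mp.Odd3

/-!
# The even part of a cosymmetry: weights
-/

namespace Pool.Agent.Work.MP_24478e_mp.KN

open Finset

variable {K : Type*} [CommRing K] [Algebra ℂ K] (J : JetAlg K)

namespace JetAlg

theorem ord_zero' : J.Ord 1 (0 : K) := ord_zero 1

theorem C_add (P γ δ : K) : J.C P (γ + δ) = J.C P γ + J.C P δ := by
  simp only [C, map_add, mul_add]; ring

theorem C_intCast_mul (P : K) (k : ℤ) (γ : K) : J.C P ((k : K) * γ) = (k : K) * J.C P γ := by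
  have h1 : J.aa P * ((k : K) * γ) = (k : K) * (J.aa P * γ) := by ring
  rw [C, C, h1, intCast_mul_eq, intCast_mul_eq, intCast_mul_eq]
  simp only [Derivation.map_smul, smul_sub]

theorem F_zero : J.F 0 = J.u 1 * J.S := by
  rw [F_eq, tau, Q]; ring

theorem aa_zero : J.aa 0 = 3 * J.S := by
  rw [aa, Q]; ring

theorem C_split (P γ : K) :
    J.C P γ = J.C 0 γ + (J.X (P * J.q) γ + J.D (J.Q P * γ)) := by
  have h1 : J.F P = J.F 0 + P * J.q := by
    rw [F, F]; ring
  have h2 : J.aa P * γ = J.aa 0 * γ - J.Q P * γ := by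
    rw [aa, aa_zero]; ring
  rw [C, C, h1, h2, X_add_left, map_sub]; ring

theorem W_F0 : J.W (J.F 0) = 3 * J.F 0 := by
  rw [F_zero, W_mul, W_S, W_p]; ring

theorem W_C0 (γ : K) : J.W (J.C 0 γ) = J.C 0 (J.W γ) + 3 * J.C 0 γ := by
  have h1 : J.X (3 * J.F 0) γ = 3 * J.X (J.F 0) γ := by
    have := X_intCast_mul_left (J := J) 3 (J.F 0) γ
    simpa using this
  rw [C, C, map_sub, map_sub, W_X, W_F0, h1, W_D, W_D, W_D, W_D, W_mul, aa_zero, W_mul,
    W_ofNat, W_S]
  simp only [map_add, D_mul, D_ofNat, map_zero]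
  ring

variable {J}

theorem Par.C0 {S T : Set ℤ} (hT : ∀ k ∈ S, k + 3 ∈ T) {γ : K} (h : J.Par S γ) :
    J.Par T (J.C 0 γ) := by
  refine Par.map (J := J) (fun f => J.C 0 f) 3 ?_ (fun f g => J.C_sub f g) ?_ ?_ hT h
  · have := J.C_sub (P := 0) 0 0
    simpa using this
  · intro k f; exact J.C_intCast_mul 0 k f
  · intro f; simp only [W_C0]; push_cast; ring

theorem par_p' {S : Set ℤ} (h : (1 : ℤ) ∈ S) : J.Par S (J.u 1) :=
  par_of_W h (by rw [W_p]; simp)

theorem par_P_q {P : K} (hP : J.Ord 1 P) : J.Par {-1} (P * J.q) := by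
  refine par_of_W (Set.mem_singleton _) ?_
  rw [W_mul, W_q, J.W_sum hP]; simp

theorem par_Q' {P : K} (hP : J.Ord 1 P) : J.Par {-2} (J.Q P) := by
  refine par_of_W (Set.mem_singleton _) ?_
  rw [Q, W_mul, W_sq, W_q, J.W_sum hP]; simp; ring

variable (J)

/-- top coefficient of a cosymmetry -/
theorem top_const {P : K} (hP : J.Ord 1 P) {N : ℕ} (hN : 3 ≤ N) {γ : K}
    (hγ : J.Ord (N + 1) γ) (hC : J.C P γ = 0) :
    ∃ c : ℂ, J.u 1 * J.pd N γ = algebraMap ℂ K c := by
  refine const_of_D_eq_zero (J := J) ?_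
  have h1 := J.T1 hP hN hγ
  rw [hC, map_zero] at h1
  have h2 : (3 : ℂ) • J.D (J.u 1 * J.pd N γ) = 0 := by
    rw [Algebra.smul_def, map_ofNat, D_p_mul]
    linear_combination J.u 1 * h1
  exact smul_eq_zero' (by norm_num) h2

theorem base_data {P : K} (hP : J.Ord 1 P) {γ : K} (hγ : J.Ord 3 γ) (hC : J.C P γ = 0) :
    γ = - J.D (J.u 1 * J.pd 2 γ) ∧ J.pd 2 (J.pd 2 γ) = 0 ∧
      2 * J.pd 2 γ + J.u 1 * J.pd 1 (J.pd 2 γ) = 0 := by
  have h1 := J.T1' hP hγ
  rw [hC, map_zero] at h1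
  set β := J.pd 2 γ with hβ
  have h2 : J.D (J.u 1 * β) + γ = 0 := by
    have : (3 : ℂ) • (J.D (J.u 1 * β) + γ) = 0 := by
      rw [Algebra.smul_def, map_ofNat, D_p_mul]
      linear_combination J.u 1 * h1 - 3 * γ * J.uq
    exact smul_eq_zero' (by norm_num) this
  have hβ3 : J.Ord 3 β := hγ.pd 2
  have hpβ : J.Ord 3 (J.u 1 * β) := (ord_u' (by omega)).mul hβ3
  have h3 : J.pd 2 β = 0 := by
    have := congrArg (J.pd 3) h2
    rw [map_add, pd_D_of_ord hpβ, hγ 3 (by omega), add_zero, pd_mul, J.pd_u, if_neg (by omega),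
      zero_mul, zero_add, map_zero] at this
    exact J.eq_zero_of_p_mul this
  refine ⟨by linear_combination h2, h3, ?_⟩
  have := congrArg (J.pd 2) h2
  have e2 : J.pd 2 (J.D (J.u 1 * β) + γ) =
      J.D (J.u 1 * J.pd 2 β) + (2 * β + J.u 1 * J.pd 1 β) := by
    rw [map_add, pd_D_succ, pd_mul, pd_mul, J.pd_u, if_neg (by omega), J.pd_u, if_pos rfl]
    rw [zero_mul, zero_add]
    ring
  rw [e2, h3, mul_zero, map_zero, zero_add, map_zero] at this
  exact this

/-- No homogeneous solution of positive weight and small order for `P = 0`. -/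
theorem C0_zero {k : ℤ} (hk : 1 ≤ k) (M : ℕ) : ∀ {f : K}, J.Par {k} f → J.C 0 f = 0 →
    J.Ord M f → (M : ℤ) ≤ k + 1 → f = 0 := by
  have base : ∀ {f : K}, J.Par {k} f → J.C 0 f = 0 → J.Ord 3 f → f = 0 := by
    intro f hf hC hf3
    obtain ⟨e1, e2, e3⟩ := J.base_data J.ord_zero' hf3 hC
    have h1 : J.pd 2 f = 0 := by
      have hp : J.Par {k - 2} (J.pd 2 f) := hf.pd 2 (by intro x hx; simp at hx ⊢; omega)
      refine hp.eig (k := -2) ?_ ?_
      · simp only [Set.mem_singleton_iff]; omega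
      · rw [J.W_sum (hf3.pd 2), Finset.sum_range_succ, Finset.sum_range_succ,
          Finset.sum_range_one, e2]
        push_cast
        linear_combination e3
    rw [e1, h1]; simp
  induction M with
  | zero => intro f hf hC h0 _; exact base hf hC (h0.mono (by omega))
  | succ M ih =>
    intro f hf hC hM hk'
    by_cases hM3 : M < 3
    · exact base hf hC (hM.mono (by omega))
    · obtain ⟨c, hc⟩ := J.top_const J.ord_zero' (by omega) hM hC
      have h1 : J.Par {k + 1 - M} (J.u 1 * J.pd M f) := by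
        refine Par.mul (S := {1}) (T := {k - M}) ?_ (par_p' (Set.mem_singleton _))
          (hf.pd M (by intro x hx; simp at hx ⊢; omega))
        intro x hx y hy
        simp at hx hy ⊢; omega
      have h2 : J.u 1 * J.pd M f = 0 := by
        refine h1.disj (T := {0}) ?_ ?_
        · intro x hx; simp at hx ⊢; push_cast at hk'; omega
        · rw [hc]; exact par_algebraMap (Set.mem_singleton _) c
      have h3 := J.eq_zero_of_p_mul h2
      exact ih hf hC (ord_of_pd hM h3) (by push_cast at hk'; omega)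

theorem top_comp {P : K} (hP : J.Ord 1 P) {N : ℕ} {γ : K} (hγ : γ ∈ J.NO (N + 1))
    (hC : J.C P γ = 0) {k : ℤ} (hk : J.Par (Set.Iic k) γ) :
    ∃ g ∈ J.NO (N + 1), ∃ h ∈ J.NO (N + 1), γ = g + h ∧ J.Par {k} g ∧ J.Par (Set.Iio k) h ∧
      J.C 0 g = 0 := by
  have hk' : J.Par ({k} ∪ Set.Iio k) γ := hk.mono (by intro x hx; simp at hx ⊢; omega)
  obtain ⟨g, gV, h, hV, pg, ph, e⟩ := hk'.split (by intro x hx; simp at hx ⊢; omega)
    (Subalgebra.toSubmodule (J.NO (N + 1))) (fun x hx => ⟨N_W hx.1, hx.2.W⟩) hγ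
  refine ⟨g, gV, h, hV, e, pg, ph, ?_⟩
  have h1 : J.Par {k + 3} (J.C 0 g) := pg.C0 (by intro x hx; simp at hx ⊢; omega)
  refine h1.disj (T := Set.Iio (k + 3)) (by intro x hx; simp at hx ⊢; omega) ?_
  have h2 : J.C 0 g = - J.C 0 h - (J.X (P * J.q) γ + J.D (J.Q P * γ)) := by
    have := J.C_split P γ
    rw [hC] at this
    have h3 : J.C 0 γ = J.C 0 g + J.C 0 h := by rw [e, C_add]
    rw [h3] at this
    linear_combination - this
  rw [h2]
  refine (Par.sub (Par.neg (ph.C0 ?_)) (Par.add ?_ ?_))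
  · intro x hx; simp at hx ⊢; omega
  · refine Par.X ?_ hk (par_P_q hP)
    intro x hx y hy; simp at hx hy ⊢; omega
  · refine Par.D (S := Set.Iic k) ?_ ?_
    · intro x hx; simp at hx ⊢; omega
    · refine Par.mul ?_ (par_Q' hP) hk
      intro x hx y hy; simp at hx hy ⊢; omega

theorem par_top {N : ℕ} {S T : Set ℤ} {g : K} (hg : J.Par S g)
    (hT : ∀ x ∈ S, x + 1 - N ∈ T) : J.Par T (J.u 1 * J.pd N g) := by
  refine Par.mul (S := {1}) (T := {x | x + N ∈ S}) ?_ (par_p' (Set.mem_singleton _))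
    (hg.pd N (by intro x hx; simpa using hx))
  intro x hx y hy
  have := hT _ hy
  simp at hx
  subst hx
  convert this using 1
  ring

/-- reduction to the soliton statement -/
theorem weight_le {P : K} (hP : J.Ord 1 P) {N : ℕ} (hN : 3 ≤ N) {γ : K} (hγ : γ ∈ J.NO (N + 1))
    (hC : J.C P γ = 0) : J.Par (Set.Iic ((N : ℤ) - 1)) γ := by
  obtain ⟨c, hc⟩ := J.top_const hP hN hγ.2 hC
  have key : ∀ d : ℕ, J.Par (Set.Iic ((N : ℤ) - 1 + d)) γ → J.Par (Set.Iic ((N : ℤ) - 1)) γ := by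
    intro d
    induction d with
    | zero => intro h; simpa using h
    | succ d ih =>
      intro h
      refine ih ?_
      obtain ⟨g, gV, h', hV, e, pg, ph, hg⟩ := J.top_comp hP hγ hC h
      have h1 : J.Par {(d : ℤ) + 1} (J.u 1 * J.pd N g) := by
        refine J.par_top pg ?_
        intro x hx; simp at hx ⊢; omega
      have h2 : J.Par (Set.Iio ((d : ℤ) + 1)) (J.u 1 * J.pd N g) := by
        have e2 : J.u 1 * J.pd N g = algebraMap ℂ K c - J.u 1 * J.pd N h' := by
          rw [← hc, e, map_add]; ring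
        rw [e2]
        refine (par_algebraMap ?_ c).sub (J.par_top ph ?_)
        · simp
          try omega
        · intro x hx; simp at hx ⊢; omega
      have h3 := h1.disj (by intro x hx; simp at hx ⊢; omega) h2
      have h4 : g = 0 := by
        refine J.C0_zero (k := (N : ℤ) - 1 + (d + 1 : ℕ)) (by push_cast; omega) N pg hg
          (ord_of_pd gV.2 (J.eq_zero_of_p_mul h3)) (by push_cast; omega)
      rw [e, h4, zero_add]
      exact ph.mono (by intro x hx; simp at hx ⊢; omega)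
  obtain ⟨n, hn⟩ := hγ.1.1.bounded
  refine key (n + 1) (hn.mono ?_)
  intro x hx
  simp at hx ⊢; omega

end JetAlg

end Pool.Agent.Work.MP_24478e_mp.KN
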