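import Mathlib

/-!
# A soliton computation for the KdV hierarchy
-/

namespace Pool.Agent.Work.MP_24478e_mp.KN.Sol

open MvPolynomial

noncomputable section

/-- differential polynomials in one dependent variable -/
abbrev A := MvPolynomial ℕ ℂ

/-- total derivative -/
def dT : Derivation ℂ A A := mkDerivation ℂ fun i => X (i + 1)

/-- right-hand side of `S_t = S_xxx + 3 S S_x` -/
def kdv : A := X 3 + 3 * X 0 * X 1

/-- time derivative -/
def dt : Derivation ℂ A A := mkDerivation ℂ fun i => dT^[i] kdv

/-- weight operator -/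
def wt : Derivation ℂ A A := mkDerivation ℂ fun i => ((i : ℂ) + 2) • X i

/-- weight of a monomial -/
def w (m : ℕ →₀ ℕ) : ℕ := Finsupp.linearCombination ℕ (fun i => i + 2) m

theorem w_add (a b : ℕ →₀ ℕ) : w (a + b) = w a + w b := map_add _ _ _

theorem w_single (i k : ℕ) : w (Finsupp.single i k) = k * (i + 2) := by
  simp [w]

theorem wt_monomial (m : ℕ →₀ ℕ) : ∀ a : ℂ, wt (monomial m a) = (w m : ℂ) • monomial m a := by
  induction m using Finsupp.induction_linear with
  | zero =>
    intro a
    change wt (C a) = _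
    simp [wt, w]
  | add f g hf hg =>
    intro a
    have : (monomial (f + g) a : A) = monomial f a * monomial g 1 := by
      rw [monomial_mul, mul_one]
    rw [this, Derivation.leibniz, hf, hg, w_add, smul_eq_mul, smul_eq_mul, Algebra.smul_def,
      Algebra.smul_def, Algebra.smul_def]
    push_cast
    ring
  | single i k =>
    intro a
    have : (monomial (Finsupp.single i k) a : A) = C a * X i ^ k := by
      rw [C_mul_X_pow_eq_monomial]
    rw [this, Derivation.leibniz, Derivation.leibniz_pow, w_single]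
    have h1 : wt (C a) = 0 := by
      rw [← algebraMap_eq]; exact Derivation.map_algebraMap _ _
    have h2 : wt (X i : A) = ((i : ℂ) + 2) • X i := by rw [wt, mkDerivation_X]
    rw [h1, h2]
    rcases k with - | k
    · simp
    · simp only [smul_eq_mul, Algebra.smul_def, add_tsub_cancel_right]
      push_cast
      simp only [map_add, map_mul, map_natCast, map_ofNat]
      simp
      ring

theorem coeff_wt (m : ℕ →₀ ℕ) (F : A) : coeff m (wt F) = (w m : ℂ) * coeff m F := by
  induction F using MvPolynomial.induction_on' with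
  | monomial m' a =>
    rw [wt_monomial, coeff_smul, coeff_monomial, smul_eq_mul]
    split_ifs with h
    · rw [h]
    · simp
  | add p q hp hq => rw [map_add, coeff_add, coeff_add, hp, hq, mul_add]

/-- if `F` is isobaric of weight `n`, all its monomials have weight `n` -/
theorem w_of_mem {n : ℕ} {F : A} (hF : wt F = (n : ℂ) • F) {m : ℕ →₀ ℕ} (hm : coeff m F ≠ 0) :
    w m = n := by
  have h1 := coeff_wt m F
  rw [hF, coeff_smul, smul_eq_mul] at h1
  have := mul_right_cancel₀ hm h1
  exact_mod_cast this.symm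

/-! ### the soliton -/

open Polynomial (derivative)

/-- the derivation `½ (1 - w²) d/dw` -/
def Δ : Derivation ℂ (Polynomial ℂ) (Polynomial ℂ) :=
  Polynomial.mkDerivation ℂ (Polynomial.C (1 / 2) * (1 - Polynomial.X ^ 2))

/-- `sech²` -/
def s : Polynomial ℂ := 1 - Polynomial.X ^ 2

theorem Δ_X : Δ Polynomial.X = Polynomial.C (1 / 2) * s := by
  rw [Δ, Polynomial.mkDerivation_X, s]

theorem Δ_eq (p : Polynomial ℂ) : Δ p = derivative p * (Polynomial.C (1 / 2) * s) := by
  rw [Δ, Polynomial.mkDerivation_apply, smul_eq_mul, s]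

theorem half_two : (2 : Polynomial ℂ) * Polynomial.C (1 / 2) = 1 := by
  rw [show (2 : Polynomial ℂ) = Polynomial.C 2 by rfl, ← Polynomial.C_mul]
  norm_num

theorem Δ_s : Δ s = - (Polynomial.X * s) := by
  rw [Δ_eq]
  have : derivative s = - (2 * Polynomial.X) := by
    rw [s]; simp
    norm_num
  rw [this]
  linear_combination (- Polynomial.X * s) * half_two

theorem Δ_Δ_s : Δ (Δ s) = s - Polynomial.C (3 / 2) * s ^ 2 := by
  rw [Δ_s, map_neg, Derivation.leibniz, Δ_X, Δ_s]
  simp only [smul_eq_mul]
  have h1 : Polynomial.C (3 / 2 : ℂ) = 3 * Polynomial.C (1 / 2) := by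
    rw [show (3 : Polynomial ℂ) = Polynomial.C 3 by rfl, ← Polynomial.C_mul]
    norm_num
  rw [h1]
  have hX : (Polynomial.X : Polynomial ℂ) ^ 2 = 1 - s := by rw [s]; ring
  linear_combination s * hX + s ^ 2 * half_two

theorem Δ3_s : Δ (Δ (Δ s)) + 3 * s * Δ s = Δ s := by
  rw [Δ_Δ_s, map_sub, Derivation.leibniz, Derivation.leibniz_pow]
  have h0 : Δ (Polynomial.C (3 / 2)) = 0 := Derivation.map_algebraMap _ _
  rw [h0]
  simp only [smul_eq_mul, smul_zero, add_zero, nsmul_eq_mul]
  have h1 : Polynomial.C (3 / 2 : ℂ) * 2 = 3 := by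
    rw [show (2 : Polynomial ℂ) = Polynomial.C 2 by rfl, ← Polynomial.C_mul]
    rw [show (3 : Polynomial ℂ) = Polynomial.C 3 by rfl]
    norm_num
  push_cast
  linear_combination (- s * Δ s) * h1

/-- evaluation of differential polynomials on the soliton -/
def ψ : A →ₐ[ℂ] Polynomial ℂ := aeval fun i => Δ^[i] s

theorem ψ_X (i : ℕ) : ψ (X i) = Δ^[i] s := by rw [ψ, aeval_X]

theorem ψ_dT (F : A) : ψ (dT F) = Δ (ψ F) := by
  induction F using MvPolynomial.induction_on with
  | C a =>
    rw [← algebraMap_eq, Derivation.map_algebraMap, map_zero, AlgHom.commutes,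
      Derivation.map_algebraMap]
  | add p q hp hq => rw [map_add, map_add, hp, hq, map_add, map_add]
  | mul_X p i hp =>
    rw [Derivation.leibniz, map_add, map_mul, Derivation.leibniz, smul_eq_mul, smul_eq_mul,
      smul_eq_mul, smul_eq_mul, map_mul, map_mul, hp, dT, mkDerivation_X, ψ_X, ψ_X,
      Function.iterate_succ_apply']

theorem ψ_dT_iter (F : A) (i : ℕ) : ψ (dT^[i] F) = Δ^[i] (ψ F) := by
  induction i with
  | zero => rfl
  | succ i ih => rw [Function.iterate_succ_apply', ψ_dT, ih, Function.iterate_succ_apply']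

theorem ψ_kdv : ψ kdv = Δ s := by
  rw [kdv, map_add, map_mul, map_mul, ψ_X, ψ_X, ψ_X, map_ofNat]
  exact Δ3_s

theorem ψ_dt (F : A) : ψ (dt F) = Δ (ψ F) := by
  induction F using MvPolynomial.induction_on with
  | C a =>
    rw [← algebraMap_eq, Derivation.map_algebraMap, map_zero, AlgHom.commutes,
      Derivation.map_algebraMap]
  | add p q hp hq => rw [map_add, map_add, hp, hq, map_add, map_add]
  | mul_X p i hp =>
    rw [Derivation.leibniz, map_add, map_mul, Derivation.leibniz, smul_eq_mul, smul_eq_mul,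
      smul_eq_mul, smul_eq_mul, map_mul, map_mul, hp, dt, mkDerivation_X, ψ_dT_iter, ψ_X, ψ_kdv,
      ← Function.iterate_succ_apply, Function.iterate_succ_apply']

/-! ### parity in `w` -/

/-- `w ↦ -w` -/
def σ : Polynomial ℂ →ₐ[ℂ] Polynomial ℂ := Polynomial.aeval (-Polynomial.X)

theorem σ_coeff (p : Polynomial ℂ) (k : ℕ) : (σ p).coeff k = (-1) ^ k * p.coeff k := by
  induction p using Polynomial.induction_on' with
  | add p q hp hq => rw [map_add, Polynomial.coeff_add, hp, hq, Polynomial.coeff_add, mul_add]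
  | monomial n a =>
    rw [σ, ← Polynomial.C_mul_X_pow_eq_monomial, map_mul, map_pow, Polynomial.aeval_X,
      Polynomial.aeval_C, Polynomial.algebraMap_eq, neg_pow, ← Polynomial.C_1, ← Polynomial.C_neg,
      ← Polynomial.C_pow, Polynomial.coeff_C_mul, Polynomial.coeff_C_mul, Polynomial.coeff_C_mul,
      Polynomial.coeff_X_pow]
    split_ifs with h
    · rw [h]; ring
    · ring

theorem σ_s : σ s = s := by
  rw [σ, s, map_sub, map_pow, Polynomial.aeval_X, map_one]; ring

theorem σ_Δ (p : Polynomial ℂ) : σ (Δ p) = - Δ (σ p) := by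
  induction p using Polynomial.induction_on with
  | C a =>
    have h1 : Δ (Polynomial.C a) = 0 := Derivation.map_algebraMap _ _
    have h2 : σ (Polynomial.C a) = Polynomial.C a := by rw [σ, Polynomial.aeval_C]; rfl
    rw [h2, h1]; simp
  | add p q hp hq => simp only [map_add, hp, hq, neg_add]
  | monomial n a h =>
    rw [pow_succ, ← mul_assoc]
    generalize Polynomial.C a * Polynomial.X ^ n = p at h ⊢
    rw [Derivation.leibniz, map_add, smul_eq_mul, smul_eq_mul, map_mul,
      map_mul, h, map_mul, Derivation.leibniz, smul_eq_mul, smul_eq_mul, Δ_X]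
    have h1 : σ Polynomial.X = - Polynomial.X := by rw [σ, Polynomial.aeval_X]
    have h2 : σ (Polynomial.C (1 / 2) * s) = Polynomial.C (1 / 2) * s := by
      rw [map_mul, σ_s]
      congr 1
      rw [σ, Polynomial.aeval_C]; rfl
    rw [h1, h2, map_neg, Δ_X]
    ring

theorem σ_Δ_iter (i : ℕ) : σ (Δ^[i] s) = (-1) ^ i * Δ^[i] s := by
  induction i with
  | zero => simp [σ_s]
  | succ i ih =>
    rw [Function.iterate_succ_apply', σ_Δ, ih, Derivation.leibniz]
    have : Δ ((-1 : Polynomial ℂ) ^ i) = 0 := by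
      have : ((-1 : Polynomial ℂ) ^ i) = algebraMap ℂ _ ((-1) ^ i) := by simp
      rw [this, Derivation.map_algebraMap]
    rw [this]
    simp only [smul_eq_mul, mul_zero, add_zero]
    ring

theorem σ_ψ_monomial (m : ℕ →₀ ℕ) : ∀ a : ℂ,
    σ (ψ (monomial m a)) = (-1) ^ (w m) * ψ (monomial m a) := by
  induction m using Finsupp.induction_linear with
  | zero =>
    intro a
    have h1 : ψ (monomial 0 a) = Polynomial.C a := by
      change ψ (C a) = _
      rw [← algebraMap_eq, AlgHom.commutes]; rfl
    have h2 : σ (Polynomial.C a) = Polynomial.C a := by rw [σ, Polynomial.aeval_C]; rfl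
    rw [h1, h2]; simp [w]
  | add f g hf hg =>
    intro a
    have : (monomial (f + g) a : A) = monomial f a * monomial g 1 := by
      rw [monomial_mul, mul_one]
    rw [this, map_mul, map_mul, hf, hg, w_add]
    ring
  | single i k =>
    intro a
    have : (monomial (Finsupp.single i k) a : A) = C a * X i ^ k := by
      rw [C_mul_X_pow_eq_monomial]
    have h1 : ψ (C a) = Polynomial.C a := by
      rw [← algebraMap_eq, AlgHom.commutes]; rfl
    have h2 : σ (Polynomial.C a) = Polynomial.C a := by rw [σ, Polynomial.aeval_C]; rfl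
    rw [this, map_mul, map_mul, map_pow, map_pow, h1, h2, ψ_X, σ_Δ_iter, w_single]
    have : ((-1 : Polynomial ℂ)) ^ (k * (i + 2)) = ((-1) ^ i) ^ k := by
      rw [← pow_mul, mul_add, pow_add, mul_comm k i, mul_comm k 2, pow_mul _ 2 k]
      simp
    rw [this, mul_pow]; ring

theorem σ_ψ {n : ℕ} (hn : Even n) {F : A} (hF : wt F = (n : ℂ) • F) : σ (ψ F) = ψ F := by
  have h1 : F = ∑ m ∈ F.support, monomial m (coeff m F) := F.as_sum
  rw [h1, map_sum, map_sum]
  refine Finset.sum_congr rfl fun m hm => ?_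
  rw [σ_ψ_monomial, w_of_mem hF (mem_support_iff.mp hm), hn.neg_one_pow, one_mul]

/-! ### leading coefficient -/

theorem Δ_coeff (f : Polynomial ℂ) (k : ℕ) :
    (Δ f).coeff (k + 1) = 1 / 2 * (((k : ℂ) + 2) * f.coeff (k + 2) - k * f.coeff k) := by
  have h1 : Δ f = Polynomial.C (1 / 2) * (derivative f - derivative f * Polynomial.X ^ 2) := by
    rw [Δ_eq, s]; ring
  rw [h1, Polynomial.coeff_C_mul, Polynomial.coeff_sub, Polynomial.coeff_derivative]
  rcases k with - | k
  · rw [Polynomial.coeff_mul_X_pow']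
    simp
    ring
  · rw [show k + 1 + 1 = k + 2 by ring, Polynomial.coeff_mul_X_pow, Polynomial.coeff_derivative]
    push_cast
    ring

theorem eq_zero_of_even {f : Polynomial ℂ} (hf : Δ f - Δ (Δ (Δ f)) - 3 * Δ (s * f) = 0)
    (he : σ f = f) : f = 0 := by
  by_contra hf0
  have h1 : Δ (f - Δ (Δ f) - 3 * (s * f)) = 0 := by
    rw [map_sub, map_sub, Derivation.leibniz _ (3 : Polynomial ℂ)]
    have : Δ (3 : Polynomial ℂ) = 0 := Derivation.map_natCast Δ 3
    rw [this]
    simpa using hf
  set g := f - Δ (Δ f) - 3 * (s * f) with hg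
  have h2 : derivative g = 0 := by
    rw [Δ_eq] at h1
    rcases mul_eq_zero.mp h1 with h | h
    · exact h
    · exfalso
      have := congrArg (fun p => Polynomial.coeff p 0) h
      simp [s] at this
  set k := f.natDegree with hk
  have hk0 : f.coeff k ≠ 0 := by
    rw [hk, Polynomial.coeff_natDegree]
    exact Polynomial.leadingCoeff_ne_zero.mpr hf0
  have hbig : ∀ j, k < j → f.coeff j = 0 := fun j hj => Polynomial.coeff_eq_zero_of_natDegree_lt hj
  have h3 : g.coeff (k + 2) = 0 := by
    have := congrArg (fun p => Polynomial.coeff p (k + 1)) h2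
    simp only [Polynomial.coeff_derivative, Polynomial.coeff_zero] at this
    rcases mul_eq_zero.mp this with h | h
    · exact h
    · exfalso
      have h' : ((k + 1 + 1 : ℕ) : ℂ) = 0 := by push_cast; push_cast at h; linear_combination h
      exact absurd h' (by exact_mod_cast (by omega : k + 1 + 1 ≠ 0))
  have h4 : (Δ (Δ f)).coeff (k + 2) = 1 / 4 * (k * (k + 1)) * f.coeff k := by
    rw [Δ_coeff, Δ_coeff, Δ_coeff, hbig (k + 2 + 2) (by omega), hbig (k + 2) (by omega)]
    push_cast
    ring
  have h5 : (3 * (s * f)).coeff (k + 2) = - 3 * f.coeff k := by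
    have : 3 * (s * f) = Polynomial.C 3 * (f - f * Polynomial.X ^ 2) := by
      rw [s, show (Polynomial.C 3 : Polynomial ℂ) = 3 by rfl]; ring
    rw [this, Polynomial.coeff_C_mul, Polynomial.coeff_sub, Polynomial.coeff_mul_X_pow,
      hbig (k + 2) (by omega)]
    ring
  rw [hg, Polynomial.coeff_sub, Polynomial.coeff_sub, h4, h5, hbig (k + 2) (by omega)] at h3
  have h6 : ((k : ℂ) * (k + 1) - 12) * f.coeff k = 0 := by linear_combination (-4) * h3
  rcases mul_eq_zero.mp h6 with h | h
  · have h7 : k * (k + 1) = 12 := by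
      have : ((k * (k + 1) : ℕ) : ℂ) = (12 : ℕ) := by push_cast; linear_combination h
      exact_mod_cast this
    have h8 : k = 3 := by
      have : k ≤ 3 := by nlinarith
      clear_value k
      clear * - h7 this
      interval_cases k <;> omega
    have h9 := congrArg (fun p => Polynomial.coeff p k) he
    simp only [σ_coeff] at h9
    rw [h8] at h9 hk0
    apply hk0
    linear_combination (-1 / 2) * h9
  · exact hk0 h

/-! ### derivative at `w = 1` -/

theorem Δ_s_eval (i : ℕ) : (Δ^[i] s).eval 1 = 0 ∧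
    (derivative (Δ^[i] s)).eval 1 = (-1) ^ i * (-2) := by
  induction i with
  | zero =>
    simp [s]
    norm_num
  | succ i ih =>
    rw [Function.iterate_succ_apply', Δ_eq]
    refine ⟨by simp [s], ?_⟩
    rw [Polynomial.derivative_mul, Polynomial.eval_add, Polynomial.eval_mul,
      Polynomial.eval_mul (p := derivative _), ih.2]
    simp [s]
    ring

theorem exists_of_ne_zero {m : ℕ →₀ ℕ} (hm : m ≠ 0) :
    ∃ i m', m = m' + Finsupp.single i 1 := by
  obtain ⟨i, hi⟩ := Finsupp.ne_iff.mp hm
  refine ⟨i, m - Finsupp.single i 1, ?_⟩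
  rw [tsub_add_cancel_of_le]
  rw [Finsupp.single_le_iff]
  simp at hi
  omega

theorem ψ_monomial_eval {m : ℕ →₀ ℕ} (hm : m ≠ 0) (a : ℂ) :
    (ψ (monomial m a)).eval 1 = 0 := by
  obtain ⟨i, m', rfl⟩ := exists_of_ne_zero hm
  have : (monomial (m' + Finsupp.single i 1) a : A) = monomial m' a * X i := by
    rw [X, monomial_mul, mul_one]
  rw [this, map_mul, Polynomial.eval_mul, ψ_X, (Δ_s_eval i).1, mul_zero]

theorem ψ_monomial_deriv {m : ℕ →₀ ℕ} (hm : m ≠ 0) (a : ℂ)
    (h : ∀ i, m ≠ Finsupp.single i 1) : (derivative (ψ (monomial m a))).eval 1 = 0 := by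
  obtain ⟨i, m', rfl⟩ := exists_of_ne_zero hm
  have : (monomial (m' + Finsupp.single i 1) a : A) = monomial m' a * X i := by
    rw [X, monomial_mul, mul_one]
  rw [this, map_mul, Polynomial.derivative_mul, Polynomial.eval_add, Polynomial.eval_mul,
    Polynomial.eval_mul, ψ_X, (Δ_s_eval i).1, mul_zero, zero_add, ψ_monomial_eval, zero_mul]
  rintro rfl
  exact h i (zero_add _)

/-- **Main statement of the file.** -/
theorem main {n : ℕ} (hn : Even n) (hn0 : 2 ≤ n) {F : A} (hF : wt F = (n : ℂ) • F)
    (hC : dt F - dT (dT (dT F)) - 3 * dT (X 0 * F) = 0) :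
    coeff (Finsupp.single (n - 2) 1) F = 0 := by
  have h1 := congrArg ψ hC
  rw [map_sub, map_sub, ψ_dt, ψ_dT, ψ_dT, ψ_dT, map_mul, ψ_dT, map_mul, ψ_X, map_ofNat,
    map_zero, Function.iterate_zero_apply] at h1
  have h2 := eq_zero_of_even h1 (σ_ψ hn hF)
  have h3 : (derivative (ψ F)).eval 1 =
      coeff (Finsupp.single (n - 2) 1) F * ((-1) ^ (n - 2) * (-2)) := by
    have e1 : ψ F = ∑ m ∈ F.support, ψ (monomial m (coeff m F)) := by
      conv_lhs => rw [F.as_sum]
      rw [map_sum]
    rw [e1, Polynomial.derivative_sum, Polynomial.eval_finsetSum,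
      Finset.sum_eq_single (Finsupp.single (n - 2) 1)]
    · have : (monomial (Finsupp.single (n - 2) 1) (coeff (Finsupp.single (n - 2) 1) F) : A) =
          coeff (Finsupp.single (n - 2) 1) F • X (n - 2) := by
        rw [X, smul_monomial, smul_eq_mul, mul_one]
      rw [this, map_smul, Polynomial.derivative_smul, Polynomial.eval_smul, ψ_X,
        (Δ_s_eval _).2, smul_eq_mul]
    · intro m hm hne
      have hw := w_of_mem hF (mem_support_iff.mp hm)
      refine ψ_monomial_deriv ?_ _ ?_
      · rintro rfl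
        simp [w] at hw
        omega
      · rintro i rfl
        rw [w_single] at hw
        exact hne (by congr 1; omega)
    · intro hm
      rw [notMem_support_iff.mp hm]
      simp
  rw [h2] at h3
  simp only [map_zero, Polynomial.eval_zero] at h3
  have h4 : ((-1 : ℂ) ^ (n - 2) * (-2)) ≠ 0 := by
    refine mul_ne_zero (pow_ne_zero _ (by norm_num)) (by norm_num)
  exact (mul_eq_zero.mp h3.symm).resolve_right h4

end

end Pool.Agent.Work.MP_24478e_mp.KN.Sol
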