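import Pool.Agent.Work.MP_24478e_mp.EvenA
import Pool.Agent.Work.MP_24478e_mp.Sol

/-!
# The even part of a cosymmetry: Möbius invariance and reduction to differential polynomials
-/

namespace Pool.Agent.Work.MP_24478e_mp.KN

open Finset

variable {K : Type*} [CommRing K] [Algebra ℂ K] (J : JetAlg K)

namespace JetAlg

/-- infinitesimal Möbius transformations -/
def Mob (h : K) : Prop := J.Ord 1 h ∧ J.pd 0 (J.pd 0 (J.pd 0 h)) = 0

variable {J}

theorem Mob.XS {h : K} (hh : J.Mob h) : J.X h J.S = 0 := by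
  have e1 : J.q * J.D h = J.pd 0 h := by
    rw [J.D_P hh.1]
    linear_combination (J.pd 0 h) * J.uq
  rw [X_S, e1, J.D_P (hh.1.pd 0), D_mul, J.D_P ((hh.1.pd 0).pd 0), hh.2, D_u, y_zero]
  linear_combination (-(J.pd 0 (J.pd 0 h) * J.u 2)) * J.uq

theorem Mob.par {h : K} (hh : J.Mob h) : J.Par {0} h :=
  par_of_W (Set.mem_singleton _) (by rw [J.W_sum hh.1]; simp)

theorem Mob.XF {h : K} (hh : J.Mob h) : J.X h (J.F 0) = J.X (J.F 0) h := by
  rw [J.X_P hh.1, F_zero, X_mul, hh.XS, X_u, Function.iterate_one, J.D_P hh.1]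
  ring

theorem Mob.C0 {h : K} (hh : J.Mob h) (f : K) : J.C 0 (J.X h f) = J.X h (J.C 0 f) := by
  have h1 := J.X_comm h (J.F 0) f
  rw [hh.XF, sub_self, X_zero_left] at h1
  rw [C, C, map_sub, map_sub, X_D, X_D, X_D, X_D, X_mul, aa_zero, X_mul, hh.XS, X_ofNat]
  have h2 : (0 * J.S + 3 * 0) * f + 3 * J.S * J.X h f = 3 * J.S * J.X h f := by ring
  rw [h2]
  linear_combination - h1

/-- the top coefficient of `X_h f` -/
theorem Mob.top {h : K} (hh : J.Ord 1 h) {N : ℕ} {f : K} (hf : J.Ord (N + 1) f) :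
    J.u 1 * J.pd N (J.X h f) = J.X h (J.u 1 * J.pd N f) := by
  rw [J.pd_X _ _ _ hf, Finset.sum_range_succ, Finset.sum_eq_zero, X_mul, X_u,
    Function.iterate_one, J.D_P hh]
  · have := pd_D_iter_of_ord (J := J) (n := 0) hh N
    rw [zero_add] at this
    rw [this]; ring
  · intro i hi
    rw [Finset.mem_range] at hi
    rw [(hh.D_iter i) N (by omega), zero_mul]

theorem Mob.ord {h : K} (hh : J.Ord 1 h) {N : ℕ} {f : K} (hf : J.Ord (N + 1) f) :
    J.Ord (N + 1) (J.X h f) := by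
  rw [J.X_sum _ hf]
  refine Ord.sum _ _ fun i hi => ?_
  rw [Finset.mem_range] at hi
  exact ((hh.D_iter i).mono (by omega)).mul (hf.pd i)

theorem mob_one : J.Mob (1 : K) := ⟨ord_one _, by simp⟩

theorem mob_u : J.Mob (J.u 0) := ⟨ord_u 0, by simp [J.pd_u]⟩

theorem mob_sq : J.Mob (J.u 0 ^ 2) := ⟨(ord_u 0).pow 2, by
  rw [pd_sq, J.pd_u, if_pos rfl, mul_one, pd_mul, J.pd_u, pd_ofNat]; simp [pd_ofNat]⟩

variable (J)

/-- Möbius-invariant functions -/
def Inv : Subalgebra ℂ K where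
  carrier := {f | ∀ h, J.Mob h → J.X h f = 0}
  mul_mem' := fun ha hb h hh => by rw [X_mul, ha h hh, hb h hh]; ring
  add_mem' := fun ha hb h hh => by rw [map_add, ha h hh, hb h hh, add_zero]
  algebraMap_mem' := fun c h _ => by rw [Derivation.map_algebraMap]

variable {J}

theorem Inv_S : J.S ∈ J.Inv := fun _ hh => hh.XS

theorem Inv_D_iter {f : K} (hf : f ∈ J.Inv) (i : ℕ) : J.D^[i] f ∈ J.Inv := fun h hh => by
  rw [X_D_iter, hf h hh, D_iter_zero]

theorem N_S : J.S ∈ J.N := by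
  rw [S_eq]
  exact J.N.sub_mem (J.N.mul_mem (N_u _) N_q) (J.N.mul_mem (J.N.mul_mem (J.N.mul_mem
    (ofNat_mem _ 3) (J.N.algebraMap_mem _)) (J.N.pow_mem N_q 2)) (J.N.pow_mem (N_u _) 2))

/-- the top solution is Möbius invariant -/
theorem top_inv {N : ℕ} (hN : 3 ≤ N) {f : K} (hf : f ∈ J.NO (N + 1))
    (hp : J.Par {(N : ℤ) - 1} f) (hC : J.C 0 f = 0) : f ∈ J.Inv := by
  intro h hh
  obtain ⟨c, hc⟩ := J.top_const J.ord_zero' hN hf.2 hC
  refine J.C0_zero (k := (N : ℤ) - 1) (by omega) N ?_ ?_ ?_ (by omega)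
  · refine Par.X ?_ hp hh.par
    intro x hx y hy; simp at hx hy ⊢; omega
  · rw [hh.C0, hC, map_zero]
  · refine ord_of_pd (Mob.ord hh.1 hf.2) (J.eq_zero_of_p_mul ?_)
    rw [Mob.top hh.1 hf.2, hc, Derivation.map_algebraMap]

theorem top_W {N : ℕ} (hN : 3 ≤ N) {f : K} (hf : f ∈ J.NO (N + 1))
    (hp : J.Par {(N : ℤ) - 1} f) (hC : J.C 0 f = 0) : J.W f = ((N : ℤ) - 1 : ℤ) * f := by
  obtain ⟨c, hc⟩ := J.top_const J.ord_zero' hN hf.2 hC
  rw [← sub_eq_zero]
  refine J.C0_zero (k := (N : ℤ) - 1) (by omega) N (hp.W_sub _) ?_ ?_ (by omega)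
  · rw [C_sub, C_intCast_mul, hC, mul_zero, sub_zero]
    have := J.W_C0 f
    rw [hC, map_zero] at this
    linear_combination - this
  · refine ord_of_pd ?_ (J.eq_zero_of_p_mul ?_)
    · rw [intCast_mul_eq]
      exact hf.2.W.sub (hf.2.smul _)
    · rw [intCast_mul_eq, map_sub, Derivation.map_smul, ← intCast_mul_eq, pd_W]
      have h1 : J.W (J.u 1 * J.pd N f) = 0 := by rw [hc, Derivation.map_algebraMap]
      rw [W_mul, W_p] at h1
      push_cast
      linear_combination h1

variable (J)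

/-- the embedding of differential polynomials in the Schwarzian -/
noncomputable def Φ : Sol.A →ₐ[ℂ] K := MvPolynomial.aeval fun i => J.D^[i] J.S

theorem Φ_X (i : ℕ) : J.Φ (MvPolynomial.X i) = J.D^[i] J.S := by
  rw [Φ, MvPolynomial.aeval_X]

theorem Φ_D (F : Sol.A) : J.Φ (Sol.dT F) = J.D (J.Φ F) := by
  induction F using MvPolynomial.induction_on with
  | C a =>
    rw [← MvPolynomial.algebraMap_eq, Derivation.map_algebraMap, map_zero, AlgHom.commutes,
      Derivation.map_algebraMap]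
  | add p q hp hq => rw [map_add, map_add, hp, hq, map_add, map_add]
  | mul_X p i hp =>
    rw [Derivation.leibniz, map_add, map_mul, Derivation.leibniz, smul_eq_mul, smul_eq_mul,
      smul_eq_mul, smul_eq_mul, map_mul, map_mul, hp, Sol.dT, MvPolynomial.mkDerivation_X, Φ_X,
      Φ_X, Function.iterate_succ_apply']

theorem Φ_D_iter (F : Sol.A) (i : ℕ) : J.Φ (Sol.dT^[i] F) = J.D^[i] (J.Φ F) := by
  induction i with
  | zero => rfl
  | succ i ih => rw [Function.iterate_succ_apply', Φ_D, ih, Function.iterate_succ_apply']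

theorem XF0_S : J.X (J.F 0) J.S = J.D (J.D (J.D J.S)) + 3 * J.S * J.D J.S := by
  rw [X_S, q_D_F, Th_eq J J.ord_zero', S, Q, R]
  simp only [map_add, map_sub, D_mul, D_y, D_hf, D_sq, D_cube, D_ofNat, zero_mul, mul_zero,
    map_zero, sub_zero, add_zero, zero_add]
  linear_combination (J.y 0 * J.y (2 + 1) + 3 * J.y 1 * J.y (1 + 1) -
    3 * hf K * J.y 0 ^ 3 * J.y 1) * two_hf (K := K)

theorem Φ_kdv : J.Φ Sol.kdv = J.X (J.F 0) J.S := by
  rw [Sol.kdv, map_add, map_mul, map_mul, Φ_X, Φ_X, Φ_X, map_ofNat, XF0_S]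
  rfl

theorem Φ_dt (F : Sol.A) : J.Φ (Sol.dt F) = J.X (J.F 0) (J.Φ F) := by
  induction F using MvPolynomial.induction_on with
  | C a =>
    rw [← MvPolynomial.algebraMap_eq, Derivation.map_algebraMap, map_zero, AlgHom.commutes,
      Derivation.map_algebraMap]
  | add p q hp hq => rw [map_add, map_add, hp, hq, map_add, map_add]
  | mul_X p i hp =>
    rw [Derivation.leibniz, map_add, map_mul, Derivation.leibniz, smul_eq_mul, smul_eq_mul,
      smul_eq_mul, smul_eq_mul, map_mul, map_mul, hp, Sol.dt, MvPolynomial.mkDerivation_X, Φ_X,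
      Φ_D_iter, Φ_kdv, X_D_iter]

theorem Φ_wt (F : Sol.A) : J.Φ (Sol.wt F) = J.W (J.Φ F) := by
  induction F using MvPolynomial.induction_on with
  | C a =>
    rw [← MvPolynomial.algebraMap_eq, Derivation.map_algebraMap, map_zero, AlgHom.commutes,
      Derivation.map_algebraMap]
  | add p q hp hq => rw [map_add, map_add, hp, hq, map_add, map_add]
  | mul_X p i hp =>
    have h2 : J.D^[i] (2 * J.S) = 2 * J.D^[i] J.S := by
      have : ∀ x : K, 2 * x = (2 : ℂ) • x := fun x => by rw [Algebra.smul_def, map_ofNat]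
      rw [this, this, D_iter_smul]
    rw [Derivation.leibniz, map_add, map_mul, Derivation.leibniz, smul_eq_mul, smul_eq_mul,
      smul_eq_mul, smul_eq_mul, map_mul, map_mul, hp, Sol.wt, MvPolynomial.mkDerivation_X,
      map_smul, Φ_X, W_D_iter, W_S, h2, Algebra.smul_def, map_add, map_natCast, map_ofNat]
    ring

/-- polynomials in the first `M` variables -/
noncomputable abbrev sup (M : ℕ) : Subalgebra ℂ Sol.A := MvPolynomial.supported ℂ (Set.Iio M)

theorem Φ_pderiv {M : ℕ} {F : Sol.A} (hF : F ∈ sup (M + 1)) :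
    J.u 1 * J.pd (M + 3) (J.Φ F) = J.Φ (MvPolynomial.pderiv M F) := by
  rw [sup, MvPolynomial.supported] at hF
  induction hF using Algebra.adjoin_induction with
  | mem x hx =>
    obtain ⟨i, hi, rfl⟩ := hx
    rw [Φ_X, MvPolynomial.pderiv_X]
    rw [Set.mem_Iio] at hi
    by_cases h : i = M
    · subst h
      rw [Pi.single_eq_same, map_one, add_comm, pd_D_iter_of_ord J.ord_S, pd3_S, J.uq]
    · rw [Pi.single_eq_of_ne (by omega), map_zero, (J.ord_S.D_iter i) _ (by omega), mul_zero]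
  | algebraMap c =>
    rw [AlgHom.commutes, Derivation.map_algebraMap, Derivation.map_algebraMap, mul_zero, map_zero]
  | add x y _ _ hx hy => rw [map_add, map_add, map_add, map_add, mul_add, hx, hy]
  | mul x y _ _ hx hy =>
    rw [map_mul, pd_mul, Derivation.leibniz, map_add, smul_eq_mul, smul_eq_mul, map_mul, map_mul,
      ← hx, ← hy]
    ring

theorem sup_of_pderiv {M : ℕ} {F : Sol.A} (hF : F ∈ sup (M + 1))
    (h : MvPolynomial.pderiv M F = 0) : F ∈ sup M := by
  rw [sup, MvPolynomial.mem_supported] at hF ⊢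
  intro i hi
  have h1 := hF hi
  rw [Set.mem_Iio] at h1 ⊢
  rcases Nat.lt_succ_iff_lt_or_eq.mp h1 with h2 | rfl
  · exact h2
  · exfalso
    obtain ⟨m, hm, him⟩ := (MvPolynomial.mem_vars_iff_mem_support i).mp (Finset.mem_coe.mp hi)
    have h3 : 1 ≤ m i := Nat.one_le_iff_ne_zero.mpr (Finsupp.mem_support_iff.mp him)
    have h4 := congrArg (MvPolynomial.coeff (m - Finsupp.single i 1)) h
    rw [MvPolynomial.coeff_pderiv, tsub_add_cancel_of_le (Finsupp.single_le_iff.mpr h3),
      MvPolynomial.coeff_zero] at h4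
    rcases mul_eq_zero.mp h4 with h5 | h5
    · exact MvPolynomial.mem_support_iff.mp hm h5
    · exact Nat.cast_add_one_ne_zero _ h5

theorem Φ_inj_aux (M : ℕ) : ∀ F ∈ sup M, J.Φ F = 0 → F = 0 := by
  induction M with
  | zero =>
    intro F hF h0
    rw [sup, MvPolynomial.mem_supported] at hF
    have h1 : F.vars = ∅ := by
      rw [← Finset.coe_eq_empty, Set.eq_empty_iff_forall_notMem]
      intro i hi
      exact absurd (hF hi) (by simp)
    obtain ⟨c, rfl⟩ : ∃ c, F = MvPolynomial.C c :=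
      ⟨_, MvPolynomial.vars_eq_empty_iff_eq_C.mp h1⟩
    rw [← MvPolynomial.algebraMap_eq, AlgHom.commutes] at h0
    have : c = 0 := J.inj (by rw [h0, map_zero])
    rw [this, map_zero]
  | succ M ih =>
    have key : ∀ d : ℕ, ∀ F ∈ sup (M + 1), (∀ m, MvPolynomial.coeff m F ≠ 0 → m M ≤ d) →
        J.Φ F = 0 → F = 0 := by
      intro d
      induction d with
      | zero =>
        intro F hF hd h0
        refine ih F (sup_of_pderiv hF ?_) h0
        ext m
        rw [MvPolynomial.coeff_pderiv, MvPolynomial.coeff_zero]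
        by_contra h1
        have h2 := hd _ (left_ne_zero_of_mul h1)
        simp at h2
      | succ d ihd =>
        intro F hF hd h0
        have h1 : MvPolynomial.pderiv M F = 0 := by
          refine ihd _ ?_ ?_ ?_
          · rw [sup, MvPolynomial.mem_supported] at hF ⊢
            intro i hi
            refine hF ?_
            obtain ⟨m, hm, him⟩ := (MvPolynomial.mem_vars_iff_mem_support i).mp (Finset.mem_coe.mp hi)
            rw [MvPolynomial.mem_support_iff, MvPolynomial.coeff_pderiv] at hm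
            refine Finset.mem_coe.mpr ((MvPolynomial.mem_vars_iff_mem_support i).mpr
              ⟨_, MvPolynomial.mem_support_iff.mpr (left_ne_zero_of_mul hm), ?_⟩)
            rw [Finsupp.mem_support_iff] at him ⊢
            rw [Finsupp.add_apply]
            omega
          · intro m hm
            rw [MvPolynomial.coeff_pderiv] at hm
            have := hd _ (left_ne_zero_of_mul hm)
            simp at this
            omega
          · rw [← J.Φ_pderiv hF, h0, map_zero, mul_zero]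
        exact ih F (sup_of_pderiv hF h1) h0
    intro F hF h0
    refine key (F.support.sup fun m => m M) F hF (fun m hm => ?_) h0
    exact Finset.le_sup (f := fun m : ℕ →₀ ℕ => m M) (MvPolynomial.mem_support_iff.mpr hm)

theorem exists_sup (F : Sol.A) : ∃ M, F ∈ sup M := by
  refine ⟨F.vars.sup id + 1, ?_⟩
  rw [sup, MvPolynomial.mem_supported]
  intro i hi
  rw [Set.mem_Iio]
  exact Nat.lt_succ_of_le (Finset.le_sup (f := id) (Finset.mem_coe.mp hi))

theorem Φ_inj {F : Sol.A} (h : J.Φ F = 0) : F = 0 := by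
  obtain ⟨M, hM⟩ := exists_sup F
  exact J.Φ_inj_aux M F hM h

theorem sup_mono {M M' : ℕ} (h : M ≤ M') : sup M ≤ sup M' :=
  MvPolynomial.supported_mono (Set.Iio_subset_Iio h)

theorem nil_smul {N : ℕ} (hN : 2 ≤ N) {f : K} (hf : Nil (J.pd N) f) :
    ∀ b : K, J.pd N b = 0 → Nil (J.u 1 • J.pd N) (b * f) := by
  induction hf with
  | zero => intro b _; rw [mul_zero]; exact .zero
  | step f _ ih =>
    intro b hb
    refine .step _ ?_
    rw [Derivation.smul_apply, pd_mul, hb, zero_mul, zero_add, smul_eq_mul, ← mul_assoc]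
    refine ih _ ?_
    rw [pd_mul, hb, J.pd_u, if_neg (by omega)]
    ring

/-- Möbius-invariant nice functions are differential polynomials in the Schwarzian. -/
theorem structure_thm (M : ℕ) : ∀ f ∈ J.NO (M + 3), f ∈ J.Inv → ∃ F ∈ sup M, J.Φ F = f := by
  induction M with
  | zero =>
    intro f hf hI
    have h1 := hI 1 mob_one
    have h2 := hI (J.u 0) mob_u
    have h3 := hI (J.u 0 ^ 2) mob_sq
    have hf3 : J.Ord 3 f := hf.2
    rw [J.X_sum _ hf3, Finset.sum_range_succ, Finset.sum_range_succ, Finset.sum_range_one]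
      at h1 h2 h3
    simp only [Function.iterate_succ_apply, Function.iterate_zero_apply, D_u, D_sq, D_mul,
      Derivation.map_one_eq_zero, map_zero, D_ofNat, zero_mul, add_zero, one_mul, zero_add]
      at h1 h2 h3
    have e2 : J.pd 2 f = 0 := by
      have : (2 : ℂ) • (J.u 1 * (J.u 1 * J.pd 2 f)) = 0 := by
        rw [Algebra.smul_def, map_ofNat]
        linear_combination h3 - 2 * J.u 0 * h2 + J.u 0 ^ 2 * h1
      exact J.eq_zero_of_p_mul (J.eq_zero_of_p_mul (smul_eq_zero' (by norm_num) this))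
    have e1 : J.pd 1 f = 0 := by
      refine J.eq_zero_of_p_mul ?_
      rw [e2, h1] at h2
      linear_combination h2
    have h0 : J.Ord 0 f := ord_of_pd (ord_of_pd (ord_of_pd hf3 e2) e1) h1
    obtain ⟨c, hc⟩ := const_of_ord_zero h0
    exact ⟨algebraMap ℂ _ c, Subalgebra.algebraMap_mem _ c, by rw [AlgHom.commutes, hc]⟩
  | succ M ih =>
    intro f hf hI
    set V := J.NO (M + 1 + 3) ⊓ J.Inv with hV
    set δ : Derivation ℂ K K := J.u 1 • J.pd (M + 3) with hδ
    have hδ' : ∀ x, δ x = J.u 1 * J.pd (M + 3) x := fun x => rfl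
    have hδt : δ (J.D^[M] J.S) = 1 := by
      rw [hδ', add_comm, pd_D_iter_of_ord J.ord_S, pd3_S, J.uq]
    have htV : J.D^[M] J.S ∈ V :=
      ⟨⟨N_D_iter N_S M, (J.ord_S.D_iter M).mono (by omega)⟩, Inv_D_iter Inv_S M⟩
    have hVδ : ∀ x ∈ V, δ x ∈ V := by
      intro x hx
      refine ⟨⟨J.N.mul_mem (N_u 1) (N_pd hx.1.1 _), ?_⟩, ?_⟩
      · exact (ord_u' (by omega)).mul (hx.1.2.pd _)
      · intro h hh
        rw [hδ', ← Mob.top hh.1 (N := M + 3) hx.1.2, hx.2 h hh, map_zero, mul_zero]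
    have hnil : Nil δ f := by
      have := J.nil_smul (N := M + 3) (by omega) (hf.1.2 (M + 3) (by omega)) 1 (by simp)
      rwa [one_mul] at this
    have hmem := hnil.mem_Sp hδt htV hVδ (f := f) ⟨hf, hI⟩
    have hle : Sp δ (J.D^[M] J.S) V ≤
        Subalgebra.toSubmodule ((sup (M + 1)).map J.Φ) := by
      refine Submodule.span_le.mpr ?_
      rintro x ⟨j, c, hc, hc0, rfl⟩
      refine Subalgebra.mul_mem _ (Subalgebra.pow_mem _ ?_ j) ?_
      · refine ⟨MvPolynomial.X M, ?_, J.Φ_X M⟩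
        exact Algebra.subset_adjoin ⟨M, by simp, rfl⟩
      · have hcO : J.Ord (M + 3) c :=
          ord_of_pd (n := M + 3) hc.1.2 (J.eq_zero_of_p_mul hc0)
        obtain ⟨F, hF, e⟩ := ih c ⟨hc.1.1, hcO⟩ hc.2
        exact ⟨F, sup_mono (Nat.le_succ M) hF, e⟩
    obtain ⟨F, hF, e⟩ := hle hmem
    exact ⟨F, hF, e⟩

/-- The leading coefficient of an even cosymmetry vanishes in odd orders. -/
theorem top_zero {N : ℕ} (hN : 3 ≤ N) (hodd : ¬ Even N) {f : K} (hf : f ∈ J.NO (N + 1))
    (hp : J.Par {(N : ℤ) - 1} f) (hC : J.C 0 f = 0) : J.u 1 * J.pd N f = 0 := by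
  obtain ⟨M, rfl⟩ : ∃ M, N = M + 3 := ⟨N - 3, by omega⟩
  obtain ⟨c, hc⟩ := J.top_const J.ord_zero' hN hf.2 hC
  obtain ⟨F, hF, e⟩ := J.structure_thm (M + 1) f
    (by convert hf using 1) (J.top_inv hN hf hp hC)
  have h1 : Sol.wt F = ((M + 2 : ℕ) : ℂ) • F := by
    rw [← sub_eq_zero]
    refine J.Φ_inj ?_
    rw [map_sub, Φ_wt, map_smul, e, J.top_W hN hf hp hC, Algebra.smul_def, map_natCast]
    push_cast
    ring
  have h2 : Sol.dt F - Sol.dT (Sol.dT (Sol.dT F)) - 3 * Sol.dT (MvPolynomial.X 0 * F) = 0 := by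
    refine J.Φ_inj ?_
    rw [map_sub, map_sub, Φ_dt, Φ_D, Φ_D, Φ_D, map_mul, Φ_D, map_mul, Φ_X, map_ofNat, e,
      Function.iterate_zero_apply]
    rw [C, aa_zero, mul_assoc, D_mul J 3, D_ofNat] at hC
    linear_combination hC
  have h3 := Sol.main (n := M + 2) (by
    have : ¬ Even (M + 3) := hodd
    rw [Nat.even_add_one] at this
    exact not_not.mp this) (by omega) h1 h2
  have h4 : MvPolynomial.pderiv M F = MvPolynomial.C c := by
    rw [← sub_eq_zero]
    refine J.Φ_inj ?_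
    rw [map_sub, ← J.Φ_pderiv hF, e, hc, ← MvPolynomial.algebraMap_eq, AlgHom.commutes, sub_self]
  have h5 := congrArg (MvPolynomial.coeff 0) h4
  rw [MvPolynomial.coeff_pderiv, zero_add, MvPolynomial.coeff_C, if_pos rfl] at h5
  rw [show M + 2 - 2 = M by omega] at h3
  rw [h3, zero_mul] at h5
  rw [hc, ← h5, map_zero]

end JetAlg

end Pool.Agent.Work.MP_24478e_mp.KN
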