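import Pool.Agent.Work.MP_24478e_mp.Germ

/-!
# Final theorem
-/

namespace Pool.Agent.Work.MP_24478e_mp

open Filter Topology KN

variable {a : ℕ → ℂ}

theorem pd_congr_at {f g : (ℕ → ℂ) → ℂ} {x : ℕ → ℂ} (h : f =ᶠ[𝓝 x] g) (i : ℕ) :
    pd i f x = pd i g x := (pd_congr h i).eq_of_nhds

theorem D_congr {f g : (ℕ → ℂ) → ℂ} (h : f =ᶠ[𝓝 a] g) : D f =ᶠ[𝓝 a] D g := by
  filter_upwards [h.eventually_nhds] with x hx
  simp only [D]
  exact finsum_congr fun i => by rw [pd_congr_at hx i]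

theorem D_iter_congr {f g : (ℕ → ℂ) → ℂ} (h : f =ᶠ[𝓝 a] g) (i : ℕ) :
    D^[i] f =ᶠ[𝓝 a] D^[i] g := by
  induction i with
  | zero => exact h
  | succ i ih => rw [Function.iterate_succ_apply', Function.iterate_succ_apply']; exact D_congr ih

theorem pd_zero_fun (i : ℕ) : pd i (0 : (ℕ → ℂ) → ℂ) = 0 := by
  funext x
  simp [pd]

theorem D_zero : D (0 : (ℕ → ℂ) → ℂ) = 0 := by
  funext x
  simp [D, pd_zero_fun]

theorem D_iter_zero (i : ℕ) : D^[i] (0 : (ℕ → ℂ) → ℂ) = 0 := by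
  induction i with
  | zero => rfl
  | succ i ih => rw [Function.iterate_succ_apply', ih, D_zero]

theorem fin_pd {f : (ℕ → ℂ) → ℂ} (hf : LocAn a f) :
    ∃ n, ∀ᶠ x in 𝓝 a, ∀ i, n ≤ i → pd i f x = 0 := by
  obtain ⟨n, h, H⟩ := hf
  refine ⟨n, ?_⟩
  filter_upwards [LA.near H] with y hy i hi
  rw [hy.pd_eq, ev_eq_zero hi, map_zero]

theorem LocAn_sum (c : ℕ → (ℕ → ℂ) → ℂ) (hc : ∀ i, LocAn a (c i)) (n : ℕ) :
    LocAn a (∑ i ∈ Finset.range n, c i) :=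
  sum_mem (S := LAlg a) fun i _ => hc i

theorem gm_sum (c : ℕ → (ℕ → ℂ) → ℂ) (hc : ∀ i, LocAn a (c i)) (n : ℕ) :
    ∑ i ∈ Finset.range n, gm (c i) (hc i) = gm (∑ i ∈ Finset.range n, c i) (LocAn_sum c hc n) := by
  induction n with
  | zero =>
    rw [Finset.sum_range_zero, gm_zero, gm_eq, Finset.sum_range_zero]
    exact EventuallyEq.rfl
  | succ n ih =>
    rw [Finset.sum_range_succ, ih, gm_add, gm_eq, Finset.sum_range_succ]

theorem finsum_loc (c : ℕ → (ℕ → ℂ) → ℂ) (hc : ∀ i, LocAn a (c i)) (n : ℕ)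
    (h0 : ∀ᶠ x in 𝓝 a, ∀ i, n ≤ i → c i x = 0) :
    ∃ hS : LocAn a (fun x => ∑ᶠ i, c i x), gm _ hS = ∑ i ∈ Finset.range n, gm (c i) (hc i) := by
  have h1 : (∑ i ∈ Finset.range n, c i) =ᶠ[𝓝 a] fun x => ∑ᶠ i, c i x := by
    filter_upwards [h0] with x hx
    rw [Finset.sum_apply]
    symm
    refine finsum_eq_sum_of_support_subset _ ?_
    intro i hi
    rw [Finset.mem_coe, Finset.mem_range]
    by_contra h
    exact hi (hx i (not_lt.mp h))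
  refine ⟨(LocAn_sum c hc n).congr h1, ?_⟩
  rw [gm_sum, gm_eq]
  exact h1.symm

theorem ord_gm (ha : a 1 ≠ 0) {f : (ℕ → ℂ) → ℂ} (hf : LocAn a f) {n : ℕ}
    (h : ∀ᶠ x in 𝓝 a, ∀ i, n ≤ i → pd i f x = 0) : (JG ha).Ord n (gm f hf) := by
  intro i hi
  change pdG a i _ = 0
  rw [pdG_gm, gm_zero, gm_eq]
  filter_upwards [h] with x hx
  exact hx i hi

theorem pd_JG (ha : a 1 ≠ 0) {f : (ℕ → ℂ) → ℂ} (hf : LocAn a f) (i : ℕ) :
    (JG ha).pd i (gm f hf) = gm (pd i f) (hf.pd i) := pdG_gm i hf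

theorem D_gm (ha : a 1 ≠ 0) {f : (ℕ → ℂ) → ℂ} (hf : LocAn a f) :
    ∃ h : LocAn a (D f), gm (D f) h = (JG ha).D (gm f hf) := by
  obtain ⟨n, hn⟩ := fin_pd hf
  obtain ⟨h, e⟩ := finsum_loc (a := a) (fun i => (fun x => x (i + 1)) * pd i f)
    (fun i => (LocAn_u (i + 1)).mul (hf.pd i)) n
    (by filter_upwards [hn] with x hx i hi; simp [hx i hi])
  refine ⟨h, ?_⟩
  rw [JetAlg.D_sum _ (ord_gm ha hf hn)]
  refine e.trans (Finset.sum_congr rfl fun i _ => ?_)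
  rw [pd_JG]
  rfl

theorem D_iter_gm (ha : a 1 ≠ 0) {f : (ℕ → ℂ) → ℂ} (hf : LocAn a f) (i : ℕ) :
    ∃ h : LocAn a (D^[i] f), gm (D^[i] f) h = (JG ha).D^[i] (gm f hf) := by
  induction i with
  | zero => exact ⟨hf, rfl⟩
  | succ i ih =>
    obtain ⟨h, e⟩ := ih
    obtain ⟨h', e'⟩ := D_gm ha h
    rw [Function.iterate_succ_apply']
    exact ⟨h', by rw [e', e, Function.iterate_succ_apply']⟩

theorem LocAn.D_iter (ha : a 1 ≠ 0) {f : (ℕ → ℂ) → ℂ} (hf : LocAn a f) (i : ℕ) :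
    LocAn a (D^[i] f) := (D_iter_gm ha hf i).choose

theorem gm_D_iter (ha : a 1 ≠ 0) {f : (ℕ → ℂ) → ℂ} (hf : LocAn a f) (i : ℕ) :
    gm (D^[i] f) (hf.D_iter ha i) = (JG ha).D^[i] (gm f hf) := (D_iter_gm ha hf i).choose_spec

theorem LocAn_P (P : Polynomial ℂ) : LocAn a (fun x => P.eval (x 0)) := by
  refine LocAn.coord 0 (φ := fun z => P.eval z) ?_
  have := (Polynomial.differentiable P).analyticAt (a 0)
  exact this

theorem LocAn_inv (ha : a 1 ≠ 0) : LocAn a (fun x => (x 1)⁻¹) :=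
  LocAn.coord 1 (φ := fun z => z⁻¹) (analyticAt_id.inv ha)

theorem F_eq' (P : Polynomial ℂ) : F P = (fun x => x 3) - ((fun _ => 3) * (fun _ => 1 / 2) *
    (fun x => (x 1)⁻¹) * ((fun x => x 2) * (fun x => x 2))) +
    (fun x => P.eval (x 0)) * (fun x => (x 1)⁻¹) := by
  funext x
  simp only [F, Pi.add_apply, Pi.sub_apply, Pi.mul_apply]
  ring

theorem LocAn.sub {f g : (ℕ → ℂ) → ℂ} (hf : LocAn a f) (hg : LocAn a g) :
    LocAn a (f - g) := (LAlg a).sub_mem hf hg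

theorem LocAn_F (ha : a 1 ≠ 0) (P : Polynomial ℂ) : LocAn a (F P) := by
  rw [F_eq']
  exact ((LocAn_u 3).sub ((((LocAn.const 3).mul (LocAn.const _)).mul (LocAn_inv ha)).mul
    ((LocAn_u 2).mul (LocAn_u 2)))).add ((LocAn_P P).mul (LocAn_inv ha))

theorem gm_F (ha : a 1 ≠ 0) (P : Polynomial ℂ) :
    gm (F P) (LocAn_F ha P) = (JG ha).F (gm _ (LocAn_P P)) := by
  have h1 : gm (F P) (LocAn_F ha P) = gm (fun x => x 3) (LocAn_u 3) -
      gm (fun _ => 3) (LocAn.const 3) * gm (fun _ => 1 / 2) (LocAn.const (1 / 2)) *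
      gm (fun x => (x 1)⁻¹) (LocAn_inv ha) * (gm (fun x => x 2) (LocAn_u 2) *
      gm (fun x => x 2) (LocAn_u 2)) + gm _ (LocAn_P P) * gm (fun x => (x 1)⁻¹) (LocAn_inv ha) := by
    change _ = gm _ (((LocAn_u 3).sub ((((LocAn.const 3).mul (LocAn.const (1 / 2))).mul
      (LocAn_inv ha)).mul ((LocAn_u 2).mul (LocAn_u 2)))).add ((LocAn_P P).mul (LocAn_inv ha)))
    rw [gm_eq, F_eq']
  rw [h1, ← gm_algebraMap, ← gm_algebraMap, JetAlg.F, map_ofNat, pow_two]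
  rfl

theorem ord_P (ha : a 1 ≠ 0) (P : Polynomial ℂ) : (JG ha).Ord 1 (gm _ (LocAn_P P)) := by
  refine ord_gm ha _ (Eventually.of_forall fun x i hi => ?_)
  rw [pd_coord i 0 (fun z => P.eval z), if_neg (by omega)]

theorem Dt_gm (ha : a 1 ≠ 0) (P : Polynomial ℂ) {g : (ℕ → ℂ) → ℂ} (hg : LocAn a g) :
    ∃ h : LocAn a (Dt P g), gm (Dt P g) h =
      (JG ha).X ((JG ha).F (gm _ (LocAn_P P))) (gm g hg) := by
  obtain ⟨n, hn⟩ := fin_pd hg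
  obtain ⟨h, e⟩ := finsum_loc (a := a) (fun i => pd i g * D^[i] (F P))
    (fun i => (hg.pd i).mul ((LocAn_F ha P).D_iter ha i)) n
    (by filter_upwards [hn] with x hx i hi; simp [hx i hi])
  refine ⟨h, ?_⟩
  rw [JetAlg.X_sum _ _ (ord_gm ha hg hn)]
  refine e.trans (Finset.sum_congr rfl fun i _ => ?_)
  rw [pd_JG, ← gm_F, ← gm_D_iter ha, gm_mul, gm_eq, mul_comm]

theorem const_pow_gm (i : ℕ) : gm (fun _ => (-1) ^ i) (LocAn.const ((-1) ^ i)) =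
    ((-1) ^ i : Gm a) := by
  rw [← gm_algebraMap, RingHom.map_pow, RingHom.map_neg, RingHom.map_one]

theorem adj_aux (ha : a 1 ≠ 0) {G g : (ℕ → ℂ) → ℂ} (hG : LocAn a G) (hg : LocAn a g) :
    ∃ h : LocAn a (fun x => ∑ᶠ i, (-1) ^ i * (D^[i] fun y => pd i G y * g y) x),
      gm _ h = (JG ha).adj (gm G hG) (gm g hg) := by
  obtain ⟨n, hn⟩ := fin_pd hG
  obtain ⟨h, e⟩ := finsum_loc (a := a) (fun i => (fun _ => (-1) ^ i) * (D^[i] (pd i G * g)))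
    (fun i => (LocAn.const _).mul (((hG.pd i).mul hg).D_iter ha i)) n
    (by
      filter_upwards [hn.eventually_nhds] with x hx i hi
      have h1 : (pd i G * g) =ᶠ[𝓝 x] 0 := by
        filter_upwards [hx] with y hy
        simp [hy i hi]
      have h2 := (D_iter_congr h1 i).eq_of_nhds
      rw [D_iter_zero] at h2
      simp [h2])
  refine ⟨h, ?_⟩
  rw [JetAlg.adj_sum _ (ord_gm ha hG hn)]
  refine e.trans (Finset.sum_congr rfl fun i _ => ?_)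
  rw [pd_JG, gm_mul, ← gm_D_iter ha, ← const_pow_gm, gm_mul]

theorem FstarAdj_gm (ha : a 1 ≠ 0) (P : Polynomial ℂ) {g : (ℕ → ℂ) → ℂ} (hg : LocAn a g) :
    ∃ h : LocAn a (FstarAdj P g), gm (FstarAdj P g) h =
      (JG ha).adj ((JG ha).F (gm _ (LocAn_P P))) (gm g hg) := by
  rw [← gm_F]
  exact adj_aux ha (LocAn_F ha P) hg

theorem varDeriv_gm (ha : a 1 ≠ 0) {ρ : (ℕ → ℂ) → ℂ} (hρ : LocAn a ρ) :
    ∃ h : LocAn a (varDeriv ρ), gm (varDeriv ρ) h = (JG ha).E (gm ρ hρ) := by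
  obtain ⟨h, e⟩ := adj_aux ha hρ (LocAn.const 1)
  have h1 : (fun x => ∑ᶠ i, (-1) ^ i * (D^[i] fun y => pd i ρ y * 1) x) = varDeriv ρ := by
    simp only [mul_one]
    rfl
  have h2 : LocAn a (varDeriv ρ) := h1 ▸ h
  refine ⟨h2, ?_⟩
  rw [JetAlg.E_eq_adj, gm_one, ← e, gm_eq, h1]

/-- **Every cosymmetry of the Krichever-Novikov equation is the variational derivative of a
conserved density** (locally analytic version). -/
theorem main (P : Polynomial ℂ) (a : ℕ → ℂ) (ha : a 1 ≠ 0) (g : (ℕ → ℂ) → ℂ) (hg : LocAn a g)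
    (hcos : ∀ᶠ x in 𝓝 a, Dt P g x + FstarAdj P g x = 0) :
    ∃ ρ, LocAn a ρ ∧ (∃ h, LocAn a h ∧ Dt P ρ =ᶠ[𝓝 a] D h) ∧ g =ᶠ[𝓝 a] varDeriv ρ := by
  obtain ⟨h1, e1⟩ := Dt_gm ha P hg
  obtain ⟨h2, e2⟩ := FstarAdj_gm ha P hg
  have hJ : (JG ha).X ((JG ha).F (gm _ (LocAn_P P))) (gm g hg) +
      (JG ha).adj ((JG ha).F (gm _ (LocAn_P P))) (gm g hg) = 0 := by
    rw [← e1, ← e2, gm_add, gm_zero, gm_eq]
    exact hcos
  obtain ⟨ρ', hρ', h', hh'⟩ := (JG ha).main (ord_P ha P) hJ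
  obtain ⟨ρ, hρ, rfl⟩ := gm_surj ρ'
  obtain ⟨h, hh, rfl⟩ := gm_surj h'
  refine ⟨ρ, hρ, ⟨h, hh, ?_⟩, ?_⟩
  · obtain ⟨h3, e3⟩ := Dt_gm ha P hρ
    obtain ⟨h4, e4⟩ := D_gm ha hh
    rw [← e3, ← e4, gm_eq] at hh'
    exact hh'
  · obtain ⟨h5, e5⟩ := varDeriv_gm ha hρ
    rw [← e5, gm_eq] at hρ'
    exact hρ'.symm

end Pool.Agent.Work.MP_24478e_mp
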