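import Pool.Agent.Work.MP_24478e_mp.EvenB

/-!
# Every cosymmetry is the variational derivative of a conserved density (abstract form)
-/

namespace Pool.Agent.Work.MP_24478e_mp.KN

open Finset

variable {K : Type*} [CommRing K] [Algebra ℂ K] (J : JetAlg K)

/-- `1/3` -/
noncomputable def th (K : Type*) [CommRing K] [Algebra ℂ K] : K := algebraMap ℂ K (1 / 3)

theorem three_th : 3 * th K = 1 := by
  rw [th, ← map_ofNat (algebraMap ℂ K) 3, ← map_mul]
  norm_num

namespace JetAlg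

theorem D_th : J.D (th K) = 0 := Derivation.map_algebraMap _ _

variable {P : K} (hP : J.Ord 1 P)
include hP

theorem even_ord {γ : K} (hC : J.C P γ = 0) (hp : J.Par (Pty 0) γ) : J.Ord 3 γ := by
  have hN : γ ∈ J.N := J.S1 hP (by rw [hC]; exact J.N.zero_mem)
  have key : ∀ d : ℕ, J.Ord (3 + d) γ → J.Ord 3 γ := by
    intro d
    induction d with
    | zero => exact id
    | succ d ih =>
      intro h
      refine ih (ord_of_pd h (J.eq_zero_of_p_mul ?_))
      obtain ⟨c, hc⟩ := J.top_const hP (N := 3 + d) (by omega) h hC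
      by_cases heven : Even (3 + d)
      · have h1 : J.Par (Pty 1) (J.u 1 * J.pd (3 + d) γ) := by
          refine par_p.mul' (hp.pd' (e' := 0) (3 + d) ?_) (by decide)
          have : Even (((3 + d : ℕ) : ℤ)) := by exact_mod_cast heven
          simpa using this
        refine h1.disj (T := Pty 0) (Pty_disj (by decide)) ?_
        rw [hc]
        exact par_const c (by simp)
      · have hw := J.weight_le hP (N := 3 + d) (by omega) (γ := γ) ⟨hN, h⟩ hC
        obtain ⟨g, hg, h', hh', e, pg, ph, Cg⟩ := J.top_comp hP (N := 3 + d) ⟨hN, h⟩ hC hw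
        have h1 := J.top_zero (N := 3 + d) (by omega) heven hg pg Cg
        have h2 : J.u 1 * J.pd (3 + d) γ = J.u 1 * J.pd (3 + d) h' := by
          rw [e, map_add, mul_add, h1, zero_add]
        have h3 : J.Par (Set.Iio 0) (J.u 1 * J.pd (3 + d) γ) := by
          rw [h2]
          refine J.par_top ph ?_
          intro x hx
          simp at hx ⊢
          omega
        refine h3.disj (T := {0}) (by intro x hx; simp at hx ⊢; omega) ?_
        rw [hc]
        exact par_algebraMap (Set.mem_singleton _) c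
  obtain ⟨n, hn⟩ := J.exists_ord γ
  exact key n (hn.mono (by omega))

theorem even_part {γ : K} (hC : J.C P γ = 0) (hp : J.Par (Pty 0) γ) :
    ∃ ρ, J.E ρ = J.q * γ ∧ ∃ h, J.X (J.F P) ρ = J.D h := by
  have h3 := J.even_ord hP hC hp
  obtain ⟨e1, e2, e3⟩ := J.base_data hP h3 hC
  set β := J.pd 2 γ with hβ
  set k := J.u 1 ^ 2 * β with hk
  have hk1 : J.Ord 1 k := by
    have h : J.Ord 3 k := ((ord_u' (by omega)).pow 2).mul (h3.pd 2)
    refine ord_of_pd (ord_of_pd h ?_) ?_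
    · rw [hk, pd_mul, e2, pd_sq, J.pd_u, if_neg (by omega)]; ring
    · rw [hk, pd_mul, pd_sq, J.pd_u, if_pos rfl]
      linear_combination J.u 1 * e3
  have hkq : J.u 1 * β = k * J.q := by
    rw [hk]
    linear_combination (- J.u 1 * β) * J.uq
  rw [hkq] at e1
  clear_value k
  clear hkq e2 e3
  -- `γ = - D (k q)`
  set k1 := J.pd 0 k with hk1'
  set k2 := J.pd 0 k1 with hk2'
  set k3 := J.pd 0 k2 with hk3'
  have o1 : J.Ord 1 k1 := hk1.pd 0
  have o2 : J.Ord 1 k2 := o1.pd 0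
  have o3 : J.Ord 1 k3 := o2.pd 0
  have Dk : J.D k = k1 * J.u 1 := J.D_P hk1
  have Dk1 : J.D k1 = k2 * J.u 1 := J.D_P o1
  have Dk2 : J.D k2 = k3 * J.u 1 := J.D_P o2
  have Dp : J.D (J.u 1) = J.u 1 * J.y 0 := by
    rw [D_u, y_zero]; linear_combination (- J.u 2) * J.uq
  have f1 : J.D (k * J.q) = k1 - k * J.q * J.y 0 := by
    rw [D_mul, Dk, D_q']; linear_combination k1 * J.uq
  have f2 : J.D (J.D (k * J.q)) = k2 * J.u 1 - k1 * J.y 0 + k * J.q * (J.y 0 ^ 2 - J.y 1) := by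
    rw [f1, map_sub, D_mul J (k * J.q), f1, Dk1, D_y]; ring
  have f3 : J.D (J.D (J.D (k * J.q))) = k3 * J.u 1 ^ 2 + k1 * (J.y 0 ^ 2 - 2 * J.y 1) +
      k * J.q * (3 * J.y 0 * J.y 1 - J.y 0 ^ 3 - J.y 2) := by
    rw [f2, map_add, map_sub, D_mul J (k * J.q), f1, D_mul, D_mul, Dk1, Dk2, Dp, map_sub, D_sq,
      D_y, D_y]
    ring
  have f4 : J.X (J.F P) (k * J.q) = k1 * J.tau P - k * J.q * J.Th P := by
    rw [X_mul, XF_q, J.X_P hk1, F_eq]
    linear_combination (k1 * J.tau P) * J.uq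
  have f5 : J.Lc P (k * J.q) = (2 * P * k1 - k * J.pd 0 P) * J.q ^ 2 - k3 * J.u 1 ^ 2 := by
    rw [Lc, f4, f3, f1, Th_eq J hP, tau, aa, S, Q, R]
    linear_combination (k1 * J.y 0 ^ 2 - k * J.q * J.y 0 ^ 3) * two_hf (K := K)
  -- it is a constant
  have g1 : J.D (J.Lc P (k * J.q)) = 0 := by
    rw [← D_C]
    have : J.D (k * J.q) = 0 - γ := by rw [e1]; ring
    rw [this, C_sub, hC]
    have h0 := J.C_sub (P := P) 0 0
    simp only [sub_self] at h0
    rw [h0, sub_zero]
  obtain ⟨c, hc⟩ := const_of_D_eq_zero g1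
  set A := 2 * P * k1 - k * J.pd 0 P with hA
  have oA : J.pd 1 A = 0 := by
    have : J.Ord 1 A := (((ord_ofNat 1 2).mul hP).mul o1).sub (hk1.mul (hP.pd 0))
    exact this 1 le_rfl
  have g2 : A * J.q ^ 2 + k3 * J.u 1 ^ 2 = 0 := by
    have h1 := congrArg (J.pd 1) hc
    rw [f5, map_sub, pd_mul, pd_mul, oA, o3 1 le_rfl, pd_sq, pd_sq, pd_q, if_pos rfl, J.pd_u,
      if_pos rfl, Derivation.map_algebraMap] at h1
    have h2 : (2 : ℂ) • (A * J.q ^ 2 + k3 * J.u 1 ^ 2) = 0 := by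
      rw [Algebra.smul_def, map_ofNat]
      linear_combination (- J.u 1) * h1 - (2 * A * J.q ^ 2) * J.uq
    exact smul_eq_zero' (by norm_num) h2
  have g3 : - (A * J.q ^ 2) + k3 * J.u 1 ^ 2 = 0 := by
    have h1 := congrArg (J.pd 1) g2
    rw [map_add, pd_mul, pd_mul, oA, o3 1 le_rfl, pd_sq, pd_sq, pd_q, if_pos rfl, J.pd_u,
      if_pos rfl, map_zero] at h1
    have h2 : (2 : ℂ) • (- (A * J.q ^ 2) + k3 * J.u 1 ^ 2) = 0 := by
      rw [Algebra.smul_def, map_ofNat]
      linear_combination (J.u 1) * h1 + (2 * A * J.q ^ 2) * J.uq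
    exact smul_eq_zero' (by norm_num) h2
  have hk30 : k3 = 0 := by
    have h2 : (2 : ℂ) • (J.u 1 * (J.u 1 * k3)) = 0 := by
      rw [Algebra.smul_def, map_ofNat]
      linear_combination g2 + g3
    exact J.eq_zero_of_p_mul (J.eq_zero_of_p_mul (smul_eq_zero' (by norm_num) h2))
  have hA0 : A = 0 := by
    rw [hk30] at g2
    have h2 : A = J.u 1 ^ 2 * (A * J.q ^ 2) := by
      linear_combination (- A * (J.u 1 * J.q + 1)) * J.uq
    rw [h2]
    linear_combination J.u 1 ^ 2 * g2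
  have hL0 : J.Lc P (k * J.q) = 0 := by
    rw [f5, hA0, hk30]; ring
  -- the density
  have hE : J.E (k * J.q) = - (2 * (J.q * γ)) := by
    have hord : J.Ord 2 (k * J.q) := (hk1.mono (by omega)).mul ord_q
    have hp1 : J.pd 1 (k * J.q) = - (k * J.q ^ 2) := by
      rw [pd_mul, hk1 1 le_rfl, pd_q, if_pos rfl]; ring
    have hp0 : J.pd 0 (k * J.q) = k1 * J.q := by
      rw [pd_mul, pd_q, if_neg (by omega)]; ring
    rw [J.E_sum hord, Finset.sum_range_succ, Finset.sum_range_one, hp0, hp1, e1, f1,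
      Function.iterate_one, Function.iterate_zero_apply, map_neg, D_mul, D_sq, D_q', Dk]
    linear_combination (k1 * J.q) * J.uq
  refine ⟨- (1 / 2 : ℂ) • (k * J.q), ?_, ?_⟩
  · rw [E_smul, hE, Algebra.smul_def, map_neg]
    change - hf K * _ = _
    linear_combination (J.q * γ) * two_hf (K := K)
  · refine ⟨- (1 / 2 : ℂ) • (J.D (J.D (k * J.q)) + (- (3 * hf K) * J.y 0 ^ 2 * (k * J.q) +
      3 * J.y 0 * k1 - 3 * k2 * J.u 1 - th K * P * k * J.q ^ 3)), ?_⟩
    rw [Derivation.map_smul, Derivation.map_smul]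
    congr 1
    have h1 : J.X (J.F P) (k * J.q) = J.D (J.D (J.D (k * J.q))) + J.aa P * J.D (k * J.q) := by
      rw [Lc] at hL0
      linear_combination hL0
    rw [h1, map_add]
    congr 1
    have hA' : 2 * P * k1 = k * J.pd 0 P := by
      rw [hA] at hA0; linear_combination hA0
    rw [map_sub, map_sub, map_add, D_mul J (- (3 * hf K) * J.y 0 ^ 2), f1]
    simp only [D_mul, map_neg, D_hf, D_ofNat, D_sq, D_cube, D_th, D_y, Dk, Dk1, Dk2, Dp, D_q',
      J.D_P hP, hk30, aa, S, Q]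
    linear_combination (3 * J.y 1 * J.y 0 * J.q * k) * two_hf (K := K) +
      (P * J.q ^ 2 * k1 - J.y 0 * P * J.q ^ 3 * k) * three_th (K := K) +
      (th K * P * J.q ^ 2 * k1 + th K * J.q ^ 2 * k * J.pd 0 P) * J.uq -
      th K * J.q ^ 2 * hA'

/-- **Main theorem (abstract form).** -/
theorem main {g : K} (hg : J.X (J.F P) g + J.adj (J.F P) g = 0) :
    ∃ ρ, J.E ρ = g ∧ ∃ h, J.X (J.F P) ρ = J.D h := by
  have hg' : g = J.q * (J.u 1 * g) := by linear_combination (- g) * J.uq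
  set γ := J.u 1 * g with hγ
  have hC : J.C P γ = 0 := by
    rw [hg', J.adj_F hP] at hg
    have : J.C P γ = J.u 1 * (J.q * J.C P γ) := by linear_combination (- J.C P γ) * J.uq
    rw [this, hg, mul_zero]
  have hN : γ ∈ J.N := J.S1 hP (by rw [hC]; exact J.N.zero_mem)
  obtain ⟨a, -, b, -, pa, pb, e⟩ := split_parity hN
  have hsum : J.C P a + J.C P b = 0 := by rw [← C_add, ← e, hC]
  have hCa : J.C P a = 0 := by
    have h1 : J.Par (Pty (0 + 1)) (J.C P a) := pa.C hP
    have h2 : J.Par (Pty (1 + 1)) (J.C P a) := by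
      have : J.C P a = - J.C P b := by linear_combination hsum
      rw [this]
      exact (pb.C hP).neg
    exact h1.disj (Pty_disj (by decide)) h2
  have hCb : J.C P b = 0 := by rw [hCa, zero_add] at hsum; exact hsum
  obtain ⟨ρ1, hρ1, h1, e1⟩ := J.even_part hP hCa pa
  obtain ⟨ρ2, hρ2, h2, e2⟩ := J.odd_part hP hCb pb
  refine ⟨ρ1 + ρ2, ?_, h1 + h2, ?_⟩
  · rw [E_add, hρ1, hρ2, hg', e]; ring
  · rw [map_add, e1, e2, map_add]

end JetAlg

end Pool.Agent.Work.MP_24478e_mp.KN
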