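import Pool.Agent.Work.MP_24478e_mp.Defs
import Pool.Agent.Work.MP_24478e_mp.Main

/-!
# Germs of locally analytic functions form a jet algebra
-/

namespace Pool.Agent.Work.MP_24478e_mp

open Filter Topology KN

/-- restriction to the first `n` coordinates -/
def r (n : ℕ) (x : ℕ → ℂ) : Fin n → ℂ := fun i => x i

theorem continuous_r (n : ℕ) : Continuous (r n) := by
  unfold r; fun_prop

/-- direction of the `i`-th coordinate -/
def ev (n i : ℕ) : Fin n → ℂ := fun k => if (k : ℕ) = i then 1 else 0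

theorem hasDerivAt_r (n i : ℕ) (x : ℕ → ℂ) (z : ℂ) :
    HasDerivAt (fun z => r n (Function.update x i z)) (ev n i) z := by
  rw [hasDerivAt_pi]
  intro k
  by_cases h : (k : ℕ) = i
  · subst h
    simp only [r, ev, Function.update_self, if_pos]
    exact hasDerivAt_id' z
  · simp only [r, ev, if_neg h, Function.update_of_ne h]
    exact hasDerivAt_const z _

/-- with explicit `n` -/
def LA (a : ℕ → ℂ) (n : ℕ) (h : (Fin n → ℂ) → ℂ) (f : (ℕ → ℂ) → ℂ) : Prop :=
  AnalyticAt ℂ h (r n a) ∧ f =ᶠ[𝓝 a] fun x => h (r n x)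

variable {a : ℕ → ℂ}

theorem LocAn_iff {f : (ℕ → ℂ) → ℂ} : LocAn a f ↔ ∃ n h, LA a n h f := Iff.rfl

theorem LA.mono {n m : ℕ} (hnm : n ≤ m) {h : (Fin n → ℂ) → ℂ} {f : (ℕ → ℂ) → ℂ}
    (hf : LA a n h f) : LA a m (fun y => h (fun i => y (Fin.castLE hnm i))) f := by
  refine ⟨?_, hf.2⟩
  have h1 : AnalyticAt ℂ (fun y : Fin m → ℂ => fun i : Fin n => y (Fin.castLE hnm i)) (r m a) := by
    rw [analyticAt_pi_iff]
    intro i
    exact (ContinuousLinearMap.proj (R := ℂ) (φ := fun _ : Fin m => ℂ) (Fin.castLE hnm i)).analyticAt _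
  have h2 : AnalyticAt ℂ h ((fun y : Fin m → ℂ => fun i : Fin n => y (Fin.castLE hnm i)) (r m a)) :=
    hf.1
  exact h2.comp h1

theorem LA.near {n : ℕ} {h : (Fin n → ℂ) → ℂ} {f : (ℕ → ℂ) → ℂ} (hf : LA a n h f) :
    ∀ᶠ x in 𝓝 a, LA x n h f := by
  have h1 : ∀ᶠ x in 𝓝 a, AnalyticAt ℂ h (r n x) :=
    (continuous_r n).continuousAt.eventually hf.1.eventually_analyticAt
  have h2 := hf.2.eventually_nhds
  filter_upwards [h1, h2] with x hx hx2
  exact ⟨hx, hx2⟩

/-- derivative in the `i`-th variable -/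
theorem LA.hasDerivAt {n : ℕ} {h : (Fin n → ℂ) → ℂ} {f : (ℕ → ℂ) → ℂ} (hf : LA a n h f)
    (i : ℕ) : HasDerivAt (fun z => f (Function.update a i z)) (fderiv ℂ h (r n a) (ev n i))
      (a i) := by
  have h1 : Tendsto (fun z => Function.update a i z) (𝓝 (a i)) (𝓝 a) := by
    have h2 : Continuous fun z => Function.update a i z := continuous_const.update i continuous_id
    have := h2.tendsto (a i)
    rwa [Function.update_eq_self] at this
  have h2 : (fun z => f (Function.update a i z)) =ᶠ[𝓝 (a i)]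
      fun z => h (r n (Function.update a i z)) := h1.eventually hf.2
  refine HasDerivAt.congr_of_eventuallyEq ?_ h2
  have h3 := hasDerivAt_r n i a (a i)
  have h4 : HasFDerivAt h (fderiv ℂ h (r n a)) (r n (Function.update a i (a i))) := by
    rw [Function.update_eq_self]
    exact hf.1.differentiableAt.hasFDerivAt
  exact h4.comp_hasDerivAt (a i) h3

theorem LA.pd_eq {n : ℕ} {h : (Fin n → ℂ) → ℂ} {f : (ℕ → ℂ) → ℂ} (hf : LA a n h f)
    (i : ℕ) : pd i f a = fderiv ℂ h (r n a) (ev n i) := (hf.hasDerivAt i).deriv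

theorem LA.pd {n : ℕ} {h : (Fin n → ℂ) → ℂ} {f : (ℕ → ℂ) → ℂ} (hf : LA a n h f)
    (i : ℕ) : LA a n (fun y => fderiv ℂ h y (ev n i)) (pd i f) := by
  refine ⟨?_, ?_⟩
  · have h1 := hf.1.fderiv
    exact ((ContinuousLinearMap.apply ℂ ℂ (ev n i)).analyticAt _).comp h1
  · filter_upwards [hf.near] with x hx
    exact hx.pd_eq i

theorem ev_eq_zero {n i : ℕ} (h : n ≤ i) : ev n i = 0 := by
  funext k
  simp only [ev, Pi.zero_apply]
  rw [if_neg]
  have := k.2
  omega

theorem LocAn.pd {f : (ℕ → ℂ) → ℂ} (hf : LocAn a f) (i : ℕ) : LocAn a (pd i f) := by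
  obtain ⟨n, h, H⟩ := hf
  exact ⟨n, _, LA.pd H i⟩

theorem LocAn.congr {f g : (ℕ → ℂ) → ℂ} (hf : LocAn a f) (h : f =ᶠ[𝓝 a] g) : LocAn a g := by
  obtain ⟨n, k, h1, h2⟩ := hf
  exact ⟨n, k, h1, h.symm.trans h2⟩

theorem LocAn.near {f : (ℕ → ℂ) → ℂ} (hf : LocAn a f) : ∀ᶠ x in 𝓝 a, LocAn x f := by
  obtain ⟨n, h, H⟩ := hf
  filter_upwards [LA.near H] with x hx
  exact ⟨n, h, hx⟩

theorem LocAn.two {f g : (ℕ → ℂ) → ℂ} (hf : LocAn a f) (hg : LocAn a g) :
    ∃ n h k, LA a n h f ∧ LA a n k g := by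
  obtain ⟨n, h, H⟩ := hf
  obtain ⟨m, k, K⟩ := hg
  exact ⟨max n m, _, _, LA.mono (le_max_left n m) H, LA.mono (le_max_right n m) K⟩

theorem LocAn.add {f g : (ℕ → ℂ) → ℂ} (hf : LocAn a f) (hg : LocAn a g) :
    LocAn a (f + g) := by
  obtain ⟨n, h, k, H, K⟩ := hf.two hg
  exact ⟨n, h + k, H.1.add K.1, H.2.add K.2⟩

theorem LocAn.mul {f g : (ℕ → ℂ) → ℂ} (hf : LocAn a f) (hg : LocAn a g) :
    LocAn a (f * g) := by
  obtain ⟨n, h, k, H, K⟩ := hf.two hg
  exact ⟨n, h * k, H.1.mul K.1, H.2.mul K.2⟩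

theorem LocAn.const (c : ℂ) : LocAn a (fun _ => c) :=
  ⟨0, fun _ => c, analyticAt_const, EventuallyEq.rfl⟩

/-- an analytic function of the `i`-th variable -/
theorem LocAn.coord (i : ℕ) {φ : ℂ → ℂ} (hφ : AnalyticAt ℂ φ (a i)) :
    LocAn a (fun x => φ (x i)) := by
  refine ⟨i + 1, fun y => φ (y ⟨i, Nat.lt_succ_self i⟩), ?_, EventuallyEq.rfl⟩
  have h1 : AnalyticAt ℂ (fun y : Fin (i + 1) → ℂ => y ⟨i, Nat.lt_succ_self i⟩) (r (i + 1) a) :=
    (ContinuousLinearMap.proj (R := ℂ) (φ := fun _ : Fin (i + 1) => ℂ)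
      ⟨i, Nat.lt_succ_self i⟩).analyticAt _
  have h2 : AnalyticAt ℂ φ ((fun y : Fin (i + 1) → ℂ => y ⟨i, Nat.lt_succ_self i⟩) (r (i + 1) a)) :=
    hφ
  exact AnalyticAt.comp (g := φ)
    (f := fun y : Fin (i + 1) → ℂ => y ⟨i, Nat.lt_succ_self i⟩) h2 h1

variable (a) in
/-- the algebra of locally analytic functions at `a` -/
def LAlg : Subalgebra ℂ ((ℕ → ℂ) → ℂ) where
  carrier := {f | LocAn a f}
  mul_mem' := fun hf hg => LocAn.mul hf hg
  add_mem' := fun hf hg => LocAn.add hf hg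
  algebraMap_mem' := fun c => LocAn.const c

variable (a) in
/-- the ideal of functions vanishing near `a` -/
def LIdeal : Ideal (LAlg a) where
  carrier := {f | (f : (ℕ → ℂ) → ℂ) =ᶠ[𝓝 a] 0}
  add_mem' := fun {f g} hf hg => by
    have := hf.add hg
    simpa using this
  zero_mem' := EventuallyEq.rfl
  smul_mem' := fun c f hf => by
    have : (c : (ℕ → ℂ) → ℂ) * (f : (ℕ → ℂ) → ℂ) =ᶠ[𝓝 a] c * 0 := EventuallyEq.rfl.mul hf
    simpa using this

variable (a) in
/-- germs at `a` -/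
abbrev Gm : Type := LAlg a ⧸ LIdeal a

/-- the germ of a function -/
def gm (f : (ℕ → ℂ) → ℂ) (hf : LocAn a f) : Gm a := Ideal.Quotient.mk (LIdeal a) ⟨f, hf⟩

theorem gm_eq {f g : (ℕ → ℂ) → ℂ} {hf : LocAn a f} {hg : LocAn a g} :
    gm f hf = gm g hg ↔ f =ᶠ[𝓝 a] g := by
  rw [gm, gm, Ideal.Quotient.eq]
  change (f - g) =ᶠ[𝓝 a] 0 ↔ _
  constructor
  · intro h
    filter_upwards [h] with x hx
    simpa [sub_eq_zero] using hx
  · intro h
    filter_upwards [h] with x hx
    simpa [sub_eq_zero] using hx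

theorem gm_surj (x : Gm a) : ∃ f hf, x = gm f hf := by
  obtain ⟨⟨f, hf⟩, rfl⟩ := Ideal.Quotient.mk_surjective x
  exact ⟨f, hf, rfl⟩

theorem gm_add {f g : (ℕ → ℂ) → ℂ} (hf : LocAn a f) (hg : LocAn a g) :
    gm f hf + gm g hg = gm (f + g) (hf.add hg) := rfl

theorem gm_mul {f g : (ℕ → ℂ) → ℂ} (hf : LocAn a f) (hg : LocAn a g) :
    gm f hf * gm g hg = gm (f * g) (hf.mul hg) := rfl

theorem gm_algebraMap (c : ℂ) : algebraMap ℂ (Gm a) c = gm (fun _ => c) (LocAn.const c) := rfl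

theorem LocAn.smul {f : (ℕ → ℂ) → ℂ} (hf : LocAn a f) (c : ℂ) : LocAn a (c • f) :=
  (LAlg a).smul_mem hf c

theorem gm_smul (c : ℂ) {f : (ℕ → ℂ) → ℂ} (hf : LocAn a f) :
    c • gm f hf = gm (c • f) (hf.smul c) := rfl

theorem gm_zero : (0 : Gm a) = gm (fun _ => 0) (LocAn.const 0) := rfl

theorem gm_one : (1 : Gm a) = gm (fun _ => 1) (LocAn.const 1) := rfl

theorem pd_congr {f g : (ℕ → ℂ) → ℂ} (h : f =ᶠ[𝓝 a] g) (i : ℕ) :
    pd i f =ᶠ[𝓝 a] pd i g := by
  filter_upwards [h.eventually_nhds] with x hx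
  have h1 : Tendsto (fun z => Function.update x i z) (𝓝 (x i)) (𝓝 x) := by
    have h2 : Continuous fun z => Function.update x i z := continuous_const.update i continuous_id
    have := h2.tendsto (x i)
    rwa [Function.update_eq_self] at this
  have h2 : (fun z => f (Function.update x i z)) =ᶠ[𝓝 (x i)]
      fun z => g (Function.update x i z) := h1.eventually hx
  exact h2.deriv_eq

theorem LocAn.hasDerivAt {f : (ℕ → ℂ) → ℂ} (hf : LocAn a f) (i : ℕ) :
    HasDerivAt (fun z => f (Function.update a i z)) (Pool.Agent.Work.MP_24478e_mp.pd i f a) (a i) := by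
  obtain ⟨n, h, H⟩ := hf
  have := LA.hasDerivAt H i
  rwa [← LA.pd_eq H i] at this

theorem pd_add {f g : (ℕ → ℂ) → ℂ} (hf : LocAn a f) (hg : LocAn a g) (i : ℕ) :
    pd i (f + g) =ᶠ[𝓝 a] pd i f + pd i g := by
  filter_upwards [hf.near, hg.near] with x hx hy
  exact ((hx.hasDerivAt i).add (hy.hasDerivAt i)).deriv

theorem pd_mul {f g : (ℕ → ℂ) → ℂ} (hf : LocAn a f) (hg : LocAn a g) (i : ℕ) :
    pd i (f * g) =ᶠ[𝓝 a] f * pd i g + g * pd i f := by
  filter_upwards [hf.near, hg.near] with x hx hy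
  have := ((hx.hasDerivAt i).mul (hy.hasDerivAt i)).deriv
  rw [Function.update_eq_self] at this
  refine this.trans ?_
  simp only [Pi.add_apply, Pi.mul_apply]
  ring

theorem pd_smul {f : (ℕ → ℂ) → ℂ} (hf : LocAn a f) (c : ℂ) (i : ℕ) :
    pd i (c • f) =ᶠ[𝓝 a] c • pd i f := by
  filter_upwards [hf.near] with x hx
  exact ((hx.hasDerivAt i).const_smul c).deriv

/-- representative -/
noncomputable def rep (x : Gm a) : (ℕ → ℂ) → ℂ := (gm_surj x).choose

theorem rep_mem (x : Gm a) : LocAn a (rep x) := (gm_surj x).choose_spec.choose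

theorem rep_spec (x : Gm a) : x = gm (rep x) (rep_mem x) := (gm_surj x).choose_spec.choose_spec

/-- partial derivative on germs -/
noncomputable def pdG0 (i : ℕ) (x : Gm a) : Gm a := gm (pd i (rep x)) ((rep_mem x).pd i)

theorem pdG0_gm (i : ℕ) {f : (ℕ → ℂ) → ℂ} (hf : LocAn a f) :
    pdG0 i (gm f hf) = gm (pd i f) (hf.pd i) := by
  rw [pdG0, gm_eq]
  refine pd_congr ?_ i
  exact gm_eq.mp (rep_spec (gm f hf)).symm

variable (a) in
noncomputable def pdG (i : ℕ) : Derivation ℂ (Gm a) (Gm a) :=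
  Derivation.mk'
    { toFun := pdG0 i
      map_add' := by
        intro x y
        obtain ⟨f, hf, rfl⟩ := gm_surj x
        obtain ⟨g, hg, rfl⟩ := gm_surj y
        rw [gm_add, pdG0_gm, pdG0_gm, pdG0_gm, gm_add, gm_eq]
        exact pd_add hf hg i
      map_smul' := by
        intro c x
        obtain ⟨f, hf, rfl⟩ := gm_surj x
        rw [gm_smul, pdG0_gm, pdG0_gm, RingHom.id_apply, gm_smul, gm_eq]
        exact pd_smul hf c i }
    (by
      intro x y
      obtain ⟨f, hf, rfl⟩ := gm_surj x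
      obtain ⟨g, hg, rfl⟩ := gm_surj y
      simp only [LinearMap.coe_mk, AddHom.coe_mk, smul_eq_mul]
      rw [gm_mul, pdG0_gm, pdG0_gm, pdG0_gm, gm_mul, gm_mul, gm_add, gm_eq]
      exact pd_mul hf hg i)

theorem pdG_gm (i : ℕ) {f : (ℕ → ℂ) → ℂ} (hf : LocAn a f) :
    pdG a i (gm f hf) = gm (pd i f) (hf.pd i) := pdG0_gm i hf

theorem pd_comm {f : (ℕ → ℂ) → ℂ} (hf : LocAn a f) (i j : ℕ) :
    pd i (pd j f) =ᶠ[𝓝 a] pd j (pd i f) := by
  obtain ⟨n, h, H⟩ := hf
  filter_upwards [LA.near H] with x hx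
  have key : ∀ i j, pd i (pd j f) x = fderiv ℂ (fderiv ℂ h) (r n x) (ev n i) (ev n j) := by
    intro i j
    rw [(hx.pd j).pd_eq i]
    have h1 : DifferentiableAt ℂ (fderiv ℂ h) (r n x) := hx.1.fderiv.differentiableAt
    have h2 := (h1.hasFDerivAt.clm_apply (hasFDerivAt_const (ev n j) (r n x))).fderiv
    rw [h2]
    simp
  rw [key, key]
  have h3 : IsSymmSndFDerivAt ℂ h (r n x) :=
    ContDiffAt.isSymmSndFDerivAt_of_omega hx.1.contDiffAt
  exact h3 _ _

/-- a function with vanishing derivatives in some directions is locally constant along them -/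
theorem const_along {n : ℕ} {h : (Fin n → ℂ) → ℂ} {c : Fin n → ℂ} (T : Set (Fin n))
    (hh : AnalyticAt ℂ h c) (h0 : ∀ᶠ y in 𝓝 c, ∀ i ∈ T, fderiv ℂ h y (Pi.single i 1) = 0) :
    ∃ ε > 0, ∀ y ∈ Metric.ball c ε, ∀ y' ∈ Metric.ball c ε, (∀ i, i ∉ T → y i = y' i) →
      h y = h y' := by
  obtain ⟨ε, hε, hb⟩ := Metric.eventually_nhds_iff_ball.mp (hh.eventually_analyticAt.and h0)
  refine ⟨ε, hε, fun y hy y' hy' hyy => ?_⟩
  set v := y' - y with hv
  set s : Set ℂ := {w | y + w • v ∈ Metric.ball c ε} with hs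
  have hcont : Continuous fun w : ℂ => y + w • v := by fun_prop
  have hso : IsOpen s := Metric.isOpen_ball.preimage hcont
  have hsc : Convex ℝ s := by
    intro w hw w' hw' p q hp hq hpq
    have h1 := (convex_ball c ε) hw hw' hp hq hpq
    have h2 : p • (y + w • v) + q • (y + w' • v) = y + (p • w + q • w') • v := by
      rw [smul_add, smul_add, add_add_add_comm, ← add_smul, hpq, one_smul, add_smul,
        smul_assoc, smul_assoc]
    rwa [h2] at h1
  have hder : ∀ w ∈ s, HasDerivAt (fun w => h (y + w • v)) 0 w := by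
    intro w hw
    have h1 : HasDerivAt (fun w : ℂ => y + w • v) v w := by
      have := ((hasDerivAt_id w).smul_const v).const_add y
      simpa using this
    have h2 := (hb _ hw).1.differentiableAt.hasFDerivAt.comp_hasDerivAt w h1
    have h3 : fderiv ℂ h (y + w • v) v = 0 := by
      have h4 : v = ∑ i, v i • (Pi.single i 1 : Fin n → ℂ) := by
        funext k
        simp [Finset.sum_apply, Pi.single_apply]
      rw [h4, map_sum]
      refine Finset.sum_eq_zero fun i _ => ?_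
      rw [map_smul]
      by_cases hi : i ∈ T
      · rw [← h4, (hb _ hw).2 i hi, smul_zero]
      · have : v i = 0 := by rw [hv, Pi.sub_apply, hyy i hi, sub_self]
        rw [this, zero_smul]
    rwa [h3] at h2
  have h0s : (0 : ℂ) ∈ s := by simpa [hs] using hy
  have h1s : (1 : ℂ) ∈ s := by
    simp only [hs, Set.mem_ofPred_eq, one_smul, hv, add_sub_cancel]
    exact hy'
  have := hso.is_const_of_deriv_eq_zero hsc.isPreconnected
    (f := fun w => h (y + w • v)) (fun w hw => (hder w hw).differentiableAt.differentiableWithinAt)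
    (fun w hw => (hder w hw).deriv) h0s h1s
  simpa [hv] using this

/-- section of the restriction map -/
def sec (a : ℕ → ℂ) (n : ℕ) (y : Fin n → ℂ) : ℕ → ℂ := fun i => if h : i < n then y ⟨i, h⟩ else a i

theorem r_sec (n : ℕ) (y : Fin n → ℂ) : r n (sec a n y) = y := by
  funext i
  simp [r, sec]

theorem sec_r (n : ℕ) : sec a n (r n a) = a := by
  funext i
  simp [r, sec]

theorem continuous_sec (n : ℕ) : Continuous (sec a n) := by
  refine continuous_pi fun i => ?_
  by_cases h : i < n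
  · simp only [sec, dif_pos h]
    exact continuous_apply _
  · simp only [sec, dif_neg h]
    exact continuous_const

theorem single_eq_ev {n : ℕ} (i : Fin n) : (Pi.single i 1 : Fin n → ℂ) = ev n i := by
  funext k
  simp only [ev, Pi.single_apply, Fin.ext_iff]

theorem LA.fderiv_eq_zero {n : ℕ} {h : (Fin n → ℂ) → ℂ} {f : (ℕ → ℂ) → ℂ} (H : LA a n h f)
    (i : Fin n) (h0 : Pool.Agent.Work.MP_24478e_mp.pd (i : ℕ) f =ᶠ[𝓝 a] 0) :
    ∀ᶠ y in 𝓝 (r n a), fderiv ℂ h y (Pi.single i 1) = 0 := by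
  have h1 : Tendsto (sec a n) (𝓝 (r n a)) (𝓝 a) := by
    have := (continuous_sec (a := a) n).tendsto (r n a)
    rwa [sec_r] at this
  filter_upwards [h1.eventually H.near, h1.eventually h0] with y hy hy0
  have := hy.pd_eq i
  rw [hy0, r_sec] at this
  rw [single_eq_ev, ← this]
  rfl

theorem const_of_pd {f : (ℕ → ℂ) → ℂ} (hf : LocAn a f) (h0 : ∀ i, pd i f =ᶠ[𝓝 a] 0) :
    ∃ c : ℂ, f =ᶠ[𝓝 a] fun _ => c := by
  obtain ⟨n, h, H⟩ := hf
  obtain ⟨ε, hε, hb⟩ := const_along Set.univ H.1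
    (eventually_all.mpr fun i => (LA.fderiv_eq_zero H i (h0 i)).mono fun _ h _ => h)
  refine ⟨h (r n a), ?_⟩
  have h1 : ∀ᶠ x in 𝓝 a, r n x ∈ Metric.ball (r n a) ε :=
    (continuous_r n).continuousAt.eventually (Metric.ball_mem_nhds _ hε)
  filter_upwards [H.2, h1] with x hx hx1
  rw [hx]
  exact hb _ hx1 _ (Metric.mem_ball_self hε) (by simp)

theorem prim_of_pd {f : (ℕ → ℂ) → ℂ} (hf : LocAn a f) (h0 : ∀ i, i ≠ 0 → pd i f =ᶠ[𝓝 a] 0) :
    ∃ g, LocAn a g ∧ (∀ i, i ≠ 0 → pd i g =ᶠ[𝓝 a] 0) ∧ pd 0 g =ᶠ[𝓝 a] f := by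
  obtain ⟨n', h', H'⟩ := hf
  have hn' : n' ≤ n' + 1 := Nat.le_succ n'
  obtain ⟨n, h, H⟩ : ∃ n, ∃ h : (Fin (n + 1) → ℂ) → ℂ, LA a (n + 1) h f :=
    ⟨n', _, LA.mono hn' H'⟩
  obtain ⟨ε, hε, hb⟩ := const_along {i : Fin (n + 1) | i ≠ 0} H.1
    (eventually_all.mpr fun i => by
      by_cases hi : i = 0
      · exact Eventually.of_forall fun _ h => absurd hi h
      · have : (i : ℕ) ≠ 0 := by
          intro h; exact hi (Fin.ext h)
        exact (LA.fderiv_eq_zero H i (h0 i this)).mono fun _ h _ => h)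
  -- the one-variable function
  set φ : ℂ → ℂ := fun z => h (Function.update (r (n + 1) a) 0 z) with hφ
  have hφa : AnalyticAt ℂ φ (a 0) := by
    have h1 : AnalyticAt ℂ (fun z : ℂ => Function.update (r (n + 1) a) 0 z) (a 0) := by
      rw [analyticAt_pi_iff]
      intro i
      by_cases hi : i = 0
      · subst hi; simp only [Function.update_self]; exact analyticAt_id
      · simp only [Function.update_of_ne hi]; exact analyticAt_const
    have h2 : AnalyticAt ℂ h ((fun z : ℂ => Function.update (r (n + 1) a) 0 z) (a 0)) := by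
      have : Function.update (r (n + 1) a) 0 (a 0) = r (n + 1) a := by
        have : a 0 = r (n + 1) a 0 := rfl
        rw [this, Function.update_eq_self]
      simp only [this]
      exact H.1
    exact AnalyticAt.comp (g := h) h2 h1
  have hf2 : f =ᶠ[𝓝 a] fun x => φ (x 0) := by
    have h1 : ∀ᶠ x in 𝓝 a, r (n + 1) x ∈ Metric.ball (r (n + 1) a) ε :=
      (continuous_r _).continuousAt.eventually (Metric.ball_mem_nhds _ hε)
    filter_upwards [H.2, h1] with x hx hx1
    rw [hx, hφ]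
    refine hb _ hx1 _ ?_ ?_
    · rw [Metric.mem_ball, dist_pi_lt_iff hε] at hx1 ⊢
      intro b
      by_cases hb : b = 0
      · subst hb
        simp only [Function.update_self]
        exact hx1 0
      · simp only [Function.update_of_ne hb, dist_self]
        exact hε
    · intro i hi
      have : i = 0 := by simpa using hi
      subst this
      simp [r]
  -- primitive
  obtain ⟨δ, hδ, hb2⟩ := Metric.eventually_nhds_iff_ball.mp hφa.eventually_analyticAt
  have hdiff : DifferentiableOn ℂ φ (Metric.ball (a 0) δ) :=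
    fun z hz => (hb2 z hz).differentiableAt.differentiableWithinAt
  obtain ⟨Ψ, hΨ⟩ := hdiff.isExactOn_ball
  have hΨa : AnalyticAt ℂ Ψ (a 0) := by
    have hd : DifferentiableOn ℂ Ψ (Metric.ball (a 0) δ) :=
      fun z hz => (hΨ z hz).differentiableAt.differentiableWithinAt
    exact hd.analyticAt (Metric.ball_mem_nhds _ hδ)
  refine ⟨fun x => Ψ (x 0), LocAn.coord 0 hΨa, ?_, ?_⟩
  · intro i hi
    refine Eventually.of_forall fun x => ?_
    simp only [pd, Function.update_of_ne (Ne.symm hi), deriv_const, Pi.zero_apply]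
  · refine EventuallyEq.trans ?_ hf2.symm
    have h1 : ∀ᶠ x in 𝓝 a, x 0 ∈ Metric.ball (a 0) δ :=
      (continuous_apply 0).continuousAt.eventually (Metric.ball_mem_nhds _ hδ)
    filter_upwards [h1] with x hx
    simp only [pd, Function.update_self]
    exact (hΨ _ hx).deriv

/-- coordinates -/
theorem LocAn_u (i : ℕ) : LocAn a (fun x => x i) := LocAn.coord i (φ := fun z => z) analyticAt_id

theorem pd_coord (i j : ℕ) (φ : ℂ → ℂ) (x : ℕ → ℂ) :
    pd i (fun x => φ (x j)) x = if i = j then deriv φ (x j) else 0 := by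
  by_cases h : i = j
  · subst h
    simp [pd]
  · rw [if_neg h]
    simp only [pd, Function.update_of_ne (Ne.symm h), deriv_const]

/-- germs of locally analytic functions form a jet algebra -/
noncomputable def JG (ha : a 1 ≠ 0) : JetAlg (Gm a) where
  pd := pdG a
  comm := by
    intro i j x
    obtain ⟨f, hf, rfl⟩ := gm_surj x
    rw [pdG_gm, pdG_gm, pdG_gm, pdG_gm, gm_eq]
    exact pd_comm hf i j
  u := fun i => gm (fun x => x i) (LocAn_u i)
  pd_u := by
    intro i j
    rw [pdG_gm]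
    split_ifs with h
    · rw [gm_one, gm_eq]
      refine Eventually.of_forall fun x => ?_
      rw [pd_coord i j (fun z => z), if_pos h]
      simp
    · rw [gm_zero, gm_eq]
      refine Eventually.of_forall fun x => ?_
      rw [pd_coord i j (fun z => z), if_neg h]
  fin := by
    intro x
    obtain ⟨f, hf, rfl⟩ := gm_surj x
    have hf' := hf
    obtain ⟨n, h, H⟩ := hf'
    refine ⟨n, fun i hi => ?_⟩
    rw [pdG_gm, gm_zero, gm_eq]
    filter_upwards [LA.near H] with y hy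
    rw [hy.pd_eq, ev_eq_zero hi, map_zero]
  const := by
    intro x hx
    obtain ⟨f, hf, rfl⟩ := gm_surj x
    obtain ⟨c, hc⟩ := const_of_pd hf fun i => by
      have := hx i
      rw [pdG_gm, gm_zero, gm_eq] at this
      exact this
    exact ⟨c, by rw [gm_algebraMap, gm_eq]; exact hc⟩
  q := gm (fun x => (x 1)⁻¹) (LocAn.coord 1 (φ := fun z => z⁻¹) (analyticAt_id.inv ha))
  uq := by
    rw [gm_mul, gm_one, gm_eq]
    have h1 : ∀ᶠ x in 𝓝 a, x 1 ≠ 0 :=
      (continuous_apply 1).continuousAt.eventually (isOpen_ne.mem_nhds ha)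
    filter_upwards [h1] with x hx
    simp [hx]
  L := gm (fun x => Complex.log (x 1 / a 1)) (LocAn.coord 1 (φ := fun z => Complex.log (z / a 1))
    (by
      refine AnalyticAt.clog ?_ ?_
      · exact analyticAt_id.div analyticAt_const ha
      · rw [div_self ha]; exact Complex.one_mem_slitPlane))
  pd_L := by
    intro i
    rw [pdG_gm]
    split_ifs with h
    · rw [gm_eq]
      have h1 : ∀ᶠ x in 𝓝 a, x 1 / a 1 ∈ Complex.slitPlane := by
        have h2 : ContinuousAt (fun x : ℕ → ℂ => x 1 / a 1) a :=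
          (continuous_apply 1).continuousAt.div_const _
        refine h2.eventually (Complex.isOpen_slitPlane.mem_nhds ?_)
        dsimp only
        rw [div_self ha]; exact Complex.one_mem_slitPlane
      filter_upwards [h1] with x hx
      rw [pd_coord i 1 (fun z => Complex.log (z / a 1)), if_pos h]
      have h3 := ((hasDerivAt_id' (x 1)).div_const (a 1)).clog hx
      rw [h3.deriv]
      have hx1 : x 1 ≠ 0 := by
        rintro h0
        rw [h0, zero_div] at hx
        exact Complex.zero_notMem_slitPlane hx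
      field_simp
    · rw [gm_zero, gm_eq]
      refine Eventually.of_forall fun x => ?_
      rw [pd_coord i 1 (fun z => Complex.log (z / a 1)), if_neg h]
  prim := by
    intro x hx
    obtain ⟨f, hf, rfl⟩ := gm_surj x
    obtain ⟨g, hg, h1, h2⟩ := prim_of_pd hf fun i hi => by
      have := hx i hi
      rw [pdG_gm, gm_zero, gm_eq] at this
      exact this
    refine ⟨gm g hg, fun i hi => ?_, ?_⟩
    · rw [pdG_gm, gm_zero, gm_eq]; exact h1 i hi
    · rw [pdG_gm, gm_eq]; exact h2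
  inj := by
    intro c d h
    rw [gm_algebraMap, gm_algebraMap, gm_eq] at h
    exact h.eq_of_nhds

end Pool.Agent.Work.MP_24478e_mp
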