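import Mathlib

/-!
# Abstract algebra of differential functions
-/

namespace Pool.Agent.Work.MP_24478e_mp.KN

open Finset

/-- An abstract algebra of functions of finitely many jet variables `u 0, u 1, …`
on a domain on which `u 1` is invertible. -/
structure JetAlg (K : Type*) [CommRing K] [Algebra ℂ K] where
  pd : ℕ → Derivation ℂ K K
  comm : ∀ i j f, pd i (pd j f) = pd j (pd i f)
  u : ℕ → K
  pd_u : ∀ i j, pd i (u j) = if i = j then 1 else 0
  fin : ∀ f, ∃ n, ∀ i, n ≤ i → pd i f = 0
  const : ∀ f, (∀ i, pd i f = 0) → ∃ c : ℂ, f = algebraMap ℂ K c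
  q : K
  uq : u 1 * q = 1
  L : K
  pd_L : ∀ i, pd i L = if i = 1 then q else 0
  prim : ∀ f, (∀ i, i ≠ 0 → pd i f = 0) → ∃ h, (∀ i, i ≠ 0 → pd i h = 0) ∧ pd 0 h = f
  inj : Function.Injective (algebraMap ℂ K)

variable {K : Type*} [CommRing K] [Algebra ℂ K] (J : JetAlg K)

namespace JetAlg

/-- `f` depends only on `u 0, …, u (n-1)`. -/
def Ord (n : ℕ) (f : K) : Prop := ∀ i, n ≤ i → J.pd i f = 0

theorem exists_ord (f : K) : ∃ n, J.Ord n f := J.fin f

variable {J}

theorem Ord.mono {n m : ℕ} {f : K} (h : J.Ord n f) (hnm : n ≤ m) : J.Ord m f :=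
  fun i hi => h i (hnm.trans hi)

theorem Ord.add {n : ℕ} {f g : K} (hf : J.Ord n f) (hg : J.Ord n g) : J.Ord n (f + g) := by
  intro i hi
  rw [map_add, hf i hi, hg i hi, add_zero]

theorem Ord.sub {n : ℕ} {f g : K} (hf : J.Ord n f) (hg : J.Ord n g) : J.Ord n (f - g) := by
  intro i hi
  rw [map_sub, hf i hi, hg i hi, sub_zero]

theorem Ord.neg {n : ℕ} {f : K} (hf : J.Ord n f) : J.Ord n (-f) := by
  intro i hi
  rw [map_neg, hf i hi, neg_zero]

theorem Ord.mul {n : ℕ} {f g : K} (hf : J.Ord n f) (hg : J.Ord n g) : J.Ord n (f * g) := by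
  intro i hi
  rw [Derivation.leibniz, hf i hi, hg i hi, smul_zero, smul_zero, add_zero]

theorem Ord.smul {n : ℕ} {f : K} (c : ℂ) (hf : J.Ord n f) : J.Ord n (c • f) := by
  intro i hi
  rw [Derivation.map_smul, hf i hi, smul_zero]

theorem Ord.pow {n : ℕ} {f : K} (hf : J.Ord n f) (k : ℕ) : J.Ord n (f ^ k) := by
  intro i hi
  rw [Derivation.leibniz_pow, hf i hi, smul_zero, smul_zero]

theorem Ord.pd {n : ℕ} {f : K} (hf : J.Ord n f) (j : ℕ) : J.Ord n (J.pd j f) := by
  intro i hi
  rw [J.comm, hf i hi, map_zero]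

theorem ord_zero (n : ℕ) : J.Ord n (0 : K) := fun _ _ => map_zero _

theorem ord_one (n : ℕ) : J.Ord n (1 : K) := fun i _ => by
  simp

theorem ord_algebraMap (n : ℕ) (c : ℂ) : J.Ord n (algebraMap ℂ K c) := fun i _ => by
  simp

theorem ord_natCast (n : ℕ) (c : ℕ) : J.Ord n (c : K) := fun i _ => by
  simp

theorem ord_ofNat (n : ℕ) (c : ℕ) [c.AtLeastTwo] : J.Ord n (OfNat.ofNat c : K) :=
  ord_natCast (J := J) n c

theorem ord_u (j : ℕ) : J.Ord (j + 1) (J.u j) := fun i hi => by
  rw [J.pd_u, if_neg (by omega)]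

theorem ord_u' {j n : ℕ} (h : j < n) : J.Ord n (J.u j) := (ord_u j).mono h

theorem Ord.sum {ι : Type*} {n : ℕ} (s : Finset ι) (f : ι → K) (h : ∀ i ∈ s, J.Ord n (f i)) :
    J.Ord n (∑ i ∈ s, f i) := by
  intro i hi
  rw [map_sum]
  exact Finset.sum_eq_zero fun j hj => h j hj i hi

variable (J)

/-- Subalgebra of functions of order `< n`. -/
def ordAlg (n : ℕ) : Subalgebra ℂ K where
  carrier := {f | J.Ord n f}
  mul_mem' := fun ha hb => Ord.mul ha hb
  add_mem' := fun ha hb => Ord.add ha hb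
  algebraMap_mem' := fun c => ord_algebraMap n c

theorem mem_ordAlg {n : ℕ} {f : K} : f ∈ J.ordAlg n ↔ J.Ord n f := Iff.rfl

theorem support_fin (c : ℕ → K) (f : K) :
    (Function.support fun i => c i * J.pd i f).Finite := by
  obtain ⟨n, hn⟩ := J.fin f
  refine (Finset.range n).finite_toSet.subset ?_
  intro i hi
  rw [Finset.mem_coe, Finset.mem_range]
  by_contra h
  exact hi (by simp [hn i (not_lt.mp h)])

theorem finsum_eq {n : ℕ} (c : ℕ → K) {f : K} (hf : J.Ord n f) :
    ∑ᶠ i, c i * J.pd i f = ∑ i ∈ range n, c i * J.pd i f := by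
  refine finsum_eq_sum_of_support_subset _ ?_
  intro i hi
  rw [Finset.mem_coe, Finset.mem_range]
  by_contra h
  exact hi (by simp [hf i (not_lt.mp h)])

/-- The vector field `∑ c i ∂/∂u_i`. -/
noncomputable def VF (c : ℕ → K) : Derivation ℂ K K :=
  Derivation.mk'
    { toFun := fun f => ∑ᶠ i, c i * J.pd i f
      map_add' := by
        intro f g
        rw [← finsum_add_distrib (J.support_fin c f) (J.support_fin c g)]
        exact finsum_congr fun i => by rw [map_add, mul_add]
      map_smul' := by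
        intro r f
        rw [RingHom.id_apply, smul_finsum' r (J.support_fin c f)]
        exact finsum_congr fun i => by rw [Derivation.map_smul, mul_smul_comm] }
    (by
      intro f g
      simp only [LinearMap.coe_mk, AddHom.coe_mk, smul_eq_mul]
      rw [mul_finsum' _ _ (J.support_fin c g), mul_finsum' _ _ (J.support_fin c f),
        ← finsum_add_distrib]
      · exact finsum_congr fun i => by
          rw [Derivation.leibniz, smul_eq_mul, smul_eq_mul]; ring
      · refine (J.support_fin c g).subset ?_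
        intro i hi h0
        exact hi (by simp only [h0, mul_zero])
      · refine (J.support_fin c f).subset ?_
        intro i hi h0
        exact hi (by simp only [h0, mul_zero]))

theorem VF_eq (c : ℕ → K) (f : K) : J.VF c f = ∑ᶠ i, c i * J.pd i f := rfl

theorem VF_sum {n : ℕ} (c : ℕ → K) {f : K} (hf : J.Ord n f) :
    J.VF c f = ∑ i ∈ range n, c i * J.pd i f := by
  rw [VF_eq, finsum_eq J c hf]

theorem VF_u (c : ℕ → K) (j : ℕ) : J.VF c (J.u j) = c j := by
  rw [VF_eq, finsum_eq_single _ j]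
  · rw [J.pd_u, if_pos rfl, mul_one]
  · intro i hi
    rw [J.pd_u, if_neg hi, mul_zero]

theorem VF_congr {c d : ℕ → K} (h : ∀ i, c i = d i) (f : K) : J.VF c f = J.VF d f := by
  rw [VF_eq, VF_eq]
  exact finsum_congr fun i => by rw [h i]

theorem VF_single (j : ℕ) (f : K) : J.VF (fun i => if i = j then 1 else 0) f = J.pd j f := by
  rw [VF_eq, finsum_eq_single _ j]
  · rw [if_pos rfl, one_mul]
  · intro i hi
    rw [if_neg hi, zero_mul]

theorem VF_zero (f : K) : J.VF (fun _ => 0) f = 0 := by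
  rw [VF_eq]
  simp

theorem VF_add (c d : ℕ → K) (f : K) :
    J.VF (fun i => c i + d i) f = J.VF c f + J.VF d f := by
  rw [VF_eq, VF_eq, VF_eq, ← finsum_add_distrib (J.support_fin c f) (J.support_fin d f)]
  exact finsum_congr fun i => by rw [add_mul]

theorem VF_sub (c d : ℕ → K) (f : K) :
    J.VF (fun i => c i - d i) f = J.VF c f - J.VF d f := by
  rw [VF_eq, VF_eq, VF_eq, ← finsum_sub_distrib (J.support_fin c f) (J.support_fin d f)]
  exact finsum_congr fun i => by rw [sub_mul]

theorem VF_mul (b : K) (c : ℕ → K) (f : K) :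
    J.VF (fun i => b * c i) f = b * J.VF c f := by
  rw [VF_eq, VF_eq, mul_finsum' _ _ (J.support_fin c f)]
  exact finsum_congr fun i => by rw [mul_assoc]

/-- Commutator of two vector fields. -/
theorem VF_comm (c d : ℕ → K) (f : K) :
    J.VF c (J.VF d f) - J.VF d (J.VF c f) = J.VF (fun i => J.VF c (d i) - J.VF d (c i)) f := by
  obtain ⟨n, hn⟩ := J.exists_ord f
  have e1 : ∀ c d : ℕ → K, J.VF c (J.VF d f) =
      ∑ i ∈ range n, J.VF c (d i) * J.pd i f +
        ∑ i ∈ range n, ∑ j ∈ range n, d i * c j * J.pd j (J.pd i f) := by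
    intro c d
    rw [J.VF_sum d hn, map_sum, ← Finset.sum_add_distrib]
    refine Finset.sum_congr rfl fun i _ => ?_
    rw [Derivation.leibniz, smul_eq_mul, smul_eq_mul, J.VF_sum c (Ord.pd hn i), Finset.mul_sum]
    rw [add_comm, mul_comm (J.pd i f)]
    congr 1
    exact Finset.sum_congr rfl fun j _ => by ring
  rw [e1 c d, e1 d c, J.VF_sum _ hn]
  have e2 : ∑ i ∈ range n, ∑ j ∈ range n, d i * c j * J.pd j (J.pd i f) =
      ∑ i ∈ range n, ∑ j ∈ range n, c i * d j * J.pd j (J.pd i f) := by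
    rw [Finset.sum_comm]
    refine Finset.sum_congr rfl fun i _ => Finset.sum_congr rfl fun j _ => ?_
    rw [J.comm i j]; ring
  rw [e2, add_sub_add_right_eq_sub, ← Finset.sum_sub_distrib]
  exact Finset.sum_congr rfl fun i _ => by rw [sub_mul]

theorem pd_VF (j : ℕ) (c : ℕ → K) (f : K) :
    J.pd j (J.VF c f) = J.VF c (J.pd j f) + J.VF (fun i => J.pd j (c i)) f := by
  have h := J.VF_comm (fun i => if i = j then 1 else 0) c f
  rw [VF_single, VF_single] at h
  have h2 : J.VF (fun i => J.VF (fun i => if i = j then (1 : K) else 0) (c i) -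
      J.VF c (if i = j then 1 else 0)) f = J.VF (fun i => J.pd j (c i)) f := by
    refine J.VF_congr (fun i => ?_) f
    rw [VF_single]
    split_ifs <;> simp
  rw [h2] at h
  rw [← h]; ring

/-! ### total derivative -/

/-- The total derivative. -/
noncomputable def D : Derivation ℂ K K := J.VF fun i => J.u (i + 1)

/-- The evolutionary vector field with characteristic `h`. -/
noncomputable def X (h : K) : Derivation ℂ K K := J.VF fun i => J.D^[i] h

/-- The weight operator. -/
noncomputable def W : Derivation ℂ K K := J.VF fun i => (i : K) * J.u i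

theorem D_u (j : ℕ) : J.D (J.u j) = J.u (j + 1) := J.VF_u _ j

theorem X_u (h : K) (j : ℕ) : J.X h (J.u j) = J.D^[j] h := J.VF_u _ j

theorem W_u (j : ℕ) : J.W (J.u j) = (j : K) * J.u j := J.VF_u _ j

theorem pd_D_succ (j : ℕ) (f : K) : J.pd (j + 1) (J.D f) = J.D (J.pd (j + 1) f) + J.pd j f := by
  rw [D, pd_VF]
  congr 1
  rw [← J.VF_single j f]
  refine J.VF_congr (fun i => ?_) f
  rw [J.pd_u]
  by_cases h : i = j
  · simp [h]
  · rw [if_neg h, if_neg (by omega)]

theorem pd_D_zero (f : K) : J.pd 0 (J.D f) = J.D (J.pd 0 f) := by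
  rw [D, pd_VF]
  have : J.VF (fun i => J.pd 0 (J.u (i + 1))) f = 0 := by
    rw [← J.VF_zero f]
    refine J.VF_congr (fun i => ?_) f
    rw [J.pd_u, if_neg (by omega)]
  rw [this, add_zero]

theorem X_D (h f : K) : J.X h (J.D f) = J.D (J.X h f) := by
  have h1 := J.VF_comm (fun i => J.D^[i] h) (fun i => J.u (i + 1)) f
  have h2 : J.VF (fun i => J.VF (fun i => J.D^[i] h) (J.u (i + 1)) -
      J.VF (fun i => J.u (i + 1)) (J.D^[i] h)) f = 0 := by
    rw [← J.VF_zero f]
    refine J.VF_congr (fun i => ?_) f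
    rw [J.VF_u, sub_eq_zero, Function.iterate_succ_apply']
    rfl
  rw [h2] at h1
  exact sub_eq_zero.mp h1

theorem X_D_iter (h f : K) (i : ℕ) : J.X h (J.D^[i] f) = J.D^[i] (J.X h f) := by
  induction i with
  | zero => rfl
  | succ i ih => rw [Function.iterate_succ_apply', Function.iterate_succ_apply', X_D, ih]

theorem D_iter_add (i : ℕ) (f g : K) : J.D^[i] (f + g) = J.D^[i] f + J.D^[i] g := by
  induction i with
  | zero => rfl
  | succ i ih => rw [Function.iterate_succ_apply', ih, map_add,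
      Function.iterate_succ_apply', Function.iterate_succ_apply']

theorem D_iter_sub (i : ℕ) (f g : K) : J.D^[i] (f - g) = J.D^[i] f - J.D^[i] g := by
  induction i with
  | zero => rfl
  | succ i ih => rw [Function.iterate_succ_apply', ih, map_sub,
      Function.iterate_succ_apply', Function.iterate_succ_apply']

theorem D_iter_zero (i : ℕ) : J.D^[i] (0 : K) = 0 := by
  induction i with
  | zero => rfl
  | succ i ih => rw [Function.iterate_succ_apply', ih, map_zero]

theorem D_iter_neg (i : ℕ) (f : K) : J.D^[i] (-f) = - J.D^[i] f := by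
  induction i with
  | zero => rfl
  | succ i ih => rw [Function.iterate_succ_apply', ih, map_neg,
      Function.iterate_succ_apply']

theorem D_iter_smul (i : ℕ) (c : ℂ) (f : K) : J.D^[i] (c • f) = c • J.D^[i] f := by
  induction i with
  | zero => rfl
  | succ i ih => rw [Function.iterate_succ_apply', ih, Derivation.map_smul,
      Function.iterate_succ_apply']

theorem D_iter_u (i j : ℕ) : J.D^[i] (J.u j) = J.u (j + i) := by
  induction i with
  | zero => rfl
  | succ i ih => rw [Function.iterate_succ_apply', ih, D_u, add_assoc]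

theorem X_comm (h k f : K) :
    J.X h (J.X k f) - J.X k (J.X h f) = J.X (J.X h k - J.X k h) f := by
  have h1 := J.VF_comm (fun i => J.D^[i] h) (fun i => J.D^[i] k) f
  refine h1.trans (J.VF_congr (fun i => ?_) f)
  rw [D_iter_sub, ← X_D_iter, ← X_D_iter]
  rfl

theorem X_add_left (h k f : K) : J.X (h + k) f = J.X h f + J.X k f := by
  rw [X, X, X, ← VF_add]
  exact J.VF_congr (fun i => J.D_iter_add i h k) f

theorem X_sub_left (h k f : K) : J.X (h - k) f = J.X h f - J.X k f := by
  rw [X, X, X, ← VF_sub]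
  exact J.VF_congr (fun i => J.D_iter_sub i h k) f

theorem X_zero_left (f : K) : J.X 0 f = 0 := by
  rw [X]
  exact (J.VF_congr (fun i => J.D_iter_zero i) f).trans (J.VF_zero f)

theorem X_neg_left (h f : K) : J.X (-h) f = - J.X h f := by
  have := J.X_add_left h (-h) f
  rw [add_neg_cancel, X_zero_left] at this
  exact (neg_eq_of_add_eq_zero_right this.symm).symm

theorem X_smul_left (c : ℂ) (h f : K) : J.X (c • h) f = c • J.X h f := by
  rw [Algebra.smul_def, Algebra.smul_def, X, X, ← VF_mul]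
  refine J.VF_congr (fun i => ?_) f
  rw [← Algebra.smul_def, ← Algebra.smul_def, D_iter_smul]

theorem X_u1 (f : K) : J.X (J.u 1) f = J.D f := by
  refine J.VF_congr (fun i => ?_) f
  rw [D_iter_u, add_comm]

theorem W_D (f : K) : J.W (J.D f) = J.D (J.W f) + J.D f := by
  have h1 := J.VF_comm (fun i => (i : K) * J.u i) (fun i => J.u (i + 1)) f
  have h2 : J.VF (fun i => J.VF (fun i => (i : K) * J.u i) (J.u (i + 1)) -
      J.VF (fun i => J.u (i + 1)) ((i : K) * J.u i)) f = J.D f := by
    refine J.VF_congr (fun i => ?_) f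
    rw [J.VF_u, Derivation.leibniz, J.VF_u, Derivation.map_natCast, smul_zero, add_zero,
      smul_eq_mul]
    push_cast; ring
  rw [h2] at h1
  change J.W (J.D f) - J.D (J.W f) = J.D f at h1
  rw [← sub_eq_iff_eq_add']
  exact h1

theorem W_D_iter (i : ℕ) (f : K) : J.W (J.D^[i] f) = J.D^[i] (J.W f) + (i : K) * J.D^[i] f := by
  induction i with
  | zero => simp
  | succ i ih =>
    rw [Function.iterate_succ_apply', Function.iterate_succ_apply', W_D, ih, map_add,
      Derivation.leibniz, Derivation.map_natCast, smul_zero, add_zero, smul_eq_mul]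
    push_cast; ring

theorem pd_W (j : ℕ) (f : K) : J.pd j (J.W f) = J.W (J.pd j f) + (j : K) * J.pd j f := by
  rw [W, pd_VF]
  congr 1
  rw [← J.VF_single j f, ← VF_mul]
  refine J.VF_congr (fun i => ?_) f
  rw [Derivation.leibniz, J.pd_u, Derivation.map_natCast, smul_zero, add_zero, smul_eq_mul]
  by_cases h : i = j
  · simp [h]
  · rw [if_neg h, if_neg (by omega), mul_zero, mul_zero]

theorem W_pd (j : ℕ) (f : K) : J.W (J.pd j f) = J.pd j (J.W f) - (j : K) * J.pd j f := by
  rw [pd_W]; ring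

theorem W_X (h f : K) : J.W (J.X h f) = J.X h (J.W f) + J.X (J.W h) f := by
  have h1 := J.VF_comm (fun i => (i : K) * J.u i) (fun i => J.D^[i] h) f
  have h2 : J.VF (fun i => J.VF (fun i => (i : K) * J.u i) (J.D^[i] h) -
      J.VF (fun i => J.D^[i] h) ((i : K) * J.u i)) f = J.X (J.W h) f := by
    refine J.VF_congr (fun i => ?_) f
    rw [Derivation.leibniz, J.VF_u, Derivation.map_natCast, smul_zero, add_zero,
      smul_eq_mul]
    change J.W (J.D^[i] h) - _ = _
    rw [W_D_iter]
    ring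
  rw [h2] at h1
  change J.W (J.X h f) - J.X h (J.W f) = J.X (J.W h) f at h1
  rw [← sub_eq_iff_eq_add']
  exact h1

/-! ### order -/

variable {J}

theorem Ord.D {n : ℕ} {f : K} (hf : J.Ord n f) : J.Ord (n + 1) (J.D f) := by
  intro i hi
  obtain ⟨j, rfl⟩ : ∃ j, i = j + 1 := ⟨i - 1, by omega⟩
  rw [pd_D_succ, hf _ (by omega), hf _ (by omega), map_zero, add_zero]

theorem Ord.D' {n m : ℕ} {f : K} (hf : J.Ord n f) (h : n + 1 ≤ m) : J.Ord m (J.D f) :=
  hf.D.mono h

theorem Ord.D_iter {n : ℕ} {f : K} (hf : J.Ord n f) (i : ℕ) : J.Ord (n + i) (J.D^[i] f) := by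
  induction i with
  | zero => exact hf
  | succ i ih =>
    rw [Function.iterate_succ_apply', ← add_assoc]
    exact ih.D

/-- If `D f` has order `< n + 1` then `f` has order `< n`. -/
theorem ord_of_D {n : ℕ} {f : K} (h : J.Ord (n + 1) (J.D f)) : J.Ord n f := by
  obtain ⟨m, hm⟩ := J.exists_ord f
  induction m with
  | zero => exact hm.mono (Nat.zero_le _)
  | succ m ih =>
    by_cases hmn : m + 1 ≤ n
    · exact hm.mono hmn
    · refine ih ?_
      intro i hi
      rcases Nat.eq_or_lt_of_le hi with rfl | hi'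
      · have h1 := h (m + 1) (by omega)
        rw [pd_D_succ, hm _ le_rfl, map_zero, zero_add] at h1
        exact h1
      · exact hm i hi'

theorem const_of_ord_zero {f : K} (h : J.Ord 0 f) : ∃ c : ℂ, f = algebraMap ℂ K c :=
  J.const f fun i => h i (Nat.zero_le _)

theorem const_of_D_eq_zero {f : K} (h : J.D f = 0) : ∃ c : ℂ, f = algebraMap ℂ K c := by
  refine const_of_ord_zero (J := J) (ord_of_D ?_)
  rw [h]; exact ord_zero _

/-- If `D f` has order `< 1` then `D f = 0`. -/
theorem D_eq_zero_of_ord_one {f : K} (h : J.Ord 1 (J.D f)) : J.D f = 0 := by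
  obtain ⟨c, rfl⟩ := const_of_ord_zero (J := J) (ord_of_D (n := 0) h)
  simp

theorem pd_D_of_ord {n : ℕ} {f : K} (h : J.Ord (n + 1) f) : J.pd (n + 1) (J.D f) = J.pd n f := by
  rw [pd_D_succ, h _ le_rfl, map_zero, zero_add]

theorem pd_D_iter_of_ord {n : ℕ} {f : K} (h : J.Ord (n + 1) f) (i : ℕ) :
    J.pd (n + i) (J.D^[i] f) = J.pd n f := by
  induction i with
  | zero => rfl
  | succ i ih =>
    rw [Function.iterate_succ_apply', ← add_assoc, pd_D_of_ord, ih]
    have := h.D_iter i
    rwa [show n + 1 + i = n + i + 1 by ring] at this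

theorem Ord.X {n m : ℕ} {f h : K} (hf : J.Ord n f) (hh : J.Ord m h) : J.Ord (n + m) (J.X h f) := by
  rw [JetAlg.X, J.VF_sum _ hf]
  refine Ord.sum _ _ fun i hi => ?_
  rw [Finset.mem_range] at hi
  exact ((hh.D_iter i).mono (by omega)).mul ((hf.pd i).mono (by omega))

theorem Ord.W {n : ℕ} {f : K} (hf : J.Ord n f) : J.Ord n (J.W f) := by
  intro i hi
  rw [pd_W, hf i hi]; simp

variable (J)

theorem X_sum {n : ℕ} (h : K) {f : K} (hf : J.Ord n f) :
    J.X h f = ∑ i ∈ range n, J.D^[i] h * J.pd i f := J.VF_sum _ hf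

theorem D_sum {n : ℕ} {f : K} (hf : J.Ord n f) :
    J.D f = ∑ i ∈ range n, J.u (i + 1) * J.pd i f := J.VF_sum _ hf

theorem W_sum {n : ℕ} {f : K} (hf : J.Ord n f) :
    J.W f = ∑ i ∈ range n, (i : K) * J.u i * J.pd i f := J.VF_sum _ hf

theorem D_natCast_mul (n : ℕ) (f : K) : J.D ((n : K) * f) = n * J.D f := by
  rw [Derivation.leibniz, Derivation.map_natCast, smul_zero, add_zero, smul_eq_mul]

theorem D_mul (f g : K) : J.D (f * g) = J.D f * g + f * J.D g := by
  rw [Derivation.leibniz, smul_eq_mul, smul_eq_mul]; ring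

theorem X_mul (h f g : K) : J.X h (f * g) = J.X h f * g + f * J.X h g := by
  rw [Derivation.leibniz, smul_eq_mul, smul_eq_mul]; ring

theorem W_mul (f g : K) : J.W (f * g) = J.W f * g + f * J.W g := by
  rw [Derivation.leibniz, smul_eq_mul, smul_eq_mul]; ring

theorem pd_mul (i : ℕ) (f g : K) : J.pd i (f * g) = J.pd i f * g + f * J.pd i g := by
  rw [Derivation.leibniz, smul_eq_mul, smul_eq_mul]; ring

theorem D_algebraMap (c : ℂ) : J.D (algebraMap ℂ K c) = 0 := Derivation.map_algebraMap _ c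

end JetAlg

end Pool.Agent.Work.MP_24478e_mp.KN
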