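import Pool.Agent.Work.MP_24478e_mp.Cosym

/-!
# The odd part of a cosymmetry
-/

namespace Pool.Agent.Work.MP_24478e_mp.KN

open Finset

variable {K : Type*} [CommRing K] [Algebra ℂ K] (J : JetAlg K)

namespace JetAlg

/-! ### weights of the basic objects -/

variable {J} in
theorem W_p : J.W (J.u 1) = J.u 1 := by rw [W_u]; simp

variable {J} in
theorem W_ofNat (n : ℕ) [n.AtLeastTwo] : J.W (no_index (OfNat.ofNat n) : K) = 0 :=
  Derivation.map_natCast J.W n

variable {J} in
theorem W_hf : J.W (hf K) = 0 := Derivation.map_algebraMap _ _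

variable {J} in
theorem W_sq (x : K) : J.W (x ^ 2) = 2 * x * J.W x := by
  rw [pow_two, W_mul]; ring

theorem W_y0 : J.W (J.y 0) = J.y 0 := by
  rw [y_zero, W_mul, W_u, W_q]; push_cast; ring

theorem W_y1 : J.W (J.y 1) = 2 * J.y 1 := by
  rw [← D_y, W_D, W_y0]; ring

theorem W_S : J.W J.S = 2 * J.S := by
  rw [S, map_sub, W_mul, W_hf, W_sq, W_y0, W_y1]; ring

/-- integers of the same parity as `e` -/
def Pty (e : ℤ) : Set ℤ := {z | Even (z + e)}

theorem Pty_congr {e e' : ℤ} (h : Even (e - e')) : Pty e = Pty e' := by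
  ext z
  simp only [Pty, Set.mem_setOf_eq]
  constructor
  · intro h1
    have : z + e' = (z + e) - (e - e') := by ring
    rw [this]; exact h1.sub h
  · intro h1
    have : z + e = (z + e') + (e - e') := by ring
    rw [this]; exact h1.add h

theorem zero_mem_Pty {e : ℤ} (he : Even e) : (0 : ℤ) ∈ Pty e := by
  simpa [Pty] using he

theorem Pty_disj {e e' : ℤ} (h : ¬ Even (e - e')) : ∀ k ∈ Pty e, k ∉ Pty e' := by
  intro k hk hk'
  refine h ?_
  have := hk.sub hk'
  have e1 : k + e - (k + e') = e - e' := by ring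
  rwa [e1] at this

variable {J}

theorem Par.mul' {e e' e'' : ℤ} {f g : K} (hf : J.Par (Pty e) f) (hg : J.Par (Pty e') g)
    (h : Even (e + e' - e'')) : J.Par (Pty e'') (f * g) := by
  refine Par.mul ?_ hf hg
  intro k hk l hl
  have h1 := (Even.add hk hl).sub h
  have e1 : k + e + (l + e') - (e + e' - e'') = k + l + e'' := by ring
  rwa [e1] at h1

theorem Par.D' {e e' : ℤ} {f : K} (hf : J.Par (Pty e) f) (h : Even (e + 1 - e')) :
    J.Par (Pty e') (J.D f) := by
  refine hf.D ?_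
  intro k hk
  have h1 := (Even.sub hk h)
  have h2 : Even (2 : ℤ) := even_two
  have h3 := h1.add h2
  have e1 : k + e - (e + 1 - e') + 2 = k + 1 + e' := by ring
  rwa [e1] at h3

theorem Par.pd' {e e' : ℤ} {f : K} (hf : J.Par (Pty e) f) (i : ℕ) (h : Even (e + i - e')) :
    J.Par (Pty e') (J.pd i f) := by
  refine hf.pd i ?_
  intro k hk
  have h1 := (Even.sub hk h)
  have e1 : k + e - (e + i - e') = k - i + e' := by ring
  rwa [e1] at h1

theorem Par.X' {e e' e'' : ℤ} {f g : K} (hf : J.Par (Pty e) f) (hg : J.Par (Pty e') g)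
    (h : Even (e + e' - e'')) : J.Par (Pty e'') (J.X g f) := by
  refine Par.X ?_ hf hg
  intro k hk l hl
  have h1 := (Even.add hk hl).sub h
  have e1 : k + e + (l + e') - (e + e' - e'') = k + l + e'' := by ring
  rwa [e1] at h1

theorem par_p : J.Par (Pty 1) (J.u 1) :=
  par_of_W (k := 1) (by simp [Pty]) (by rw [W_p]; simp)

theorem par_y0 : J.Par (Pty 1) (J.y 0) :=
  par_of_W (k := 1) (by simp [Pty]) (by rw [W_y0]; simp)

theorem par_q : J.Par (Pty 1) J.q :=
  par_of_W (k := -1) (by simp [Pty]) (by rw [W_q]; simp)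

theorem par_S : J.Par (Pty 0) J.S :=
  par_of_W (k := 2) (by simp [Pty]) (by rw [W_S]; simp)

theorem par_ord_one {f : K} (hf : J.Ord 1 f) : J.Par (Pty 0) f :=
  par_of_W (k := 0) (by simp [Pty]) (by rw [J.W_sum hf]; simp)

theorem par_const (c : ℂ) {e : ℤ} (he : Even e) : J.Par (Pty e) (algebraMap ℂ K c) :=
  par_algebraMap (zero_mem_Pty he) c

theorem par_ofNat (n : ℕ) [n.AtLeastTwo] : J.Par (Pty 0) (OfNat.ofNat n : K) := by
  have := par_const (J := J) (n : ℂ) (e := 0) (by simp)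
  rw [map_natCast] at this
  exact this

theorem par_Q {P : K} (hP : J.Ord 1 P) : J.Par (Pty 0) (J.Q P) := by
  rw [Q, pow_two]
  exact (par_ord_one hP).mul' (par_q.mul' par_q (e'' := 0) (by decide)) (by decide)

theorem par_F {P : K} (hP : J.Ord 1 P) : J.Par (Pty 1) (J.F P) := by
  rw [F_eq, tau]
  exact par_p.mul' (par_S.add (par_Q hP)) (by decide)

theorem par_aa {P : K} (hP : J.Ord 1 P) : J.Par (Pty 0) (J.aa P) :=
  ((par_ofNat 3).mul' par_S (by decide)).sub (par_Q hP)

theorem Par.C {P : K} (hP : J.Ord 1 P) {e : ℤ} {γ : K} (h : J.Par (Pty e) γ) :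
    J.Par (Pty (e + 1)) (J.C P γ) := by
  refine Par.sub (Par.sub (h.X' (par_F hP) (by simp)) ?_) ?_
  · refine Par.D' (e := e + 2) (Par.D' (e := e + 1) (Par.D' (e := e) h ?_) ?_) ?_
    · simp
    · rw [show e + 1 + 1 - (e + 2) = 0 by ring]; simp
    · rw [show e + 2 + 1 - (e + 1) = 2 by ring]; decide
  · refine Par.D' (e := e) ?_ (by simp)
    refine Par.mul' (par_aa hP) h ?_
    simp

/-! ### differential operators -/

/-- differential operators with coefficients of the right parity -/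
def IsOp (J : JetAlg K) (e : ℤ) (A : K → K) : Prop :=
  ∃ n, ∃ m : ℕ → K, (∀ k, n ≤ k → m k = 0) ∧ (∀ k : ℕ, J.Par (Pty (e + k)) (m k)) ∧
    ∀ η, A η = ∑ k ∈ range n, m k * J.D^[k] η

theorem sum_extend {n n' : ℕ} (h : n ≤ n') {m : ℕ → K} (hm : ∀ k, n ≤ k → m k = 0)
    (g : ℕ → K) : ∑ k ∈ range n, m k * g k = ∑ k ∈ range n', m k * g k := by
  refine Finset.sum_subset (Finset.range_subset_range.mpr h) ?_
  intro k _ hk
  rw [Finset.mem_range, not_lt] at hk
  rw [hm k hk, zero_mul]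

theorem IsOp.congr {e e' : ℤ} {A : K → K} (h : J.IsOp e A) (he : Even (e - e')) :
    J.IsOp e' A := by
  obtain ⟨n, m, h1, h2, h3⟩ := h
  refine ⟨n, m, h1, fun k => ?_, h3⟩
  rw [← Pty_congr (e := e + k) (e' := e' + k)]
  · exact h2 k
  · rwa [add_sub_add_right_eq_sub]

theorem IsOp.mult {e : ℤ} {b : K} (hb : J.Par (Pty e) b) : J.IsOp e (fun η => b * η) := by
  refine ⟨1, fun k => if k = 0 then b else 0, fun k hk => if_neg (by omega), fun k => ?_,
    fun η => by simp⟩
  dsimp only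
  split_ifs with h
  · subst h; simpa using hb
  · exact .zero

theorem IsOp.mul_left {e e' e'' : ℤ} {b : K} {A : K → K} (hb : J.Par (Pty e) b)
    (hA : J.IsOp e' A) (h : Even (e + e' - e'')) : J.IsOp e'' (fun η => b * A η) := by
  obtain ⟨n, m, h1, h2, h3⟩ := hA
  refine ⟨n, fun k => b * m k, fun k hk => by simp [h1 k hk], fun k => ?_, fun η => ?_⟩
  · refine hb.mul' (h2 k) ?_
    rw [show e + (e' + k) - (e'' + k) = e + e' - e'' by ring]
    exact h
  · dsimp only
    rw [h3, Finset.mul_sum]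
    exact Finset.sum_congr rfl fun k _ => by ring

theorem IsOp.add {e : ℤ} {A B : K → K} (hA : J.IsOp e A) (hB : J.IsOp e B) :
    J.IsOp e (fun η => A η + B η) := by
  obtain ⟨n, m, h1, h2, h3⟩ := hA
  obtain ⟨n', m', h1', h2', h3'⟩ := hB
  refine ⟨max n n', fun k => m k + m' k, fun k hk => ?_, fun k => (h2 k).add (h2' k),
    fun η => ?_⟩
  · dsimp only
    rw [h1 k (by omega), h1' k (by omega), add_zero]
  · dsimp only
    rw [h3, h3', sum_extend (le_max_left n n') h1, sum_extend (le_max_right n n') h1',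
      ← Finset.sum_add_distrib]
    exact Finset.sum_congr rfl fun k _ => by ring

theorem IsOp.neg {e : ℤ} {A : K → K} (hA : J.IsOp e A) : J.IsOp e (fun η => - A η) := by
  obtain ⟨n, m, h1, h2, h3⟩ := hA
  refine ⟨n, fun k => - m k, fun k hk => by simp [h1 k hk], fun k => (h2 k).neg, fun η => ?_⟩
  dsimp only
  rw [h3, ← Finset.sum_neg_distrib]
  exact Finset.sum_congr rfl fun k _ => by ring

theorem IsOp.sub {e : ℤ} {A B : K → K} (hA : J.IsOp e A) (hB : J.IsOp e B) :
    J.IsOp e (fun η => A η - B η) := by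
  simp only [sub_eq_add_neg]
  exact hA.add hB.neg

theorem IsOp.zero (e : ℤ) : J.IsOp e (fun _ => 0) :=
  ⟨0, fun _ => 0, fun _ _ => rfl, fun _ => .zero, fun _ => by simp⟩

theorem IsOp.sum {e : ℤ} {ι : Type*} (s : Finset ι) (A : ι → K → K)
    (h : ∀ i ∈ s, J.IsOp e (A i)) : J.IsOp e (fun η => ∑ i ∈ s, A i η) := by
  induction s using Finset.cons_induction with
  | empty => simpa using IsOp.zero e
  | cons a s ha ih =>
    simp only [Finset.sum_cons]
    exact (h a (Finset.mem_cons_self _ _)).add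
      (ih fun i hi => h i (Finset.mem_cons_of_mem hi))

theorem IsOp.D {e : ℤ} {A : K → K} (hA : J.IsOp e A) : J.IsOp (e + 1) (fun η => J.D (A η)) := by
  obtain ⟨n, m, h1, h2, h3⟩ := hA
  refine ⟨n + 1, fun k => J.D (m k) + (if k = 0 then 0 else m (k - 1)), fun k hk => ?_,
    fun k => ?_, fun η => ?_⟩
  · dsimp only
    rw [h1 k (by omega), if_neg (by omega), h1 (k - 1) (by omega), map_zero, add_zero]
  · refine Par.add ((h2 k).D' ?_) ?_
    · rw [show e + k + 1 - (e + 1 + k) = 0 by ring]; simp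
    · split_ifs with h
      · exact .zero
      · have := h2 (k - 1)
        have e1 : Pty (e + ((k - 1 : ℕ) : ℤ)) = Pty (e + 1 + k) := by
          refine Pty_congr ?_
          rw [Nat.cast_sub (by omega)]
          rw [show e + ((k : ℤ) - (1 : ℕ)) - (e + 1 + k) = -2 by push_cast; ring]
          decide
        rwa [e1] at this
  · dsimp only
    rw [h3, map_sum]
    have e1 : ∀ k, J.D (m k * J.D^[k] η) = J.D (m k) * J.D^[k] η + m k * J.D^[k + 1] η := by
      intro k; rw [D_mul, Function.iterate_succ_apply']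
    simp only [e1, add_mul]
    rw [Finset.sum_add_distrib, Finset.sum_add_distrib, Finset.sum_range_succ (fun k =>
      J.D (m k) * J.D^[k] η), h1 n le_rfl, map_zero, zero_mul, add_zero]
    congr 1
    rw [Finset.sum_range_succ']
    simp

theorem IsOp.D_iter {e : ℤ} {A : K → K} (hA : J.IsOp e A) (i : ℕ) :
    J.IsOp (e + i) (fun η => J.D^[i] (A η)) := by
  induction i with
  | zero => simpa using hA
  | succ i ih =>
    have := ih.D
    simp only [Function.iterate_succ_apply']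
    convert this using 1
    push_cast; ring

theorem par_neg_one_pow (i : ℕ) : J.Par (Pty 0) ((-1 : K) ^ i) := by
  have := par_const (J := J) ((-1) ^ i : ℂ) (e := 0) (by simp)
  simpa using this

variable (J)

/-- linearisation minus `γ ω` -/
noncomputable def Ko (γ η : K) : K := J.X (J.u 1 * η) γ - γ * (J.D η + J.y 0 * η)

/-- its adjoint -/
noncomputable def Ka (γ f : K) : K := J.u 1 * J.adj γ f + J.D (γ * f) - J.y 0 * γ * f

theorem Ka_spec (γ f h : K) : J.Ex (f * J.Ko γ h - J.Ka γ f * h) := by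
  have h1 := J.adj_spec γ f (J.u 1 * h)
  have h2 := ex_D (J := J) (f * γ * h)
  convert h1.sub h2 using 1
  rw [Ko, Ka]
  simp only [D_mul]
  ring

theorem Ko_isOp {γ : K} (hγ : J.Par (Pty 1) γ) : J.IsOp 0 (J.Ko γ) := by
  obtain ⟨n, hn⟩ := J.exists_ord γ
  have e1 : J.Ko γ = fun η => (∑ i ∈ range n, J.pd i γ * J.D^[i] (J.u 1 * η)) -
      γ * (J.D (1 * η) + J.y 0 * η) := by
    funext η
    rw [Ko, J.X_sum _ hn, one_mul]
    congr 1
    exact Finset.sum_congr rfl fun i _ => mul_comm _ _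
  rw [e1]
  refine IsOp.sub (IsOp.sum _ _ fun i _ => ?_) ?_
  · refine IsOp.mul_left (e := 1 + i) (e' := 1 + i) (hγ.pd' i (by simp))
      ((IsOp.mult par_p).D_iter i) ?_
    exact ⟨1 + i, by ring⟩
  · refine IsOp.mul_left (e' := 1) hγ (IsOp.add ?_ (IsOp.mult par_y0)) (by decide)
    refine IsOp.D (e := 0) (IsOp.mult ?_)
    have := par_const (J := J) 1 (e := 0) (by simp)
    simpa using this

theorem Ka_isOp {γ : K} (hγ : J.Par (Pty 1) γ) : J.IsOp 0 (J.Ka γ) := by
  obtain ⟨n, hn⟩ := J.exists_ord γ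
  have e1 : J.Ka γ = fun f => J.u 1 * (∑ i ∈ range n, (-1) ^ i * J.D^[i] (J.pd i γ * f)) +
      J.D (γ * f) - (J.y 0 * γ) * f := by
    funext η
    rw [Ka, J.adj_sum hn]
  rw [e1]
  refine IsOp.sub (IsOp.add ?_ ?_) (IsOp.mult (par_y0.mul' hγ (by decide)))
  · refine IsOp.mul_left (e' := 1) par_p (IsOp.sum _ _ fun i _ => ?_) (by decide)
    refine IsOp.mul_left (e' := 1 + i + i) (par_neg_one_pow i)
      ((IsOp.mult (hγ.pd' i (by simp))).D_iter i) ?_
    rw [show 0 + (1 + (i : ℤ) + i) - 1 = i + i by ring]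
    exact ⟨i, rfl⟩
  · exact (IsOp.mult hγ).D.congr (by decide)

end JetAlg

end Pool.Agent.Work.MP_24478e_mp.KN
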