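import Pool.Agent.Work.MP_24478e_mp.Odd

/-!
# Self-adjointness for the odd part
-/

namespace Pool.Agent.Work.MP_24478e_mp.KN

open Finset

variable {K : Type*} [CommRing K] [Algebra ℂ K] (J : JetAlg K)

namespace JetAlg

/-- the self-adjoint right-hand side -/
noncomputable def Bo (P γ η : K) : K :=
  3 * J.D (J.D (γ * J.D (J.D η + J.y 0 * η))) - 3 * J.y 0 * J.D (γ * J.D (J.D η + J.y 0 * η)) +
    2 * J.D (J.Q P * γ * (J.D η + J.y 0 * η)) - 2 * J.y 0 * J.Q P * γ * (J.D η + J.y 0 * η) +
    (J.y 0 * γ * J.R P - J.D γ * J.R P - 2 * γ * J.D (J.R P)) * η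

theorem Bo_selfadj (P γ f h : K) : J.Ex (f * J.Bo P γ h - J.Bo P γ f * h) := by
  set wf := J.D f + J.y 0 * f with hwf
  set wh := J.D h + J.y 0 * h with hwh
  refine ⟨3 * f * J.D (γ * J.D wh) - 3 * wf * (γ * J.D wh) + 2 * f * (J.Q P * γ * wh) -
    (3 * h * J.D (γ * J.D wf) - 3 * wh * (γ * J.D wf) + 2 * h * (J.Q P * γ * wf)), ?_⟩
  have hDf : J.D f = wf - J.y 0 * f := by rw [hwf]; ring
  have hDh : J.D h = wh - J.y 0 * h := by rw [hwh]; ring
  rw [Bo, Bo, ← hwf, ← hwh]
  clear_value wf wh
  simp only [map_add, map_sub, D_mul, D_ofNat, hDf, hDh]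
  ring

theorem q_D_p_mul (η : K) : J.q * J.D (J.u 1 * η) = J.D η + J.y 0 * η := by
  rw [D_p_mul]
  linear_combination (J.D η + J.y 0 * η) * J.uq

variable {P : K} (hP : J.Ord 1 P)
include hP

theorem X_p_mul_F (η : K) :
    J.X (J.F P) (J.u 1 * η) - J.X (J.u 1 * η) (J.F P) = J.u 1 * J.Lc P η := by
  rw [X_mul, X_u, Function.iterate_one, D_F]
  rw [F_eq, X_mul, X_u, Function.iterate_one, D_p_mul, tau, map_add, X_S, X_Q J hP, q_D_p_mul,
    ← tau, ← F_eq, Lc, Th_eq J hP, tau, aa, S]
  simp only [map_add, D_mul, D_y]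
  linear_combination (- J.u 1 * J.y 0 ^ 2 * J.D η) * two_hf (K := K) -
    (J.u 1 * J.R P * η) * J.uq

theorem C_Ko {γ : K} (hC : J.C P γ = 0) (η : K) :
    J.C P (J.Ko γ η) - J.Ko γ (J.Lc P η) = J.Bo P γ η := by
  have h1 : J.X (J.F P) γ = J.D (J.D (J.D γ)) + J.D (J.aa P * γ) := by
    rw [C] at hC
    linear_combination hC
  have h2 : J.X (J.F P) (J.X (J.u 1 * η) γ) = J.X (J.u 1 * η) (J.X (J.F P) γ) +
      J.X (J.u 1 * J.Lc P η) γ := by
    have := J.X_comm (J.F P) (J.u 1 * η) γ
    rw [J.X_p_mul_F hP] at this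
    linear_combination this
  set Z := J.X (J.u 1 * η) γ with hZ
  have h3 : J.X (J.u 1 * η) (J.aa P) = 3 * (J.D (J.D (J.D η + J.y 0 * η)) -
      J.y 0 * J.D (J.D η + J.y 0 * η)) -
      (J.R P * η - 2 * J.Q P * (J.D η + J.y 0 * η)) := by
    rw [aa, map_sub, X_mul, X_ofNat, X_S, X_Q J hP, q_D_p_mul]
    linear_combination (- J.R P * η) * J.uq
  have h4 : J.X (J.u 1 * η) (J.X (J.F P) γ) = J.D (J.D (J.D Z)) +
      J.D (J.X (J.u 1 * η) (J.aa P) * γ + J.aa P * Z) := by
    rw [h1, map_add, X_D, X_D, X_D, X_D, X_mul]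
  have h5 : J.X (J.F P) (J.D η + J.y 0 * η) = J.D (J.X (J.F P) η) + J.D (J.Th P) * η +
      J.y 0 * J.X (J.F P) η := by
    rw [map_add, X_D, X_mul, XF_y0]; ring
  have h6 : J.X (J.F P) (Z - γ * (J.D η + J.y 0 * η)) =
      J.D (J.D (J.D Z)) + J.D (J.X (J.u 1 * η) (J.aa P) * γ + J.aa P * Z) +
      J.X (J.u 1 * J.Lc P η) γ - (J.D (J.D (J.D γ)) + J.D (J.aa P * γ)) * (J.D η + J.y 0 * η) -
      γ * (J.D (J.X (J.F P) η) + J.D (J.Th P) * η + J.y 0 * J.X (J.F P) η) := by
    rw [map_sub, X_mul, h2, h4, h5, h1]; ring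
  rw [C, Ko, Ko, Bo, ← hZ, h6, h3]
  generalize J.X (J.u 1 * J.Lc P η) γ = Y
  rw [Lc]
  generalize J.X (J.F P) η = E
  rw [Th_eq J hP, aa, S]
  simp only [map_add, map_sub, D_mul, D_y, D_hf, D_sq, D_cube, D_ofNat, D_Q J hP, D_R J hP]
  linear_combination (3 * J.y (0 + 1) * J.D η * J.y 0 * γ) * two_hf (K := K)

omit hP in
theorem Ko_sub (γ a b : K) : J.Ko γ (a - b) = J.Ko γ a - J.Ko γ b := by
  rw [Ko, Ko, Ko, mul_sub, X_sub_left, map_sub]; ring

omit hP in
theorem Ka_add (γ a b : K) : J.Ka γ (a + b) = J.Ka γ a + J.Ka γ b := by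
  rw [Ka, Ka, Ka, adj_add_right, mul_add γ, map_add]; ring

omit hP in
theorem Ka_sub (γ a b : K) : J.Ka γ (a - b) = J.Ka γ a - J.Ka γ b := by
  have := J.Ka_add γ (a - b) b
  rw [sub_add_cancel] at this
  rw [this]; ring

omit hP in
/-- the commutator with the cosymmetry operator respects adjoints -/
theorem adj_comm {A A' : K → K} (hA : ∀ a b, A (a - b) = A a - A b)
    (hA' : ∀ a b, A' (a - b) = A' a - A' b) (h : ∀ f h, J.Ex (f * A h - A' f * h)) (f k : K) :
    J.Ex (f * (J.C P (A k) - A (J.Lc P k)) - (J.C P (A' f) - A' (J.Lc P f)) * k) := by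
  have a1 := (h f k).X (J.F P)
  have a2 := h (J.X (J.F P) f) k
  have a3 := h f (J.X (J.F P) k)
  have b1 := J.ibp f (A k) 3
  have b2 := h (J.D (J.D (J.D f))) k
  have b3 := h f (J.D (J.D (J.D k)))
  have b4 := J.ibp (A' f) k 3
  have c1 := ex_D (J := J) (f * (J.aa P * A k))
  have c2 := h (J.aa P * J.D f) k
  have c3 := h f (J.aa P * J.D k)
  have c4 := ex_D (J := J) (J.aa P * A' f * k)
  simp only [Function.iterate_succ_apply, Function.iterate_zero_apply] at b1 b4
  have a := (a1.sub a2).sub a3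
  have b := ((b2.sub b1).add b3).add b4
  have c := ((c2.sub c1).add c3).add c4
  convert (a.add b).add c using 1
  rw [C, C, Lc, Lc, hA, hA, hA', hA']
  simp only [map_sub, X_mul, D_mul]
  ring

theorem C_Ka {γ : K} (hC : J.C P γ = 0) (f : K) :
    J.C P (J.Ka γ f) - J.Ka γ (J.Lc P f) = J.Bo P γ f := by
  rw [← sub_eq_zero]
  refine J.nondeg fun k => ?_
  have h1 := J.adj_comm (P := P) (A := J.Ko γ) (A' := J.Ka γ) (J.Ko_sub γ) (J.Ka_sub γ)
    (J.Ka_spec γ) f k
  rw [J.C_Ko hP hC k] at h1
  convert (J.Bo_selfadj P γ f k).sub h1 using 1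
  ring

omit hP in
/-- coefficient extraction -/
theorem D_iter_pd_lt {m : ℕ} {b : K} (hb : J.Ord m b) {T T' : ℕ} (hT : T < T') (i : ℕ)
    (hi : m + i ≤ T) : J.pd T (J.D^[i] (b * J.u T')) = 0 := by
  induction i generalizing m b T' with
  | zero =>
    rw [Function.iterate_zero_apply, pd_mul, hb T (by omega), J.pd_u, if_neg (by omega)]
    ring
  | succ i ih =>
    rw [Function.iterate_succ_apply, D_mul, D_u, D_iter_add, map_add,
      ih hb.D hT (by omega), ih hb (T' := T' + 1) (by omega) (by omega), add_zero]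

omit hP in
theorem D_iter_pd_eq {m : ℕ} {b : K} (hb : J.Ord m b) {T : ℕ} (i : ℕ)
    (hi : m + i ≤ T) : J.pd T (J.D^[i] (b * J.u T)) = J.D^[i] b := by
  induction i generalizing m b with
  | zero =>
    rw [Function.iterate_zero_apply, pd_mul, hb T (by omega), J.pd_u, if_pos rfl,
      Function.iterate_zero_apply]
    ring
  | succ i ih =>
    rw [Function.iterate_succ_apply, D_mul, D_u, D_iter_add, map_add,
      ih hb.D (by omega), J.D_iter_pd_lt hb (T' := T + 1) (by omega) i (by omega), add_zero,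
      Function.iterate_succ_apply]

omit hP in
theorem D_iter_pd_succ {m : ℕ} {b : K} (hb : J.Ord m b) {T : ℕ} (i : ℕ)
    (hi : m + i ≤ T) : J.pd (T + 1) (J.D^[i] (b * J.u T)) = (i : K) * J.D^[i - 1] b := by
  induction i generalizing m b with
  | zero =>
    rw [Function.iterate_zero_apply, pd_mul, hb (T + 1) (by omega), J.pd_u, if_neg (by omega)]
    simp
  | succ i ih =>
    rw [Function.iterate_succ_apply, D_mul, D_u, D_iter_add, map_add,
      ih hb.D (by omega), J.D_iter_pd_eq hb i (by omega), add_tsub_cancel_right]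
    rcases i with - | i
    · simp
    · rw [add_tsub_cancel_right, ← Function.iterate_succ_apply]
      push_cast; ring

/-- The operator `K - K'` vanishes. -/
theorem Ko_eq_Ka {γ : K} (hC : J.C P γ = 0) (hγ : J.Par (Pty 1) γ) (η : K) :
    J.Ko γ η = J.Ka γ η := by
  obtain ⟨n, m, m0, mp, hm⟩ := (J.Ko_isOp hγ).sub (J.Ka_isOp hγ)
  have hM : ∀ η, J.Ko γ η - J.Ka γ η = ∑ k ∈ range n, m k * J.D^[k] η := hm
  -- commutation
  have hcomm : ∀ η, J.C P (J.Ko γ η - J.Ka γ η) =
      J.Ko γ (J.Lc P η) - J.Ka γ (J.Lc P η) := by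
    intro η
    rw [C_sub]
    linear_combination J.C_Ko hP hC η - J.C_Ka hP hC η
  -- skewness
  have hskew : ∀ f, - (J.Ko γ f - J.Ka γ f) = ∑ k ∈ range n, (-1) ^ k * J.D^[k] (m k * f) := by
    intro f
    rw [← sub_eq_zero]
    refine J.nondeg fun k => ?_
    have h1 := J.Ka_spec γ f k
    have h2 := J.Ka_spec γ k f
    have h3 : J.Ex (∑ i ∈ range n, (f * m i * J.D^[i] k - (-1) ^ i * J.D^[i] (f * m i) * k)) :=
      Ex.sum _ _ fun i _ => J.ibp _ _ _
    rw [Finset.sum_sub_distrib] at h3
    have e1 : ∑ i ∈ range n, f * m i * J.D^[i] k = f * (J.Ko γ k - J.Ka γ k) := by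
      rw [hM, Finset.mul_sum]
      exact Finset.sum_congr rfl fun i _ => by ring
    have e2 : ∑ i ∈ range n, (-1) ^ i * J.D^[i] (f * m i) * k =
        (∑ i ∈ range n, (-1) ^ i * J.D^[i] (m i * f)) * k := by
      rw [Finset.sum_mul]
      exact Finset.sum_congr rfl fun i _ => by rw [mul_comm f]
    rw [e1, e2] at h3
    convert (h3.sub h1).sub h2 using 1
    ring
  -- all coefficients vanish
  have hall : ∀ d N, N + d = n → ∀ k, N ≤ k → m k = 0 := by
    intro d
    induction d with
    | zero => intro N hN k hk; exact m0 k (by omega)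
    | succ d ih =>
      intro N hN
      have ih' := ih (N + 1) (by omega)
      suffices h0 : m N = 0 by
        intro k hk
        rcases Nat.eq_or_lt_of_le hk with rfl | hk'
        · exact h0
        · exact ih' k hk'
      have hM' : ∀ η, J.Ko γ η - J.Ka γ η = ∑ k ∈ range (N + 1), m k * J.D^[k] η := by
        intro η
        rw [hM]
        exact (sum_extend (by omega) ih' _).symm
      have hskew' : ∀ f, - (J.Ko γ f - J.Ka γ f) =
          ∑ k ∈ range (N + 1), (-1) ^ k * J.D^[k] (m k * f) := by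
        intro f
        rw [hskew]
        symm
        refine Finset.sum_subset (Finset.range_subset_range.mpr (by omega)) ?_
        intro k _ hk
        rw [Finset.mem_range, not_lt] at hk
        rw [ih' k hk, zero_mul, D_iter_zero, mul_zero]
      -- a bound for the orders
      obtain ⟨T, hT3, hT⟩ : ∃ T, 3 ≤ T ∧ ∀ k ∈ range (N + 1), J.Ord T (m k) := by
        choose o ho using fun k => J.exists_ord (m k)
        refine ⟨max 3 ((range (N + 1)).sup o), le_max_left _ _, fun k hk => ?_⟩
        exact (ho k).mono ((Finset.le_sup (f := o) hk).trans (le_max_right _ _))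
      have hgT : ∀ (η : K) (j : ℕ), T + N ≤ j → J.Ord (j + 1 - N) η →
          J.pd j (∑ k ∈ range (N + 1), m k * J.D^[k] η) = m N * J.pd (j - N) η := by
        intro η j hj hη
        rw [map_sum, Finset.sum_range_succ, Finset.sum_eq_zero, zero_add, pd_mul,
          hT N (by simp) j (by omega), zero_mul, zero_add]
        · have h1 := pd_D_iter_of_ord (J := J) (n := j - N) (f := η)
            (by convert hη using 1; omega) N
          rw [Nat.sub_add_cancel (by omega)] at h1
          rw [h1]
        · intro k hk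
          rw [Finset.mem_range] at hk
          rw [pd_mul, hT k (by simp; omega) j (by omega), zero_mul, zero_add,
            (hη.D_iter k) j (by omega), mul_zero]
      -- (a) `D (m N) = 0`
      have hD : J.D (m N) = 0 := by
        have hL : J.Ord (T + 3) (J.Lc P (J.u T)) := by
          have h1 : J.Ord (T + 4) (J.Lc P (J.u T)) := by
            rw [Lc, X_u, D_u, D_u, D_u]
            exact ((((J.ord_F hP).D_iter T).mono (by omega)).sub (ord_u' (by omega))).sub
              (((J.ord_aa hP).mono (by omega)).mul (ord_u' (by omega)))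
          refine ord_of_pd h1 ?_
          rw [Lc, X_u, D_u, D_u, D_u, map_sub, map_sub, J.pd_u, if_pos (by omega), pd_mul,
            J.ord_aa hP _ (by omega), J.pd_u, if_neg (by omega), show T + 3 = 3 + T by ring,
            pd_D_iter_of_ord (J.ord_F hP), pd3_F J hP]
          ring
        have hL2 : J.pd (T + 2) (J.Lc P (J.u T)) = - (3 * J.y 0) := by
          rw [Lc, X_u, D_u, D_u, D_u, map_sub, map_sub, J.pd_u, if_neg (by omega), pd_mul,
            J.ord_aa hP _ (by omega), J.pd_u, if_neg (by omega), show T + 2 = 2 + T by ring,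
            pd_D_iter_sub J (J.ord_F hP), pd3_F J hP, pd2_F J hP, Derivation.map_one_eq_zero]
          ring
        have h1 := congrArg (J.pd (T + N + 2)) (hcomm (J.u T))
        have hg : J.Ord (T + N + 1) (J.Ko γ (J.u T) - J.Ka γ (J.u T)) := by
          rw [hM']
          refine Ord.sum _ _ fun k hk => ?_
          have hk' := Finset.mem_range.mp hk
          exact ((hT k hk).mono (by omega)).mul (((ord_u T).D_iter k).mono (by omega))
        rw [J.T1 hP (by omega) hg, hM', hM', hgT (J.Lc P (J.u T)) (T + N + 2) (by omega)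
          (by convert hL using 1; omega), hgT (J.u T) (T + N) le_rfl
          (by convert ord_u (J := J) T using 1; omega),
          show T + N + 2 - N = T + 2 by omega, hL2, show T + N - N = T by omega, J.pd_u,
          if_pos rfl, mul_one] at h1
        have h2 : (3 : ℂ) • J.D (m N) = 0 := by
          rw [Algebra.smul_def, map_ofNat]
          linear_combination - h1
        exact smul_eq_zero' (by norm_num) h2
      obtain ⟨c, hc⟩ := const_of_D_eq_zero hD
      by_cases hpar : Even (N : ℤ)
      · -- skewness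
        have h1 := congrArg (J.pd (T + N)) (hskew' (J.u T))
        rw [map_neg, hM', hgT (J.u T) (T + N) le_rfl
          (by convert ord_u (J := J) T using 1; omega), show T + N - N = T by omega, J.pd_u,
          if_pos rfl, mul_one, map_sum, Finset.sum_range_succ, Finset.sum_eq_zero, zero_add]
          at h1
        · have h2 : J.pd (T + N) ((-1) ^ N * J.D^[N] (m N * J.u T)) = m N := by
            have hN2 : Even N := by exact_mod_cast hpar
            rw [hN2.neg_one_pow, one_mul, pd_D_iter_of_ord, pd_mul, hT N (by simp) T le_rfl,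
              J.pd_u, if_pos rfl]
            · ring
            · exact ((hT N (by simp)).mono (by omega)).mul (ord_u T)
          rw [h2] at h1
          have h3 : (2 : ℂ) • m N = 0 := by
            rw [Algebra.smul_def, map_ofNat]
            linear_combination - h1
          exact smul_eq_zero' (by norm_num) h3
        · intro k hk
          have hk' := Finset.mem_range.mp hk
          have h4 : J.Ord (T + N) ((-1) ^ k * J.D^[k] (m k * J.u T)) := by
            have h5 : J.Ord (T + 1) (m k * J.u T) :=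
              ((hT k (by simp; omega)).mono (by omega)).mul (ord_u T)
            exact ((ord_one _).neg.pow k).mul ((h5.D_iter k).mono (by omega))
          exact h4 _ le_rfl
      · -- parity
        have h1 := mp N
        rw [zero_add] at h1
        refine h1.disj (T := Pty 0) ?_ ?_
        · refine Pty_disj ?_
          simpa using hpar
        · rw [hc]; exact par_const c (by simp)
  have h0 := hall n 0 (by omega)
  have := hM η
  rw [Finset.sum_eq_zero (fun k _ => by rw [h0 k (Nat.zero_le _), zero_mul])] at this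
  exact sub_eq_zero.mp this

end JetAlg

end Pool.Agent.Work.MP_24478e_mp.KN
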