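import Pool.Agent.Work.MP_24478e_mp.Odd2

/-!
# Conserved density for the odd part
-/

namespace Pool.Agent.Work.MP_24478e_mp.KN

open Finset

variable {K : Type*} [CommRing K] [Algebra ℂ K] (J : JetAlg K)

namespace JetAlg

theorem Pty_union : Pty 0 ∪ Pty 1 = Set.univ := by
  ext z
  simp only [Pty, Set.mem_union, Set.mem_ofPred_eq, Set.mem_univ, iff_true, add_zero]
  rcases Int.even_or_odd z with h | h
  · exact Or.inl h
  · exact Or.inr h.add_one

variable {J} in
/-- splitting a nice function into even and odd parts -/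
theorem split_parity {f : K} (hf : f ∈ J.N) :
    ∃ g ∈ J.N, ∃ h ∈ J.N, J.Par (Pty 0) g ∧ J.Par (Pty 1) h ∧ f = g + h :=
  Par.split (S := Pty 0) (T := Pty 1) (Pty_disj (by decide)) (Subalgebra.toSubmodule J.N)
    (fun _ hx => N_W hx) (by rw [Pty_union]; exact hf.1) hf

variable {J} in
theorem ker_E_odd {f : K} (hf : f ∈ J.N) (hp : J.Par (Pty 1) f) (hE : J.E f = 0) :
    ∃ h ∈ J.N, J.Par (Pty 0) h ∧ f = J.D h := by
  obtain ⟨h, hh, c, e⟩ := ker_E hf hE
  obtain ⟨g0, g0N, g1, g1N, p0, p1, e2⟩ := split_parity hh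
  refine ⟨g0, g0N, p0, ?_⟩
  rw [← sub_eq_zero]
  have h1 : J.Par (Pty 1) (f - J.D g0) := hp.sub (p0.D' (by decide))
  have h2 : J.Par (Pty 0) (f - J.D g0) := by
    have : f - J.D g0 = J.D g1 + algebraMap ℂ K c := by
      rw [e, e2, map_add]; ring
    rw [this]
    exact (p1.D' (by decide)).add (par_const c (by simp))
  exact h1.disj (Pty_disj (by decide)) h2

variable {P : K} (hP : J.Ord 1 P)
include hP

/-- the Euler derivative of the potential of an odd cosymmetry -/
theorem E_potential {γ ε : K} (hC : J.C P γ = 0) (hγ : J.Par (Pty 1) γ) (he : γ = J.D ε) :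
    J.u 1 * J.E ε = γ - J.D (J.W ε) := by
  obtain ⟨n, hn⟩ := J.exists_ord ε
  obtain ⟨n', hn'⟩ := J.exists_ord γ
  set T := n + n + n' + 10 with hT
  have hK := J.Ko_eq_Ka hP hC hγ (J.u T)
  rw [Ko, Ka, he, X_D, adj_D, ← he, D_u, D_mul J γ, D_u] at hK
  have h1 : J.D (J.X (J.u 1 * J.u T) ε) = 2 * γ * J.u (T + 1) + J.D γ * J.u T -
      J.u 1 * J.adj ε (J.u (T + 1)) := by
    linear_combination hK
  have h2 := congrArg (J.pd (T + 1)) h1
  -- left-hand side
  have hZ : J.X (J.u 1 * J.u T) ε = ∑ i ∈ range n, J.D^[i] (J.u 1 * J.u T) * J.pd i ε :=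
    J.X_sum _ hn
  have hZ1 : J.pd (T + 1) (J.X (J.u 1 * J.u T) ε) = J.W ε := by
    rw [hZ, map_sum, J.W_sum hn]
    refine Finset.sum_congr rfl fun i hi => ?_
    rw [Finset.mem_range] at hi
    rw [pd_mul, J.D_iter_pd_succ (ord_u 1) i (by omega), (hn.pd i) (T + 1) (by omega), mul_zero,
      add_zero, D_iter_u]
    rcases i with - | i
    · simp
    · rw [show 1 + (i + 1 - 1) = i + 1 by omega]
  have hZ2 : J.pd T (J.X (J.u 1 * J.u T) ε) = γ := by
    rw [hZ, map_sum, he, J.D_sum hn]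
    refine Finset.sum_congr rfl fun i hi => ?_
    rw [Finset.mem_range] at hi
    rw [pd_mul, J.D_iter_pd_eq (ord_u 1) i (by omega), (hn.pd i) T (by omega), mul_zero,
      add_zero, D_iter_u, add_comm 1 i]
  have hA : J.pd (T + 1) (J.adj ε (J.u (T + 1))) = J.E ε := by
    rw [J.adj_sum hn, map_sum, J.E_sum hn]
    refine Finset.sum_congr rfl fun i hi => ?_
    rw [Finset.mem_range] at hi
    have h1 : J.pd (T + 1) ((-1 : K) ^ i) = 0 := by
      have : ((-1 : K) ^ i) = algebraMap ℂ K ((-1) ^ i) := by simp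
      rw [this, Derivation.map_algebraMap]
    rw [pd_mul, h1, zero_mul, zero_add, J.D_iter_pd_eq (hn.pd i) i (by omega)]
  rw [pd_D_succ, hZ1, hZ2, map_sub, map_add, pd_mul, pd_mul, pd_mul, pd_mul, hA, J.pd_u, J.pd_u,
    J.pd_u, if_pos rfl, if_neg (by omega), if_neg (by omega), pd_ofNat, hn' (T + 1) (by omega),
    hn'.D (T + 1) (by omega)] at h2
  linear_combination h2

/-- **Odd part**: every odd cosymmetry is the variational derivative of a conserved density. -/
theorem odd_part {γ : K} (hC : J.C P γ = 0) (hγ : J.Par (Pty 1) γ) :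
    ∃ ρ, J.E ρ = J.q * γ ∧ ∃ h, J.X (J.F P) ρ = J.D h := by
  have hN : γ ∈ J.N := J.S1 hP (by rw [hC]; exact J.N.zero_mem)
  -- `E γ = 0`
  have hE : J.E γ = 0 := by
    have h1 := J.Ko_eq_Ka hP hC hγ 1
    rw [Ko, Ka, mul_one, mul_one, mul_one, mul_one, X_u1, ← E_eq_adj,
      Derivation.map_one_eq_zero] at h1
    refine J.eq_zero_of_p_mul ?_
    linear_combination - h1
  obtain ⟨ε, hεN, hεp, he⟩ := ker_E_odd hN hγ hE
  have h1 := J.E_potential hP hC hγ he
  have h1' : J.u 1 * J.E ε = 2 * γ - J.W γ := by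
    rw [h1]
    have := J.W_D ε
    rw [← he] at this
    linear_combination this
  -- solve `(W - 1) h = ε`
  obtain ⟨h, hhN, hhp, e2⟩ := hεp.solve (k := 1) (by simp [Pty]) (Subalgebra.toSubmodule J.N)
    (fun _ hx => N_W hx) hεN
  have h2 : J.E ε = J.W (J.E h) - J.E h := by
    rw [← e2, Int.cast_one, one_mul, E_sub, W_E]
  have h3 : J.u 1 * J.E h + γ = 0 := by
    have hpar : J.Par (Pty 1) (J.u 1 * J.E h + γ) :=
      (par_p.mul' hhp.E (by decide)).add hγ
    refine hpar.eig (k := 2) (by simp only [Pty, Set.mem_ofPred_eq]; decide) ?_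
    rw [map_add, W_mul, W_p]
    rw [h2] at h1'
    push_cast
    linear_combination h1'
  have h4 : J.E (-h) = J.q * γ := by
    have : J.E (-h) = - J.E h := by
      have := J.E_sub 0 h
      rw [zero_sub] at this
      rw [this]
      have h0 := J.E_D 0
      rw [map_zero] at h0
      rw [h0, zero_sub]
    rw [this]
    linear_combination - J.q * h3 + J.E h * J.uq
  refine ⟨-h, h4, ?_⟩
  have h5 : J.E (J.X (J.F P) (-h)) = 0 := by
    rw [E_X, h4, J.adj_F hP, hC, mul_zero]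
  obtain ⟨w, -, -, hw⟩ := ker_E_odd (N_X (J.N.neg_mem hhN) (J.N_F hP))
    (hhp.neg.X' (par_F hP) (by decide)) h5
  exact ⟨w, hw⟩

end JetAlg

end Pool.Agent.Work.MP_24478e_mp.KN
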