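import Pool.Agent.Work.MP_24478e_mp.Adj

/-!
# Weights, nilpotency and antiderivatives
-/

namespace Pool.Agent.Work.MP_24478e_mp.KN

open Finset
open scoped Pointwise

variable {K : Type*} [CommRing K] [Algebra ℂ K] (J : JetAlg K)

namespace JetAlg

/-- `f` is a finite sum of generalised eigenvectors of `W` with eigenvalues in `S`. -/
inductive Par (S : Set ℤ) : K → Prop
  | zero : Par S 0
  | step (k : ℤ) (hk : k ∈ S) (f : K) (h : Par S (J.W f - (k : K) * f)) : Par S f

variable {J}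

theorem intCast_mul_eq (k : ℤ) (f : K) : (k : K) * f = (k : ℂ) • f := by
  rw [Algebra.smul_def, map_intCast]

theorem smul_eq_zero' {c : ℂ} (hc : c ≠ 0) {f : K} (h : c • f = 0) : f = 0 := by
  have h4 := congrArg (fun x => c⁻¹ • x) h
  simp only [smul_smul, smul_zero] at h4
  rwa [inv_mul_cancel₀ hc, one_smul] at h4

theorem intCast_mul_eq_zero {k : ℤ} (hk : k ≠ 0) {f : K} (h : (k : K) * f = 0) : f = 0 := by
  rw [intCast_mul_eq] at h
  exact smul_eq_zero' (by exact_mod_cast hk) h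

theorem W_intCast_mul (k : ℤ) (f : K) : J.W ((k : K) * f) = (k : K) * J.W f := by
  rw [intCast_mul_eq, intCast_mul_eq, Derivation.map_smul]

theorem Par.mono {S T : Set ℤ} (hST : S ⊆ T) {f : K} (h : J.Par S f) : J.Par T f := by
  induction h with
  | zero => exact .zero
  | step k hk f _ ih => exact .step k (hST hk) f ih

/-- A linear map shifting weights by `s`. -/
theorem Par.map {S T : Set ℤ} (A : K → K) (s : ℤ) (h0 : A 0 = 0)
    (hsub : ∀ f g, A (f - g) = A f - A g) (hmul : ∀ (k : ℤ) f, A ((k : K) * f) = (k : K) * A f)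
    (hW : ∀ f, J.W (A f) = A (J.W f) + (s : K) * A f)
    (hST : ∀ k ∈ S, k + s ∈ T) {f : K} (h : J.Par S f) : J.Par T (A f) := by
  induction h with
  | zero => rw [h0]; exact .zero
  | step k hk f _ ih =>
    refine .step (k + s) (hST k hk) _ ?_
    convert ih using 1
    rw [hW, hsub, hmul]
    push_cast; ring

theorem Par.W_sub {S : Set ℤ} (l : ℤ) {f : K} (h : J.Par S f) :
    J.Par S (J.W f - (l : K) * f) := by
  refine Par.map (J := J) (S := S) (T := S) (fun f => J.W f - (l : K) * f) 0 (by simp) ?_ ?_ ?_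
    (by simp) h
  · intro f g; simp only [map_sub]; ring
  · intro k f; simp only [W_intCast_mul]; ring
  · intro f; simp only [map_sub, W_intCast_mul]; push_cast; ring

theorem Par.W {S : Set ℤ} {f : K} (h : J.Par S f) : J.Par S (J.W f) := by
  have := h.W_sub 0
  simpa using this

theorem Par.add {S : Set ℤ} {f g : K} (hf : J.Par S f) (hg : J.Par S g) : J.Par S (f + g) := by
  induction hf generalizing g with
  | zero => simpa using hg
  | step k hk f _ ih =>
    refine .step k hk _ ?_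
    convert ih (hg.W_sub k) using 1
    rw [map_add]; ring

theorem Par.smul {S : Set ℤ} (c : ℂ) {f : K} (hf : J.Par S f) : J.Par S (c • f) := by
  refine Par.map (J := J) (S := S) (T := S) (fun f => c • f) 0 (by simp) ?_ ?_ ?_
    (by simp) hf
  · intro f g; exact smul_sub c f g
  · intro k f; simp only [mul_smul_comm]
  · intro f; simp only [Derivation.map_smul]; push_cast; ring

theorem Par.neg {S : Set ℤ} {f : K} (hf : J.Par S f) : J.Par S (-f) := by
  have := hf.smul (-1)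
  simpa using this

theorem Par.sub {S : Set ℤ} {f g : K} (hf : J.Par S f) (hg : J.Par S g) : J.Par S (f - g) := by
  rw [sub_eq_add_neg]; exact hf.add hg.neg

theorem Par.mul {S T U : Set ℤ} (hU : ∀ k ∈ S, ∀ l ∈ T, k + l ∈ U) {f g : K} (hf : J.Par S f)
    (hg : J.Par T g) : J.Par U (f * g) := by
  induction hf generalizing g with
  | zero => rw [zero_mul]; exact .zero
  | step k hk f _ ih =>
    induction hg with
    | zero => rw [mul_zero]; exact .zero
    | step l hl g hg ih2 =>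
      refine .step (k + l) (hU k hk l hl) _ ?_
      convert (ih (.step l hl g hg)).add ih2 using 1
      rw [W_mul]; push_cast; ring

theorem X_intCast_mul_left (k : ℤ) (h f : K) : J.X ((k : K) * h) f = (k : K) * J.X h f := by
  rw [intCast_mul_eq, intCast_mul_eq, X_smul_left]

theorem X_intCast_mul (k : ℤ) (h f : K) : J.X h ((k : K) * f) = (k : K) * J.X h f := by
  rw [intCast_mul_eq, intCast_mul_eq, Derivation.map_smul]

theorem Par.X {S T U : Set ℤ} (hU : ∀ k ∈ S, ∀ l ∈ T, k + l ∈ U) {f h : K} (hf : J.Par S f)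
    (hh : J.Par T h) : J.Par U (J.X h f) := by
  induction hf generalizing h with
  | zero => rw [map_zero]; exact .zero
  | step k hk f _ ih =>
    induction hh with
    | zero => rw [X_zero_left]; exact .zero
    | step l hl h hh ih2 =>
      refine .step (k + l) (hU k hk l hl) _ ?_
      convert (ih (.step l hl h hh)).add ih2 using 1
      rw [W_X, map_sub, X_sub_left, X_intCast_mul_left, X_intCast_mul]; push_cast; ring

theorem Par.D {S T : Set ℤ} (hT : ∀ k ∈ S, k + 1 ∈ T) {f : K} (hf : J.Par S f) :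
    J.Par T (J.D f) := by
  refine Par.map (J := J) (fun f => J.D f) 1 (map_zero _) (fun f g => map_sub _ _ _) ?_ ?_ hT hf
  · intro k f
    simp only [intCast_mul_eq, Derivation.map_smul]
  · intro f; simp only [W_D]; push_cast; ring

theorem Par.pd {S T : Set ℤ} (j : ℕ) (hT : ∀ k ∈ S, k - j ∈ T) {f : K} (hf : J.Par S f) :
    J.Par T (J.pd j f) := by
  refine Par.map (J := J) (fun f => J.pd j f) (-j) (map_zero _) (fun f g => map_sub _ _ _) ?_ ?_
    hT hf
  · intro k f
    simp only [intCast_mul_eq, Derivation.map_smul]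
  · intro f; simp only [W_pd]; push_cast; ring

theorem Par.E {S : Set ℤ} {f : K} (hf : J.Par S f) : J.Par S (J.E f) := by
  refine Par.map (J := J) (S := S) (T := S) (fun f => J.E f) 0 ?_ (fun f g => E_sub _ _ _) ?_ ?_
    (by simp) hf
  · have := J.E_D 0; simpa using this
  · intro k f
    simp only [intCast_mul_eq, E_smul]
  · intro f; simp only [W_E]; push_cast; ring

theorem Par.eig {T : Set ℤ} {k : ℤ} (hk : k ∉ T) {f : K} (hf : J.Par T f)
    (h : J.W f = (k : K) * f) : f = 0 := by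
  induction hf with
  | zero => rfl
  | step l hl f _ ih =>
    have h1 : J.W f - (l : K) * f = ((k - l : ℤ) : K) * f := by
      rw [h]; push_cast; ring
    have h2 : J.W (J.W f - (l : K) * f) = (k : K) * (J.W f - (l : K) * f) := by
      rw [h1, W_intCast_mul, h]; ring
    have h3 := ih h2
    rw [h1] at h3
    refine intCast_mul_eq_zero ?_ h3
    intro h0
    exact hk ((sub_eq_zero.mp h0) ▸ hl)

theorem Par.disj {S T : Set ℤ} (hST : ∀ k ∈ S, k ∉ T) {f : K} (hf : J.Par S f)
    (hg : J.Par T f) : f = 0 := by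
  induction hf with
  | zero => rfl
  | step k hk f _ ih =>
    have h1 := ih (hg.W_sub k)
    exact hg.eig (hST k hk) (sub_eq_zero.mp h1)

/-- solving `(W - k) h = f` when `k` is not a weight of `f` -/
theorem Par.solve {S : Set ℤ} {k : ℤ} (hk : k ∉ S) (V : Submodule ℂ K)
    (hV : ∀ x ∈ V, J.W x ∈ V) {f : K} (hf : J.Par S f) (hfV : f ∈ V) :
    ∃ h ∈ V, J.Par S h ∧ J.W h - (k : K) * h = f := by
  induction hf with
  | zero => exact ⟨0, V.zero_mem, .zero, by simp⟩
  | step l hl f hf ih =>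
    have hlf : J.W f - (l : K) * f ∈ V := by
      rw [intCast_mul_eq]
      exact V.sub_mem (hV f hfV) (V.smul_mem _ hfV)
    obtain ⟨h', h'V, h'S, e⟩ := ih hlf
    have hkl : ((k - l : ℤ) : ℂ) ≠ 0 := by
      intro h0
      have h1 : k - l = 0 := by exact_mod_cast h0
      exact hk ((sub_eq_zero.mp h1) ▸ hl)
    refine ⟨((k - l : ℤ) : ℂ)⁻¹ • (h' - f), V.smul_mem _ (V.sub_mem h'V hfV),
      (h'S.sub (.step l hl f hf)).smul _, ?_⟩
    have e2 : J.W (h' - f) - (k : K) * (h' - f) = ((k - l : ℤ) : ℂ) • f := by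
      have : J.W h' = J.W f - (l : K) * f + (k : K) * h' := by rw [← e]; ring
      rw [map_sub, this, ← intCast_mul_eq]; push_cast; ring
    rw [Derivation.map_smul, mul_smul_comm, ← smul_sub, e2, smul_smul, inv_mul_cancel₀ hkl,
      one_smul]

theorem Par.split {S T : Set ℤ} (hST : ∀ k ∈ S, k ∉ T) (V : Submodule ℂ K)
    (hV : ∀ x ∈ V, J.W x ∈ V) {f : K} (hf : J.Par (S ∪ T) f) (hfV : f ∈ V) :
    ∃ g ∈ V, ∃ h ∈ V, J.Par S g ∧ J.Par T h ∧ f = g + h := by
  induction hf with
  | zero => exact ⟨0, V.zero_mem, 0, V.zero_mem, .zero, .zero, by simp⟩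
  | step k hk f hf ih =>
    have hlf : J.W f - (k : K) * f ∈ V := by
      rw [intCast_mul_eq]
      exact V.sub_mem (hV f hfV) (V.smul_mem _ hfV)
    obtain ⟨g, gV, h, hV', gS, hT, e⟩ := ih hlf
    rcases hk with hk | hk
    · obtain ⟨h2, h2V, h2T, e2⟩ := hT.solve (hST k hk) V hV hV'
      refine ⟨f - h2, V.sub_mem hfV h2V, h2, h2V, .step k hk _ ?_, h2T, by ring⟩
      convert gS using 1
      have : J.W f = g + h + (k : K) * f := by rw [← e]; ring
      rw [map_sub, this, ← e2]; ring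
    · obtain ⟨g2, g2V, g2S, e2⟩ := gS.solve (fun h => hST k h hk) V hV gV
      refine ⟨g2, g2V, f - g2, V.sub_mem hfV g2V, g2S, .step k hk _ ?_, by ring⟩
      convert hT using 1
      have : J.W f = g + h + (k : K) * f := by rw [← e]; ring
      rw [map_sub, this, ← e2]; ring

theorem Par.bounded {S : Set ℤ} {f : K} (hf : J.Par S f) :
    ∃ n : ℕ, J.Par (S ∩ Set.Iic (n : ℤ)) f := by
  induction hf with
  | zero => exact ⟨0, .zero⟩
  | step k hk f _ ih =>
    obtain ⟨n, hn⟩ := ih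
    refine ⟨max n k.toNat, Par.step k ?_ f (hn.mono ?_)⟩
    · refine ⟨hk, ?_⟩
      have := Int.self_le_toNat k
      rw [Set.mem_Iic]; push_cast; omega
    · rintro x ⟨hx, hx2⟩
      refine ⟨hx, ?_⟩
      rw [Set.mem_Iic] at hx2 ⊢
      push_cast; omega

theorem par_algebraMap {S : Set ℤ} (h : (0 : ℤ) ∈ S) (c : ℂ) : J.Par S (algebraMap ℂ K c) :=
  .step 0 h _ (by simp [Derivation.map_algebraMap]; exact .zero)

theorem par_of_W {S : Set ℤ} {k : ℤ} (hk : k ∈ S) {f : K} (h : J.W f = (k : K) * f) :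
    J.Par S f := .step k hk _ (by rw [h, sub_self]; exact .zero)

theorem W_q : J.W J.q = - J.q := by
  have h1 : J.W (J.u 1 * J.q) = 0 := by rw [J.uq]; exact Derivation.map_one_eq_zero _
  rw [W_mul, W_u] at h1
  have h2 := congrArg (fun x => J.q * x) h1
  simp only [mul_zero] at h2
  have h3 : J.q * ((1 : ℕ) * J.u 1 * J.q + J.u 1 * J.W J.q) =
      (J.u 1 * J.q) * J.q + (J.u 1 * J.q) * J.W J.q := by push_cast; ring
  rw [h3, J.uq] at h2
  linear_combination h2

theorem pd_q (i : ℕ) : J.pd i J.q = if i = 1 then - J.q ^ 2 else 0 := by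
  have h1 : J.pd i (J.u 1 * J.q) = 0 := by rw [J.uq]; exact Derivation.map_one_eq_zero _
  rw [pd_mul, J.pd_u] at h1
  have h2 := congrArg (fun x => J.q * x) h1
  simp only [mul_zero] at h2
  split_ifs at h2 ⊢ with h
  · have h3 : J.q * (1 * J.q + J.u 1 * J.pd i J.q) = J.q ^ 2 + (J.u 1 * J.q) * J.pd i J.q := by
      ring
    rw [h3, J.uq] at h2
    linear_combination h2
  · have h3 : J.q * (0 * J.q + J.u 1 * J.pd i J.q) = (J.u 1 * J.q) * J.pd i J.q := by
      ring
    rw [h3, J.uq] at h2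
    linear_combination h2

theorem ord_q : J.Ord 2 J.q := fun i hi => by rw [pd_q, if_neg (by omega)]

theorem ord_L : J.Ord 2 J.L := fun i hi => by rw [J.pd_L, if_neg (by omega)]

theorem D_q : J.D J.q = - (J.q ^ 2 * J.u 2) := by
  rw [J.D_sum ord_q, Finset.sum_range_succ, Finset.sum_range_one, pd_q, pd_q]
  simp; ring

theorem X_q (h : K) : J.X h J.q = - (J.q ^ 2 * J.D h) := by
  rw [J.X_sum h ord_q, Finset.sum_range_succ, Finset.sum_range_one, pd_q, pd_q]
  simp; ring

theorem W_L : J.W J.L = 1 := by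
  rw [J.W_sum ord_L, Finset.sum_range_succ, Finset.sum_range_one, J.pd_L, J.pd_L]
  simp [J.uq]

/-! ### nilpotency -/

/-- some power of `δ` kills `f` -/
inductive Nil (δ : Derivation ℂ K K) : K → Prop
  | zero : Nil δ 0
  | step (f : K) (h : Nil δ (δ f)) : Nil δ f

theorem Nil.map {δ : Derivation ℂ K K} (A : K → K) (h0 : A 0 = 0)
    (hA : ∀ f, δ (A f) = A (δ f)) {f : K} (h : Nil δ f) : Nil δ (A f) := by
  induction h with
  | zero => rw [h0]; exact .zero
  | step f _ ih => exact .step _ (by rw [hA]; exact ih)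

theorem Nil.deriv {δ : Derivation ℂ K K} {f : K} (h : Nil δ f) : Nil δ (δ f) :=
  Nil.map δ (map_zero _) (fun _ => rfl) h

theorem Nil.smul {δ : Derivation ℂ K K} (c : ℂ) {f : K} (h : Nil δ f) : Nil δ (c • f) :=
  Nil.map (fun f => c • f) (by simp) (fun f => by simp) h

theorem Nil.add {δ : Derivation ℂ K K} {f g : K} (hf : Nil δ f) (hg : Nil δ g) :
    Nil δ (f + g) := by
  induction hf generalizing g with
  | zero => simpa using hg
  | step f _ ih => exact .step _ (by rw [map_add]; exact ih hg.deriv)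

theorem Nil.mul {δ : Derivation ℂ K K} {f g : K} (hf : Nil δ f) (hg : Nil δ g) :
    Nil δ (f * g) := by
  induction hf generalizing g with
  | zero => rw [zero_mul]; exact .zero
  | step f hf ih =>
    induction hg with
    | zero => rw [mul_zero]; exact .zero
    | step g hg ih2 =>
      refine .step _ ?_
      rw [Derivation.leibniz, smul_eq_mul, smul_eq_mul]
      refine ih2.add ?_
      rw [mul_comm]
      exact ih (.step g hg)

theorem Nil.one {δ : Derivation ℂ K K} : Nil δ (1 : K) :=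
  .step _ (by rw [Derivation.map_one_eq_zero]; exact .zero)

theorem Nil.algebraMap {δ : Derivation ℂ K K} (c : ℂ) : Nil δ (algebraMap ℂ K c) :=
  .step _ (by rw [Derivation.map_algebraMap]; exact .zero)

/-- The span of `t^j c` with `c ∈ V` and `δ c = 0`. -/
def Sp (δ : Derivation ℂ K K) (t : K) (V : Subalgebra ℂ K) : Submodule ℂ K :=
  Submodule.span ℂ {x | ∃ j : ℕ, ∃ c ∈ V, δ c = 0 ∧ x = t ^ j * c}

theorem Sp_le {δ : Derivation ℂ K K} {t : K} {V : Subalgebra ℂ K} (ht : t ∈ V) {x : K}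
    (hx : x ∈ Sp δ t V) : x ∈ V := by
  have : Sp δ t V ≤ Subalgebra.toSubmodule V := by
    refine Submodule.span_le.mpr ?_
    rintro x ⟨j, c, hc, _, rfl⟩
    exact V.mul_mem (V.pow_mem ht j) hc
  exact this hx

theorem Sp_prim {δ : Derivation ℂ K K} {t : K} {V : Subalgebra ℂ K} (hδt : δ t = 1) {x : K}
    (hx : x ∈ Sp δ t V) : ∃ h ∈ Sp δ t V, δ h = x := by
  induction hx using Submodule.span_induction with
  | mem x hx =>
    obtain ⟨j, c, hc, hc0, rfl⟩ := hx
    refine ⟨((j + 1 : ℕ) : ℂ)⁻¹ • (t ^ (j + 1) * c),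
      Submodule.smul_mem _ _ (Submodule.subset_span ⟨j + 1, c, hc, hc0, rfl⟩), ?_⟩
    rw [Derivation.map_smul, Derivation.leibniz, hc0, smul_zero, zero_add,
      Derivation.leibniz_pow, hδt, add_tsub_cancel_right, smul_eq_mul, smul_eq_mul, mul_one,
      ← Nat.cast_smul_eq_nsmul ℂ, mul_smul_comm, smul_smul, inv_mul_cancel₀, one_smul, mul_comm]
    exact_mod_cast (Nat.succ_ne_zero j)
  | zero => exact ⟨0, Submodule.zero_mem _, map_zero _⟩
  | add x y _ _ hx hy =>
    obtain ⟨a, ha, rfl⟩ := hx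
    obtain ⟨b, hb, rfl⟩ := hy
    exact ⟨a + b, Submodule.add_mem _ ha hb, map_add _ _ _⟩
  | smul c x _ hx =>
    obtain ⟨a, ha, rfl⟩ := hx
    exact ⟨c • a, Submodule.smul_mem _ _ ha, Derivation.map_smul _ _ _⟩

theorem Nil.mem_Sp {δ : Derivation ℂ K K} {t : K} {V : Subalgebra ℂ K} (hδt : δ t = 1)
    (ht : t ∈ V) (hV : ∀ x ∈ V, δ x ∈ V) {f : K} (hf : Nil δ f) (hfV : f ∈ V) :
    f ∈ Sp δ t V := by
  induction hf with
  | zero => exact Submodule.zero_mem _
  | step f hf ih =>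
    obtain ⟨h, hh, e⟩ := Sp_prim hδt (ih (hV f hfV))
    have h1 : f - h ∈ Sp δ t V := by
      refine Submodule.subset_span ⟨0, f - h, V.sub_mem hfV (Sp_le ht hh), ?_, by simp⟩
      rw [map_sub, e, sub_self]
    have := Submodule.add_mem _ h1 hh
    simpa using this

theorem Nil.exists_prim {δ : Derivation ℂ K K} {t : K} {V : Subalgebra ℂ K} (hδt : δ t = 1)
    (ht : t ∈ V) (hV : ∀ x ∈ V, δ x ∈ V) {f : K} (hf : Nil δ f) (hfV : f ∈ V) :
    ∃ h ∈ V, δ h = f := by
  obtain ⟨h, hh, e⟩ := Sp_prim hδt (hf.mem_Sp hδt ht hV hfV)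
  exact ⟨h, Sp_le ht hh, e⟩

variable (J)

/-- The subalgebra of nice functions: `W`-finite and polynomial in `u 2, u 3, …`. -/
def N : Subalgebra ℂ K where
  carrier := {f | J.Par Set.univ f ∧ ∀ i, 2 ≤ i → Nil (J.pd i) f}
  mul_mem' := fun ha hb => ⟨Par.mul (by simp) ha.1 hb.1, fun i hi => (ha.2 i hi).mul (hb.2 i hi)⟩
  add_mem' := fun ha hb => ⟨ha.1.add hb.1, fun i hi => (ha.2 i hi).add (hb.2 i hi)⟩
  algebraMap_mem' := fun c => ⟨par_algebraMap (Set.mem_univ _) c, fun _ _ => Nil.algebraMap c⟩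

variable {J}

theorem mem_N {f : K} : f ∈ J.N ↔ J.Par Set.univ f ∧ ∀ i, 2 ≤ i → Nil (J.pd i) f := Iff.rfl

theorem N_pd {f : K} (hf : f ∈ J.N) (j : ℕ) : J.pd j f ∈ J.N :=
  ⟨hf.1.pd j (by simp), fun i hi =>
    Nil.map (J.pd j) (map_zero _) (fun f => J.comm i j f) (hf.2 i hi)⟩

theorem N_u (j : ℕ) : J.u j ∈ J.N := by
  refine ⟨par_of_W (Set.mem_univ (j : ℤ)) (by rw [W_u]; push_cast; rfl), fun i _ => ?_⟩
  refine .step _ ?_
  rw [J.pd_u]
  split_ifs
  · exact Nil.one
  · exact Nil.zero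

theorem N_q : J.q ∈ J.N := by
  refine ⟨par_of_W (Set.mem_univ (-1 : ℤ)) (by rw [W_q]; push_cast; ring), fun i hi => ?_⟩
  refine .step _ ?_
  rw [ord_q i hi]
  exact Nil.zero

theorem N_L : J.L ∈ J.N := by
  refine ⟨?_, fun i hi => ?_⟩
  · refine .step 0 (Set.mem_univ _) _ ?_
    rw [W_L]
    have := par_algebraMap (J := J) (S := Set.univ) (Set.mem_univ _) 1
    simpa using this
  · refine .step _ ?_
    rw [ord_L i hi]
    exact Nil.zero

theorem N_ord_one {f : K} (hf : J.Ord 1 f) : f ∈ J.N := by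
  refine ⟨?_, fun i hi => ?_⟩
  · refine par_of_W (Set.mem_univ 0) ?_
    rw [J.W_sum hf]; simp
  · refine .step _ ?_
    rw [hf i (by omega)]
    exact Nil.zero

theorem N_D {f : K} (hf : f ∈ J.N) : J.D f ∈ J.N := by
  obtain ⟨n, hn⟩ := J.exists_ord f
  rw [J.D_sum hn]
  exact sum_mem fun i _ => J.N.mul_mem (N_u _) (N_pd hf i)

theorem N_D_iter {f : K} (hf : f ∈ J.N) (i : ℕ) : J.D^[i] f ∈ J.N := by
  induction i with
  | zero => exact hf
  | succ i ih => rw [Function.iterate_succ_apply']; exact N_D ih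

theorem N_X {f h : K} (hf : f ∈ J.N) (hh : h ∈ J.N) : J.X h f ∈ J.N := by
  obtain ⟨n, hn⟩ := J.exists_ord f
  rw [J.X_sum h hn]
  exact sum_mem fun i _ => J.N.mul_mem (N_D_iter hh i) (N_pd hf i)

theorem N_W {f : K} (hf : f ∈ J.N) : J.W f ∈ J.N := by
  obtain ⟨n, hn⟩ := J.exists_ord f
  rw [J.W_sum hn]
  exact sum_mem fun i _ => J.N.mul_mem (J.N.mul_mem (natCast_mem _ _) (N_u _)) (N_pd hf i)

theorem N_E {f : K} (hf : f ∈ J.N) : J.E f ∈ J.N := by
  obtain ⟨n, hn⟩ := J.exists_ord f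
  rw [J.E_sum hn]
  exact sum_mem fun i _ => J.N.mul_mem
    (J.N.pow_mem (J.N.neg_mem J.N.one_mem) _) (N_D_iter (N_pd hf i) i)

variable (J)

/-- nice functions of order `< n` -/
def NO (n : ℕ) : Subalgebra ℂ K := J.N ⊓ J.ordAlg n

variable {J}

theorem mem_NO {n : ℕ} {f : K} : f ∈ J.NO n ↔ f ∈ J.N ∧ J.Ord n f := Iff.rfl

/-- antiderivative in the variable `u n`, `n ≥ 2` -/
theorem prim_two {n : ℕ} (hn : 2 ≤ n) {f : K} (hf : f ∈ J.NO (n + 1)) :
    ∃ h ∈ J.NO (n + 1), J.pd n h = f :=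
  Nil.exists_prim (δ := J.pd n) (t := J.u n) (V := J.NO (n + 1)) (by rw [J.pd_u, if_pos rfl])
    ⟨N_u _, ord_u _⟩ (fun _ hx => ⟨N_pd hx.1 _, hx.2.pd _⟩) (hf.1.2 n hn) hf

/-- antiderivative in the variable `u 1` -/
theorem prim_one {f : K} (hf : f ∈ J.NO 2) : ∃ h ∈ J.NO 2, J.pd 1 h = f := by
  have hV : ∀ x ∈ Subalgebra.toSubmodule (J.NO 2), J.W x ∈ Subalgebra.toSubmodule (J.NO 2) :=
    fun x hx => ⟨N_W hx.1, hx.2.W⟩
  have hg : J.u 1 * f ∈ J.NO 2 := (J.NO 2).mul_mem ⟨N_u _, ord_u _⟩ hf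
  have hpar : J.Par ({0} ∪ {0}ᶜ) (J.u 1 * f) := by
    rw [Set.union_compl_self]; exact hg.1.1
  obtain ⟨b0, b0V, b1, b1V, hb0, hb1, e⟩ :=
    hpar.split (S := {0}) (T := {0}ᶜ) (fun k hk hk' => hk' hk) _ hV hg
  obtain ⟨A1, A1V, -, e1⟩ := hb1.solve (k := 0) (by simp) _ hV b1V
  have hnil : Nil J.W b0 := by
    clear e b0V
    induction hb0 with
    | zero => exact .zero
    | step k hk f _ ih =>
      have hk' : k = 0 := hk
      subst hk'
      refine .step _ ?_
      simpa using ih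
  obtain ⟨A0, A0V, e0⟩ := Nil.exists_prim (δ := J.W) (t := J.L) (V := J.NO 2) W_L
    ⟨N_L, ord_L⟩ (fun x hx => ⟨N_W hx.1, hx.2.W⟩) hnil b0V
  refine ⟨A0 + A1, (J.NO 2).add_mem A0V A1V, ?_⟩
  have h1 : J.W (A0 + A1) = J.u 1 * f := by
    rw [e, map_add, e0, ← e1]; simp
  have h2 : J.W (A0 + A1) = J.u 1 * J.pd 1 (A0 + A1) := by
    rw [J.W_sum ((J.NO 2).add_mem A0V A1V).2, Finset.sum_range_succ, Finset.sum_range_one]
    simp
  rw [h1] at h2
  have h3 : J.q * (J.u 1 * f) = J.q * (J.u 1 * J.pd 1 (A0 + A1)) := congrArg (fun x => J.q * x) h2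
  rw [← mul_assoc, ← mul_assoc, mul_comm J.q, J.uq, one_mul, one_mul] at h3
  exact h3.symm

theorem prim_zero {f : K} (hf : J.Ord 1 f) : ∃ h ∈ J.NO 1, J.pd 0 h = f := by
  obtain ⟨h, hh, e⟩ := J.prim f (fun i hi => hf i (by omega))
  have : J.Ord 1 h := fun i hi => hh i (by omega)
  exact ⟨h, ⟨N_ord_one this, this⟩, e⟩

/-- antiderivative in the last variable -/
theorem prim_last {n : ℕ} {f : K} (hf : f ∈ J.NO (n + 1)) :
    ∃ h ∈ J.NO (n + 1), J.pd n h = f := by
  rcases n with - | - | n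
  · exact prim_zero hf.2
  · exact prim_one hf
  · exact prim_two (by omega) hf

theorem ord_of_pd {n : ℕ} {f : K} (h : J.Ord (n + 1) f) (h' : J.pd n f = 0) : J.Ord n f := by
  intro i hi
  rcases Nat.eq_or_lt_of_le hi with rfl | hi'
  · exact h'
  · exact h i hi'

/-- kernel of the Euler operator -/
theorem ker_E {f : K} (hf : f ∈ J.N) (hE : J.E f = 0) :
    ∃ h ∈ J.N, ∃ c : ℂ, f = J.D h + algebraMap ℂ K c := by
  obtain ⟨n, hn⟩ := J.exists_ord f
  induction n generalizing f with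
  | zero =>
    obtain ⟨c, hc⟩ := const_of_ord_zero hn
    exact ⟨0, J.N.zero_mem, c, by rw [map_zero, zero_add, hc]⟩
  | succ n ih =>
    rcases n with - | n
    · have h0 : J.pd 0 f = 0 := by
        rw [J.E_sum hn, Finset.sum_range_one] at hE
        simpa using hE
      exact ih hf hE (ord_of_pd hn h0)
    · -- order `≤ n + 1`
      have h1 : J.pd (n + 1) (J.pd (n + 1) f) = 0 := by
        have e1 := congrArg (J.pd (n + 1 + (n + 1))) hE
        rw [J.E_sum hn, map_zero, map_sum, Finset.sum_range_succ] at e1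
        have e2 : ∀ i, J.pd (n + 1 + (n + 1)) ((-1) ^ i * J.D^[i] (J.pd i f)) =
            (-1) ^ i * J.pd (n + 1 + (n + 1)) (J.D^[i] (J.pd i f)) := by
          intro i
          have h1 : J.pd (n + 1 + (n + 1)) ((-1 : K) ^ i) = 0 := by
            have : ((-1 : K) ^ i) = algebraMap ℂ K ((-1) ^ i) := by simp
            rw [this, Derivation.map_algebraMap]
          rw [pd_mul, h1, zero_mul, zero_add]
        rw [e2, pd_D_iter_of_ord (n := n + 1) (hn.pd _)] at e1
        have e3 : ∑ x ∈ range (n + 1), J.pd (n + 1 + (n + 1)) ((-1) ^ x * J.D^[x] (J.pd x f))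
            = 0 := by
          refine Finset.sum_eq_zero fun i hi => ?_
          rw [Finset.mem_range] at hi
          rw [e2, ((hn.pd i).D_iter i) _ (by omega), mul_zero]
        rw [e3, zero_add] at e1
        have h2 : ((-1 : K) ^ (n + 1)) * ((-1) ^ (n + 1) * J.pd (n + 1) (J.pd (n + 1) f)) = 0 := by
          rw [e1, mul_zero]
        rwa [← mul_assoc, ← mul_pow, neg_one_mul, neg_neg, one_pow, one_mul] at h2
      have h2 : J.pd (n + 1) f ∈ J.NO (n + 1) :=
        ⟨N_pd hf _, ord_of_pd (hn.pd _) h1⟩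
      obtain ⟨A, hA, e⟩ := prim_last h2
      have h3 : J.Ord (n + 1) (f - J.D A) := by
        refine ord_of_pd (hn.sub (hA.2.D)) ?_
        rw [map_sub, pd_D_of_ord hA.2, e, sub_self]
      obtain ⟨h, hh, c, e4⟩ := ih (J.N.sub_mem hf (N_D hA.1))
        (by rw [E_sub, hE, E_D, sub_self]) h3
      refine ⟨h + A, J.N.add_mem hh hA.1, c, ?_⟩
      rw [map_add]
      linear_combination e4

/-- `D⁻¹`-closedness of `N` -/
theorem N_of_D {f : K} (hf : J.D f ∈ J.N) : f ∈ J.N := by
  obtain ⟨n, hn⟩ := J.exists_ord f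
  induction n generalizing f with
  | zero =>
    obtain ⟨c, rfl⟩ := const_of_ord_zero hn
    exact J.N.algebraMap_mem c
  | succ n ih =>
    by_cases h2 : 2 ≤ n
    · have h1 : J.pd n f ∈ J.NO (n + 1) := by
        refine ⟨?_, hn.pd n⟩
        rw [← pd_D_of_ord hn]
        exact N_pd hf _
      obtain ⟨A, hA, e⟩ := prim_last h1
      have h3 : J.Ord n (f - A) := ord_of_pd (hn.sub hA.2) (by rw [map_sub, e, sub_self])
      have := ih (f := f - A) (by rw [map_sub]; exact J.N.sub_mem hf (N_D hA.1)) h3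
      have := J.N.add_mem this hA.1
      simpa using this
    · have hn2 : J.Ord 2 f := hn.mono (by omega)
      have h1 : J.pd 1 f ∈ J.N := by
        rw [← pd_D_of_ord hn2]
        exact N_pd hf _
      refine ⟨.step 0 (Set.mem_univ _) _ ?_, fun i hi => .step _ ?_⟩
      · have : J.W f = J.u 1 * J.pd 1 f := by
          rw [J.W_sum hn2, Finset.sum_range_succ, Finset.sum_range_one]; simp
        rw [this]
        have := (J.N.mul_mem (N_u 1) h1).1
        simpa using this
      · rw [hn2 i hi]; exact .zero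

end JetAlg

end Pool.Agent.Work.MP_24478e_mp.KN
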